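import Pool.Agent.MP_332c83_pr.Main

set_option autoImplicit false

/-!
# From sets of pairs to graphs
-/

open Matrix

namespace Pool.Agent.MP_332c83_pr

variable {n : ℕ} {p : ℝ}

theorem card_EE (n : ℕ) : (EE n).card = n.choose 2 := by
  have h := Sym2.card_subtype_not_diag (α := Fin n)
  rw [Fintype.card_subtype, Fintype.card_fin] at h
  rw [← h]
  rfl

theorem card_EE_le (n : ℕ) : ((EE n).card : ℝ) ≤ n ^ 2 / 2 := by
  rw [card_EE, Nat.cast_choose_two]
  have : (0 : ℝ) ≤ n := Nat.cast_nonneg n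
  nlinarith

theorem gr_edgeFinset (G : SimpleGraph (Fin n)) [Fintype G.edgeSet] : gr G.edgeFinset = G := by
  unfold gr
  rw [SimpleGraph.coe_edgeFinset, SimpleGraph.fromEdgeSet_edgeSet]

theorem edgeFinset_gr {s : Finset (Sym2 (Fin n))} (hs : s ⊆ EE n) [Fintype (gr s).edgeSet] :
    (gr s).edgeFinset = s := by
  ext e
  rw [SimpleGraph.mem_edgeFinset]
  unfold gr
  rw [SimpleGraph.edgeSet_fromEdgeSet]
  constructor
  · intro h
    exact_mod_cast h.1
  · intro h
    refine ⟨by exact_mod_cast h, ?_⟩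
    have := hs h
    simp only [EE, Finset.mem_filter, Finset.mem_univ, true_and] at this
    exact this

theorem edgeFinset_subset_EE (G : SimpleGraph (Fin n)) [Fintype G.edgeSet] :
    G.edgeFinset ⊆ EE n := by
  intro e he
  rw [SimpleGraph.mem_edgeFinset] at he
  simp only [EE, Finset.mem_filter, Finset.mem_univ, true_and]
  exact G.not_isDiag_of_mem_edgeSet he

theorem gr_deleteEdges (s : Finset (Sym2 (Fin n))) (e : Sym2 (Fin n)) :
    (gr s).deleteEdges {e} = gr (s.erase e) := by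
  ext u v
  unfold gr
  rw [SimpleGraph.deleteEdges_adj, SimpleGraph.fromEdgeSet_adj, SimpleGraph.fromEdgeSet_adj]
  simp only [Finset.coe_erase, Set.mem_sdiff, Set.mem_singleton_iff, Finset.mem_coe]
  tauto

open scoped Classical in
/-- Edges whose deletion strictly lowers the gap. -/
noncomputable def lowset (s : Finset (Sym2 (Fin n))) : Finset (Sym2 (Fin n)) :=
  s.filter (fun e => TT (gr s) < TT (gr (s.erase e)))

theorem sum_nl {s : Finset (Sym2 (Fin n))} (hs : s ⊆ EE n) :
    ∑ u, ∑ v, nl s u v = 2 * ((s.card : ℝ) - (lowset s).card) := by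
  classical
  have h1 := sum_offdiag_eq (fun e : Sym2 (Fin n) =>
    if e ∈ s ∧ TT (gr (s.erase e)) ≤ TT (gr s) then (1 : ℝ) else 0)
  have h2 : ∑ u, ∑ v, nl s u v = ∑ u : Fin n, ∑ v : Fin n, (if u = v then 0 else
      (fun e : Sym2 (Fin n) => if e ∈ s ∧ TT (gr (s.erase e)) ≤ TT (gr s) then (1 : ℝ) else 0)
        s(u, v)) := by
    refine Finset.sum_congr rfl (fun u _ => Finset.sum_congr rfl (fun v _ => ?_))
    unfold nl
    by_cases huv : u = v
    · simp [huv]
    · simp [huv]
  rw [h2, h1]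
  congr 1
  have h3 : ∑ e ∈ EE n, (if e ∈ s ∧ TT (gr (s.erase e)) ≤ TT (gr s) then (1 : ℝ) else 0) =
      ∑ e ∈ s, (if TT (gr (s.erase e)) ≤ TT (gr s) then (1 : ℝ) else 0) := by
    rw [← Finset.sum_subset hs]
    · exact Finset.sum_congr rfl (fun e he => by simp [he])
    · intro e _ he
      rw [if_neg (fun h => he h.1)]
  rw [h3]
  have h4 : ((lowset s).card : ℝ) =
      ∑ e ∈ s, (if TT (gr s) < TT (gr (s.erase e)) then (1 : ℝ) else 0) := by
    unfold lowset
    rw [Finset.card_filter]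
    push_cast
    rfl
  rw [h4, eq_sub_iff_add_eq, ← Finset.sum_add_distrib, Finset.card_eq_sum_ones]
  push_cast
  refine Finset.sum_congr rfl (fun e _ => ?_)
  by_cases h : TT (gr s) < TT (gr (s.erase e))
  · rw [if_pos h, if_neg (not_le.mpr h)]; norm_num
  · rw [if_neg h, if_pos (not_lt.mp h)]; norm_num

theorem nl_of_not_ev {s : Finset (Sym2 (Fin n))} (hs : s ⊆ EE n) {c : ℝ} (hc : 0 < c)
    (h : ¬ (min 1 c ≤ 1 - ((lowset s).card : ℝ) / s.card)) :
    ∑ u, ∑ v, nl s u v ≤ c * n ^ 2 := by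
  rw [sum_nl hs]
  have h1 : (s.card : ℝ) ≤ n ^ 2 / 2 :=
    le_trans (by exact_mod_cast Finset.card_le_card hs) (card_EE_le n)
  push Not at h
  have h2 : 1 - ((lowset s).card : ℝ) / s.card < c := h.trans_le (min_le_right _ _)
  have h3 : 1 - ((lowset s).card : ℝ) / s.card < 1 := h.trans_le (min_le_left _ _)
  have h4 : (0 : ℝ) < s.card := by
    rcases Nat.eq_zero_or_pos s.card with h0 | h0
    · rw [h0] at h3; simp at h3
    · exact_mod_cast h0
  have h5 : (s.card : ℝ) - (lowset s).card = (1 - ((lowset s).card : ℝ) / s.card) * s.card := by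
    field_simp
  rw [h5]
  have h6 := mul_le_mul_of_nonneg_right h2.le h4.le
  have h7 := mul_le_mul_of_nonneg_left h1 hc.le
  linarith

open scoped Classical in
theorem ev_tendsto (hp : 0 < p) (hp1 : p < 1) : ∃ c : ℝ, 0 < c ∧
    Filter.Tendsto (fun n : ℕ => ex p (fun s : Finset (Sym2 (Fin n)) =>
      if c ≤ 1 - ((lowset s).card : ℝ) / s.card then (1 : ℝ) else 0)) Filter.atTop (nhds 1) := by
  obtain ⟨c, hc, hlim⟩ := bad_tendsto hp hp1
  refine ⟨min 1 c, lt_min one_pos hc, ?_⟩
  have h1 : Filter.Tendsto (fun n : ℕ => 1 - ex p (fun s : Finset (Sym2 (Fin n)) =>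
      if ∑ u, ∑ v, nl s u v ≤ c * n ^ 2 then (1 : ℝ) else 0)) Filter.atTop (nhds 1) := by
    simpa using hlim.const_sub 1
  refine tendsto_of_tendsto_of_tendsto_of_le_of_le h1 tendsto_const_nhds (fun n => ?_)
    (fun n => ?_)
  · dsimp only
    rw [sub_le_iff_le_add, ← ex_add]
    refine le_trans (ex_one (n := n) (p := p)).ge ?_
    refine ex_mono hp.le hp1.le (fun s hs => ?_)
    rw [Finset.mem_powerset] at hs
    by_cases h : min 1 c ≤ 1 - ((lowset s).card : ℝ) / s.card
    · rw [if_pos h]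
      split_ifs <;> norm_num
    · rw [if_neg h, if_pos (nl_of_not_ev hs hc h)]
      norm_num
  · dsimp only
    refine le_trans ?_ (ex_one (n := n) (p := p)).le
    refine ex_mono hp.le hp1.le (fun s hs => ?_)
    split_ifs <;> norm_num

theorem sum_graphs (F : SimpleGraph (Fin n) → ℝ) (f : Finset (Sym2 (Fin n)) → ℝ)
    (h : ∀ s ∈ (EE n).powerset, F (gr s) = wt p s * f s) :
    ∑ G : SimpleGraph (Fin n), F G = ex p f := by
  classical
  unfold ex
  refine Finset.sum_bij' (fun G _ => G.edgeFinset) (fun s _ => gr s) ?_ ?_ ?_ ?_ ?_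
  · intro G _
    rw [Finset.mem_powerset]
    exact edgeFinset_subset_EE G
  · intro s _
    exact Finset.mem_univ _
  · intro G _
    exact gr_edgeFinset G
  · intro s hs
    exact edgeFinset_gr (Finset.mem_powerset.mp hs)
  · intro G _
    have := h G.edgeFinset (Finset.mem_powerset.mpr (edgeFinset_subset_EE G))
    rw [gr_edgeFinset] at this
    exact this

end Pool.Agent.MP_332c83_pr
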