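import Pool.Agent.MP_332c83_pr.Typ

set_option autoImplicit false

/-!
# Lower bound for the second eigenvalue
-/

open Matrix

namespace Pool.Agent.MP_332c83_pr

variable {n : ℕ} {p K κ δ : ℝ} {H : SimpleGraph (Fin n)}

/-- There is a vertex whose degree is within `K √n` of `p (n - 1)`. -/
theorem Typ.exists_vertex (h : Typ p K κ δ H) (hn : 2 ≤ n) :
    ∃ u : Fin n, (dg H u - p * (n - 1)) ^ 2 ≤ K ^ 2 * n := by
  set μ : Fin n → ℝ := fun i => dg H i - p * (n - 1) with hμ
  by_contra hcon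
  push Not at hcon
  have h1 := h.MB_sq_le (fun _ => 1) μ
  have h2 : MB p H (fun _ => 1) μ = ∑ i, μ i ^ 2 := by
    rw [MB_one, lin_eq, Finset.mul_sum, ← Finset.sum_sub_distrib]
    exact Finset.sum_congr rfl (fun i _ => by simp only [hμ]; ring)
  rw [h2] at h1
  simp only [one_pow, Finset.sum_const, Finset.card_univ, Fintype.card_fin, nsmul_eq_mul,
    mul_one] at h1
  have hn0 : (0 : ℝ) < n := by positivity
  have h3 : ∑ _i : Fin n, K ^ 2 * (n : ℝ) < ∑ i, μ i ^ 2 :=
    Finset.sum_lt_sum_of_nonempty ⟨⟨0, by omega⟩, Finset.mem_univ _⟩ (fun i _ => hcon i)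
  simp only [Finset.sum_const, Finset.card_univ, Fintype.card_fin, nsmul_eq_mul] at h3
  have h4 : 0 ≤ K ^ 2 * (n : ℝ) := by positivity
  have h5 : 0 < ∑ i, μ i ^ 2 := lt_of_le_of_lt (by positivity) h3
  have h6 : (∑ i, μ i ^ 2) * (n * (K ^ 2 * n)) < (∑ i, μ i ^ 2) * (∑ i, μ i ^ 2) :=
    mul_lt_mul_of_pos_left h3 h5
  nlinarith

/-- Lower bound for the second eigenvalue. -/
theorem Typ.TT_ge (h : Typ p K κ δ H) (hp : 0 < p) (hp1 : p < 1) (hn : 2 ≤ n) (hK : 1 ≤ K)
    (hpos : ∀ i, 0 < dg H i) {p0 : ℝ} (hp0 : 0 < p0) (hp0p : p0 ≤ p) (hp0q : p0 ≤ 1 - p)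
    (hr : 17 * p + 4 * K ^ 2 / p ≤ K * p0 ^ 2 / (4 * (K ^ 2 + 1)) * Real.sqrt n) :
    K * p0 ^ 2 / (4 * (K ^ 2 + 1)) / Real.sqrt n ≤ TT H := by
  classical
  obtain ⟨u, hu⟩ := h.exists_vertex hn
  set μ : ℝ := dg H u - p * (n - 1) with hμ
  have hn2 : (2 : ℝ) ≤ n := by exact_mod_cast hn
  have hn0 : (0 : ℝ) < n := by linarith
  set r := Real.sqrt n with hrdef
  have hr0 : 0 < r := Real.sqrt_pos.mpr hn0
  have hr2 : r ^ 2 = n := Real.sq_sqrt hn0.le
  set b : Fin n → ℝ := fun v => if v = u then 0 else adj H u v - p with hb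
  set e : Fin n → ℝ := fun v => if v = u then 1 else 0 with he
  set β := ∑ i, b i ^ 2 with hβ
  have hbu : b u = 0 := by simp [hb]
  have he1 : ∑ i, e i = 1 := by simp [he]
  have he2 : ∑ i, e i ^ 2 = 1 := by
    have : ∀ i, e i ^ 2 = e i := by intro i; simp only [he]; split_ifs <;> norm_num
    rw [Finset.sum_congr rfl (fun i _ => this i), he1]
  have heb : ∑ i, e i * b i = 0 := by
    have : ∀ i, e i * b i = 0 := by
      intro i; simp only [he, hb]; split_ifs <;> simp
    exact Finset.sum_eq_zero (fun i _ => this i)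
  have hSe : ∀ f : Fin n → ℝ, SS H (fun i j => e i * f j) = ∑ j, adj H u j * f j := by
    intro f
    unfold SS
    rw [Finset.sum_eq_single u]
    · simp [he]
    · intro i _ hi
      simp [he, hi]
    · simp
  have hbsum : ∑ i, b i = μ := by
    have h1 : ∀ i, b i = (adj H u i - p) - (if i = u then (adj H u i - p) else 0) := by
      intro i; simp only [hb]; split_ifs <;> ring
    rw [Finset.sum_congr rfl (fun i _ => h1 i), Finset.sum_sub_distrib, Finset.sum_sub_distrib]
    simp [adj_self, hμ, dg]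
    ring
  have hMe : MM p H e = 0 := by
    unfold MM qA
    rw [hSe, he1, he2]
    have : ∑ j, adj H u j * e j = 0 := by
      refine Finset.sum_eq_zero (fun j _ => ?_)
      by_cases hj : j = u
      · rw [hj, adj_self]; simp
      · simp [he, hj]
    rw [this]; ring
  have hMBeb : MB p H e b = β := by
    unfold MB
    rw [hSe, he1, heb]
    have h1 : ∀ j, b j ^ 2 = adj H u j * b j - p * b j := by
      intro j
      simp only [hb]; split_ifs <;> ring
    rw [hβ, Finset.sum_congr rfl (fun j _ => h1 j), Finset.sum_sub_distrib, ← Finset.mul_sum]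
    ring
  have hMb := h.norm b
  rw [abs_le] at hMb
  -- the test vector
  set x : Fin n → ℝ := fun i => (K * r) * e i + 1 * b i with hx
  have hMx : K * r * β ≤ MM p H x := by
    rw [hx, MM_comb, hMe, hMBeb]
    have := hMb.1
    simp only [mul_zero, zero_add, one_pow, one_mul, mul_one]
    linarith
  have hxsq : ∑ i, x i ^ 2 = K ^ 2 * n + β := by
    rw [hx, sumsq_comb, he2, heb, ← hr2, hβ]
    ring
  have hxsum : ∑ i, x i = K * r + μ := by
    rw [hx]
    simp only [Finset.sum_add_distrib, ← Finset.mul_sum, he1, hbsum]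
    ring
  have hKr0 : 0 < K * r := by positivity
  have hμr : μ ^ 2 ≤ (K * r) ^ 2 := by
    rw [mul_pow, hr2]; exact hu
  have hμabs : |μ| ≤ K * r := abs_le_of_sq_le_sq hμr hKr0.le
  have hxsumsq : (∑ i, x i) ^ 2 ≤ 4 * K ^ 2 * n := by
    rw [hxsum, ← hr2]
    have := abs_le.mp hμabs
    nlinarith [this.1, this.2]
  -- bounds for β
  have hβlow : (n : ℝ) / 2 * p0 ^ 2 ≤ β := by
    have h1 : ∀ i, (if i = u then 0 else p0 ^ 2) ≤ b i ^ 2 := by
      intro i
      simp only [hb]
      split_ifs with hi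
      · simp
      · rcases adj_zero_or_one H u i with h2 | h2 <;> rw [h2] <;> nlinarith
    have h2 : ∑ i : Fin n, (if i = u then 0 else p0 ^ 2) = (n - 1) * p0 ^ 2 := by
      have h3 : ∀ i : Fin n, (if i = u then 0 else p0 ^ 2) =
          p0 ^ 2 - (if i = u then p0 ^ 2 else 0) := by
        intro i; split_ifs <;> ring
      rw [Finset.sum_congr rfl (fun i _ => h3 i), Finset.sum_sub_distrib]
      simp
      ring
    have h4 : (n - 1) * p0 ^ 2 ≤ β := by
      rw [← h2]
      exact Finset.sum_le_sum (fun i _ => h1 i)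
    have h5 : (n : ℝ) / 2 * p0 ^ 2 ≤ (n - 1) * p0 ^ 2 := by
      apply mul_le_mul_of_nonneg_right _ (sq_nonneg _)
      linarith
    linarith
  have hβup : β ≤ n := by
    have h1 : ∀ i, b i ^ 2 ≤ 1 := by
      intro i
      simp only [hb]
      split_ifs with hi
      · norm_num
      · rcases adj_zero_or_one H u i with h2 | h2 <;> rw [h2] <;> nlinarith
    calc β ≤ ∑ _i : Fin n, (1 : ℝ) := Finset.sum_le_sum (fun i _ => h1 i)
      _ = n := by simp
  have hβ0 : 0 ≤ β := Finset.sum_nonneg (fun i _ => sq_nonneg _)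
  set X := ∑ i, x i ^ 2 with hX
  have hXpos : 0 < X := by rw [hxsq]; positivity
  have hXup : X ≤ (K ^ 2 + 1) * n := by rw [hxsq]; linarith
  have hXlow : K ^ 2 * n ≤ X := by rw [hxsq]; linarith
  -- the linear term
  have hlin : lin H x ^ 2 ≤ n ^ 2 * (2 * K ^ 2 + 8 * p ^ 2) * X := by
    have h1 := h.MB_sq_le (fun _ => 1) x
    rw [MB_one] at h1
    simp only [one_pow, Finset.sum_const, Finset.card_univ, Fintype.card_fin, nsmul_eq_mul,
      mul_one] at h1
    set A := lin H x - p * (n - 1) * ∑ i, x i with hA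
    set B := p * (n - 1) * ∑ i, x i with hB
    have h2 : lin H x = A + B := by rw [hA]; ring
    have h3 : lin H x ^ 2 ≤ 2 * A ^ 2 + 2 * B ^ 2 := by
      rw [h2]; nlinarith [sq_nonneg (A - B)]
    have h4 : B ^ 2 ≤ p ^ 2 * n ^ 2 * (4 * K ^ 2 * n) := by
      rw [hB, mul_pow, mul_pow]
      have h5 : ((n : ℝ) - 1) ^ 2 ≤ n ^ 2 := by nlinarith
      have h6 : p ^ 2 * ((n : ℝ) - 1) ^ 2 ≤ p ^ 2 * n ^ 2 :=
        mul_le_mul_of_nonneg_left h5 (sq_nonneg p)
      exact mul_le_mul h6 hxsumsq (sq_nonneg _) (by positivity)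
    have h7 : p ^ 2 * n ^ 2 * (4 * K ^ 2 * n) ≤ p ^ 2 * n ^ 2 * (4 * X) := by
      apply mul_le_mul_of_nonneg_left _ (by positivity)
      linarith
    nlinarith
  have hm2 := h.m2_ge
  have hm2pos : 0 < m2 H := lt_of_lt_of_le (by positivity) hm2
  have hlin2 : lin H x ^ 2 / m2 H ≤ (4 * K ^ 2 / p + 16 * p) * X := by
    rw [div_le_iff₀ hm2pos]
    refine hlin.trans ?_
    have h1 : n ^ 2 * (2 * K ^ 2 + 8 * p ^ 2) * X =
        (4 * K ^ 2 / p + 16 * p) * X * (n ^ 2 * p / 2) := by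
      field_simp
      ring
    rw [h1]
    exact mul_le_mul_of_nonneg_left hm2 (by positivity)
  -- conclusion
  have htest := test_bound hpos hn x
  have hqA : K * r * β - p * X ≤ qA H x := by
    have : qA H x = MM p H x + p * ((∑ i, x i) ^ 2 - X) := by
      unfold MM; rw [hX]; ring
    rw [this]
    have := mul_nonneg hp.le (sq_nonneg (∑ i, x i))
    linarith
  set c1 := K * p0 ^ 2 / (4 * (K ^ 2 + 1)) with hc1
  have hc1pos : 0 < c1 := by positivity
  have hβX : p0 ^ 2 / (2 * (K ^ 2 + 1)) * X ≤ β := by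
    have h1 : p0 ^ 2 / (2 * (K ^ 2 + 1)) * X ≤ p0 ^ 2 / (2 * (K ^ 2 + 1)) * ((K ^ 2 + 1) * n) :=
      mul_le_mul_of_nonneg_left hXup (by positivity)
    have h2 : p0 ^ 2 / (2 * (K ^ 2 + 1)) * ((K ^ 2 + 1) * n) = n / 2 * p0 ^ 2 := by
      field_simp
    linarith
  have hmain : c1 * r * X ≤ qA H x - lin H x ^ 2 / m2 H := by
    have h1 : 2 * c1 * r * X ≤ K * r * β := by
      have h2 : 2 * c1 * r * X = K * r * (p0 ^ 2 / (2 * (K ^ 2 + 1)) * X) := by
        rw [hc1]; field_simp; ring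
      rw [h2]
      exact mul_le_mul_of_nonneg_left hβX hKr0.le
    have h3 : (17 * p + 4 * K ^ 2 / p) * X ≤ c1 * r * X :=
      mul_le_mul_of_nonneg_right hr hXpos.le
    nlinarith
  have hpos' : 0 < c1 * r * X := by positivity
  have hDA := qA_le_qD H x
  have hD0 : 0 < qD H x - lin H x ^ 2 / m2 H := by linarith
  have hT0 : 0 < TT H := by
    by_contra hT
    push Not at hT
    have := mul_nonpos_of_nonpos_of_nonneg hT hD0.le
    linarith
  have hDn : qD H x ≤ n * X := by
    rw [qD_eq, hX, Finset.mul_sum]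
    exact Finset.sum_le_sum (fun i _ => mul_le_mul_of_nonneg_right (dg_le H i) (sq_nonneg _))
  have hlinn : 0 ≤ lin H x ^ 2 / m2 H := by positivity
  have hfin : c1 * r * X ≤ TT H * (n * X) := by
    have h1 : TT H * (qD H x - lin H x ^ 2 / m2 H) ≤ TT H * (n * X) :=
      mul_le_mul_of_nonneg_left (by linarith) hT0.le
    linarith
  rw [div_le_iff₀ hr0]
  have h8 : c1 * r * X ≤ (TT H * r) * (r * X) := by
    have : TT H * (n * X) = (TT H * r) * (r * X) := by rw [← hr2]; ring
    linarith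
  have h9 : c1 * (r * X) ≤ (TT H * r) * (r * X) := by linarith
  exact le_of_mul_le_mul_right h9 (by positivity)

end Pool.Agent.MP_332c83_pr
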