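import Pool.Agent.MP_332c83_pr.Incomp
import Pool.Agent.MP_332c83_pr.Lower

set_option autoImplicit false

/-!
# The total first order change over all pairs
-/

open Matrix

namespace Pool.Agent.MP_332c83_pr

variable {n : ℕ} {p K κ δ : ℝ}

/-- Weighted change of `TT` when the pair `u v` is switched. -/
noncomputable def term (p : ℝ) (s : Finset (Sym2 (Fin n))) (u v : Fin n) : ℝ :=
  if u = v then 0 else
    if s(u, v) ∈ s then (1 - p) * (TT (gr (s.erase s(u, v))) - TT (gr s))
    else p * (TT (gr (insert s(u, v) s)) - TT (gr s))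

/-- Total weighted change. -/
noncomputable def total (p : ℝ) (s : Finset (Sym2 (Fin n))) : ℝ := ∑ u, ∑ v, term p s u v

open scoped Classical in
/-- Indicator of an edge whose deletion does not increase `TT`. -/
noncomputable def nl (s : Finset (Sym2 (Fin n))) (u v : Fin n) : ℝ :=
  if u ≠ v ∧ s(u, v) ∈ s ∧ TT (gr (s.erase s(u, v))) ≤ TT (gr s) then 1 else 0

theorem nl_nonneg (s : Finset (Sym2 (Fin n))) (u v : Fin n) : 0 ≤ nl s u v := by
  unfold nl; split_ifs <;> norm_num

/-- The pointwise lower bound of a term. -/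
noncomputable def low (p : ℝ) (s : Finset (Sym2 (Fin n))) (y : Fin n → ℝ) (u v : Fin n) : ℝ :=
  (2 * (y u * y v) - TT (gr s) * (y u ^ 2 + y v ^ 2)) * (p - adj (gr s) u v) -
    8 / (n ^ 2 * p) * (y u ^ 2 + y v ^ 2) - 8 * (y u ^ 2 + y v ^ 2) ^ 2

variable {s : Finset (Sym2 (Fin n))}

theorem low_le_term (h : Typ p K κ δ (gr s)) (hp : 0 < p) (hp1 : p < 1) (hn : 2 ≤ n)
    (hnp : 32 ≤ n * p) (hT0 : 0 ≤ TT (gr s)) {y : Fin n → ℝ}
    (hlin : lin (gr s) y = 0) (hD : qD (gr s) y = 1) (hA : qA (gr s) y = TT (gr s))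
    {u v : Fin n} (huv : u ≠ v) : low p s y u v ≤ term p s u v := by
  have hn0 : (0 : ℝ) < n := by positivity
  have hn2 : (2 : ℝ) ≤ n := by exact_mod_cast hn
  have hpos : ∀ i, 0 < dg (gr s) i := fun i => lt_of_lt_of_le (by linarith) (h.deg i)
  have hw0 : 0 ≤ y u ^ 2 + y v ^ 2 := by positivity
  have hwle : y u ^ 2 + y v ^ 2 ≤ 1 / 8 := by
    have h1 := h.sq_le hp hn hD u
    have h2 := h.sq_le hp hn hD v
    have h3 : 2 / (n * p) ≤ 1 / 16 := by
      rw [div_le_div_iff₀ (by positivity) (by norm_num)]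
      linarith
    linarith
  have hm := h.m2_ge
  have hm4 : 16 * n ≤ n ^ 2 * p / 2 := by nlinarith
  unfold term low
  rw [if_neg huv]
  by_cases hmem : s(u, v) ∈ s
  · rw [if_pos hmem]
    have hadj : adj (gr s) u v = 1 := by rw [adj_gr, if_pos ⟨hmem, huv⟩]
    rw [hadj]
    set s0 := s.erase s(u, v) with hs0
    have hins : insert s(u, v) s0 = s := Finset.insert_erase hmem
    have he : s(u, v) ∉ s0 := Finset.notMem_erase _ _
    have hpos0 : ∀ i, 0 < dg (gr s0) i := by
      intro i
      have h1 := dg_insert_le s0 huv he i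
      rw [hins] at h1
      have h2 := h.deg i
      linarith
    have hm0 : m2 (gr s0) = m2 (gr s) - 2 := by
      have := SS_insert s0 huv he (fun _ _ => 1)
      rw [hins] at this
      unfold m2
      linarith
    have hm1 : n ^ 2 * p / 4 ≤ m2 (gr s0) := by rw [hm0]; linarith
    have hdel := TT_del huv he hn hpos0 (y := y) (by rw [hins]; exact hlin)
      (by rw [hins]; exact hD) (by rw [hins]; exact hA) (by rw [hins]; exact hT0)
      (by rw [hm0]; linarith) hwle
    rw [hins] at hdel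
    have hQ : 2 * (y u ^ 2 + y v ^ 2) / m2 (gr s0) ≤ 8 / (n ^ 2 * p) * (y u ^ 2 + y v ^ 2) := by
      have h1 : 2 * (y u ^ 2 + y v ^ 2) / m2 (gr s0) ≤
          2 * (y u ^ 2 + y v ^ 2) / (n ^ 2 * p / 4) := by gcongr
      refine h1.trans (le_of_eq ?_)
      field_simp
      ring
    have h1p : 0 ≤ 1 - p := by linarith
    have hQ0 : 0 ≤ 8 / (n ^ 2 * p) * (y u ^ 2 + y v ^ 2) := by positivity
    have h8 : 0 ≤ 8 * (y u ^ 2 + y v ^ 2) ^ 2 := by positivity
    have h3 : -(2 * (y u * y v) - TT (gr s) * (y u ^ 2 + y v ^ 2)) -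
        8 / (n ^ 2 * p) * (y u ^ 2 + y v ^ 2) - 8 * (y u ^ 2 + y v ^ 2) ^ 2 ≤
        TT (gr s0) - TT (gr s) := by linarith
    have h4 := mul_le_mul_of_nonneg_left h3 h1p
    nlinarith
  · rw [if_neg hmem]
    have hadj : adj (gr s) u v = 0 := by
      rw [adj_gr, if_neg]; exact fun h => hmem h.1
    rw [hadj]
    have hadd := TT_add huv hmem hn hpos (y := y) hlin hD hA hT0 (by linarith)
    have hQ : 2 * (y u ^ 2 + y v ^ 2) / m2 (gr s) ≤ 8 / (n ^ 2 * p) * (y u ^ 2 + y v ^ 2) := by
      have hm1 : n ^ 2 * p / 4 ≤ m2 (gr s) := by linarith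
      have h1 : 2 * (y u ^ 2 + y v ^ 2) / m2 (gr s) ≤
          2 * (y u ^ 2 + y v ^ 2) / (n ^ 2 * p / 4) := by gcongr
      refine h1.trans (le_of_eq ?_)
      field_simp
      ring
    have hQ0 : 0 ≤ 8 / (n ^ 2 * p) * (y u ^ 2 + y v ^ 2) := by positivity
    have h8 : 0 ≤ 8 * (y u ^ 2 + y v ^ 2) ^ 2 := by positivity
    have h3 : (2 * (y u * y v) - TT (gr s) * (y u ^ 2 + y v ^ 2)) -
        8 / (n ^ 2 * p) * (y u ^ 2 + y v ^ 2) - 8 * (y u ^ 2 + y v ^ 2) ^ 2 ≤
        TT (gr (insert s(u, v) s)) - TT (gr s) := by linarith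
    have h4 := mul_le_mul_of_nonneg_left h3 hp.le
    nlinarith

/-- Sum of the pointwise lower bounds. -/
theorem sum_low_ge (h : Typ p K κ δ (gr s)) (hp : 0 < p) (hn : 2 ≤ n) (hK : 0 < K)
    (hT0 : 0 ≤ TT (gr s)) (hTu : TT (gr s) ≤ 4 * K / p / Real.sqrt n)
    {y : Fin n → ℝ}
    (hD : qD (gr s) y = 1) (hA : qA (gr s) y = TT (gr s)) :
    -((4 * (1 + 4 * K / p) + 160 / p ^ 2) / Real.sqrt n) ≤
      ∑ u, ∑ v, (if u = v then 0 else low p s y u v) := by
  have hn0 : (0 : ℝ) < n := by positivity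
  set r := Real.sqrt n with hrdef
  have hr0 : 0 < r := Real.sqrt_pos.mpr hn0
  have hr2 : r ^ 2 = n := Real.sq_sqrt hn0.le
  have hr1 : 1 ≤ r := by
    have h3 : (1 : ℝ) ≤ n := by exact_mod_cast (by omega : 1 ≤ n)
    rw [hrdef]; exact Real.one_le_sqrt.mpr h3
  set T := TT (gr s) with hT
  set Y := ∑ i, y i ^ 2 with hYdef
  have hY := h.sumsq_le hp hn hD
  have hY0 : 0 ≤ Y := Finset.sum_nonneg (fun i _ => sq_nonneg _)
  -- main part
  set f : Fin n → Fin n → ℝ := fun u v => 2 * (y u * y v) - T * (y u ^ 2 + y v ^ 2) with hf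
  set g : Fin n → Fin n → ℝ := fun u v => 8 / (n ^ 2 * p) * (y u ^ 2 + y v ^ 2) +
    8 * (y u ^ 2 + y v ^ 2) ^ 2 with hg
  have hSSf : SS (gr s) f = 0 := by
    have h1 : SS (gr s) (fun u v => y v ^ 2) = 1 := by
      have : SS (gr s) (fun u v => y v ^ 2) = qD (gr s) y := by
        unfold qD; rw [← SS_comm]
      rw [this, hD]
    have h2 : SS (gr s) f = 2 * qA (gr s) y - T * (qD (gr s) y + SS (gr s) (fun u v => y v ^ 2)) := by
      unfold qA qD SS
      simp only [Finset.mul_sum, ← Finset.sum_add_distrib, ← Finset.sum_sub_distrib]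
      exact Finset.sum_congr rfl (fun i _ => Finset.sum_congr rfl (fun j _ => by
        simp only [hf]; ring))
    rw [h2, h1, hD, hA]
    ring
  have hoff : ∀ q : Fin n → Fin n → ℝ, ∑ u, ∑ v, (if u = v then 0 else q u v) =
      ∑ u, ∑ v, q u v - ∑ u, q u u := by
    intro q
    rw [← Finset.sum_sub_distrib]
    refine Finset.sum_congr rfl (fun u _ => ?_)
    have : ∀ v, (if u = v then 0 else q u v) = q u v - (if u = v then q u v else 0) := by
      intro v; split_ifs <;> ring
    rw [Finset.sum_congr rfl (fun v _ => this v), Finset.sum_sub_distrib]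
    simp
  have hsplit : ∑ u, ∑ v, (if u = v then 0 else low p s y u v) =
      p * ∑ u, ∑ v, (if u = v then 0 else f u v) - SS (gr s) f -
      ∑ u, ∑ v, (if u = v then 0 else g u v) := by
    unfold SS
    simp only [Finset.mul_sum, ← Finset.sum_sub_distrib]
    refine Finset.sum_congr rfl (fun u _ => Finset.sum_congr rfl (fun v _ => ?_))
    by_cases huv : u = v
    · subst huv
      simp [adj_self]
    · simp only [if_neg huv, low, hf, hg]
      ring
  have hfull : ∑ u, ∑ v, f u v = 2 * (∑ i, y i) ^ 2 - 2 * T * (n * Y) := by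
    have h1 : ∑ u, ∑ v, f u v = 2 * ((∑ i, y i) * (∑ i, y i)) -
        T * (∑ u : Fin n, ∑ v : Fin n, y u ^ 2 + ∑ u : Fin n, ∑ v : Fin n, y v ^ 2) := by
      rw [Finset.sum_mul_sum]
      simp only [Finset.mul_sum, ← Finset.sum_add_distrib, ← Finset.sum_sub_distrib]
      exact Finset.sum_congr rfl (fun i _ => Finset.sum_congr rfl (fun j _ => by
        simp only [hf]))
    rw [h1]
    simp only [Finset.sum_const, Finset.card_univ, Fintype.card_fin, nsmul_eq_mul,
      ← Finset.mul_sum, ← hYdef]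
    ring
  have hdiag : ∑ u, f u u = 2 * Y - 2 * T * Y := by
    rw [hYdef, Finset.mul_sum, Finset.mul_sum, ← Finset.sum_sub_distrib]
    exact Finset.sum_congr rfl (fun u _ => by simp only [hf]; ring)
  have hmainlow : -(2 * p * Y * (1 + T * n)) ≤ p * ∑ u, ∑ v, (if u = v then 0 else f u v) := by
    rw [hoff, hfull, hdiag]
    have h1 := mul_nonneg hp.le (sq_nonneg (∑ i, y i))
    have h2 := mul_nonneg (mul_nonneg hp.le hT0) hY0
    nlinarith
  -- error part
  have hg0 : ∀ u v, 0 ≤ g u v := fun u v => by simp only [hg]; positivity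
  have hgle : ∀ u v, g u v ≤ 8 / (n ^ 2 * p) * (y u ^ 2 + y v ^ 2) +
      (32 / (n * p)) * (y u ^ 2 + y v ^ 2) := by
    intro u v
    simp only [hg]
    have h1 := h.sq_le hp hn hD u
    have h2 := h.sq_le hp hn hD v
    have h3 : 8 * (y u ^ 2 + y v ^ 2) ^ 2 ≤ (32 / (n * p)) * (y u ^ 2 + y v ^ 2) := by
      have h4 : y u ^ 2 + y v ^ 2 ≤ 4 / (n * p) := by
        have : 4 / (n * p) = 2 / (n * p) + 2 / (n * p) := by ring
        linarith
      have h5 : 0 ≤ y u ^ 2 + y v ^ 2 := by positivity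
      calc 8 * (y u ^ 2 + y v ^ 2) ^ 2 = 8 * (y u ^ 2 + y v ^ 2) * (y u ^ 2 + y v ^ 2) := by ring
        _ ≤ 8 * (4 / (n * p)) * (y u ^ 2 + y v ^ 2) := by gcongr
        _ = (32 / (n * p)) * (y u ^ 2 + y v ^ 2) := by ring
    linarith
  have herr : ∑ u, ∑ v, (if u = v then 0 else g u v) ≤
      (8 / (n ^ 2 * p) + 32 / (n * p)) * (2 * n * Y) := by
    have h1 : ∑ u, ∑ v, (if u = v then 0 else g u v) ≤
        ∑ u, ∑ v, (8 / (n ^ 2 * p) + 32 / (n * p)) * (y u ^ 2 + y v ^ 2) := by
      refine Finset.sum_le_sum (fun u _ => Finset.sum_le_sum (fun v _ => ?_))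
      split_ifs
      · positivity
      · refine (hgle u v).trans (le_of_eq (by ring))
    refine h1.trans (le_of_eq ?_)
    have h2 : ∑ u : Fin n, ∑ v : Fin n, (y u ^ 2 + y v ^ 2) = 2 * n * Y := by
      simp only [Finset.sum_add_distrib, Finset.sum_const, Finset.card_univ, Fintype.card_fin,
        nsmul_eq_mul, ← Finset.mul_sum, ← hYdef]
      ring
    rw [← h2]
    simp only [Finset.mul_sum]
  rw [hsplit, hSSf]
  -- final estimates
  have e1 : 2 * p * Y * (1 + T * n) ≤ 4 * (1 + 4 * K / p) / r := by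
    have h1 : 2 * p * Y * (1 + T * n) ≤ 2 * p * (2 / (n * p)) * (1 + (4 * K / p / r) * n) := by
      gcongr
    refine h1.trans ?_
    have h2 : 2 * p * (2 / (n * p)) * (1 + (4 * K / p / r) * n) = 4 / r ^ 2 + 16 * K / p / r := by
      rw [← hr2]; field_simp; ring
    rw [h2]
    have h3 : 4 / r ^ 2 ≤ 4 / r := by
      gcongr
      nlinarith
    have h4 : 4 * (1 + 4 * K / p) / r = 4 / r + 16 * K / p / r := by ring
    linarith
  have e2 : (8 / (n ^ 2 * p) + 32 / (n * p)) * (2 * n * Y) ≤ 160 / p ^ 2 / r := by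
    have h1 : (8 / (n ^ 2 * p) + 32 / (n * p)) * (2 * n * Y) ≤
        (8 / (n * p) + 32 / (n * p)) * (2 * n * (2 / (n * p))) := by
      have h3 : (1 : ℝ) ≤ n := by exact_mod_cast (by omega : 1 ≤ n)
      have : 8 / (n ^ 2 * p) ≤ 8 / (n * p) := by
        gcongr
        nlinarith
      gcongr
    refine h1.trans ?_
    have h2 : (8 / (n * p) + 32 / (n * p)) * (2 * n * (2 / (n * p))) = 160 / p ^ 2 / r ^ 2 := by
      rw [← hr2]; field_simp; ring
    rw [h2]
    gcongr
    nlinarith
  have e3 : (4 * (1 + 4 * K / p) + 160 / p ^ 2) / r = 4 * (1 + 4 * K / p) / r + 160 / p ^ 2 / r := by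
    ring
  rw [e3]
  linarith

/-- Main deterministic theorem, general lower bound and gain. -/
theorem total_ge (h : Typ p K κ δ (gr s)) (hp : 0 < p) (hp1 : p < 1) (hn : 2 ≤ n) (hK : 1 ≤ K)
    (hκ0 : 0 ≤ κ) (hδ : 0 < δ) (hnp : 32 ≤ n * p)
    {c1 l1 K1 : ℝ} (hc1 : 0 < c1) (hl1 : 0 < l1) (hK1 : 0 < K1)
    (hK1' : 8 / (p * δ) ≤ K1 ^ 2)
    (hT : c1 / Real.sqrt n ≤ TT (gr s))
    (hκ : 2 * κ / p ≤ c1 / 4) (hl : 2 * K * Real.sqrt (2 / p) * l1 + K * l1 ^ 2 ≤ c1 / 4)
    (hr1 : 32 * K ^ 2 / p ^ 2 ≤ c1 * Real.sqrt n)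
    (hr2 : 4 * K / p ≤ Real.sqrt n)
    (hr3 : 8 * (K + 1) / (p * δ) ≤ Real.sqrt n)
    (hr4 : 8 * K / p * K1 ^ 2 ≤ l1 ^ 2 * Real.sqrt n) :
    -((4 * (1 + 4 * K / p) + 160 / p ^ 2) / Real.sqrt n) ≤ total p s ∧
    (∑ u, ∑ v, nl s u v ≤ p * δ ^ 2 / 64 * n ^ 2 →
      (1 - p) * p * l1 ^ 2 * δ ^ 2 / 64 - (4 * (1 + 4 * K / p) + 160 / p ^ 2) / Real.sqrt n ≤
        total p s) := by
  classical
  have hn0 : (0 : ℝ) < n := by positivity
  have hpos : ∀ i, 0 < dg (gr s) i := fun i => lt_of_lt_of_le (by linarith) (h.deg i)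
  have hr0 : 0 < Real.sqrt n := Real.sqrt_pos.mpr hn0
  have hT0 : 0 ≤ TT (gr s) := le_trans (by positivity) hT
  have hTu := h.TT_le hp hn (by linarith) hr2 hpos
  obtain ⟨y, hlin, hD, hA⟩ := exists_extremal hpos hn
  have hsum := sum_low_ge h hp hn (by linarith) hT0 hTu hD hA
  have hcard := h.card_large hp hn hK hκ0 hc1 hl1 hT hκ hl hr1 hlin hD hA
  obtain ⟨S, hS1, hS2, hS3⟩ := h.exists_set hp hn hδ hl1 hK1 hK1' hD hcard
  have hpairs := h.pairs_in_set hp hp1 hn hK hδ hr3 S hS1
  refine ⟨hsum.trans ?_, fun hNL => ?_⟩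
  · refine Finset.sum_le_sum (fun u _ => Finset.sum_le_sum (fun v _ => ?_))
    split_ifs with huv
    · simp [term, huv]
    · exact low_le_term h hp hp1 hn hnp hT0 hlin hD hA huv
  · set g : ℝ := (1 - p) * (l1 ^ 2 / n ^ 2) with hg
    have hg0 : 0 ≤ g := mul_nonneg (by linarith) (by positivity)
    -- pointwise improved bound
    have hpt : ∀ u v, (if u = v then 0 else low p s y u v) +
        g * (if u ∈ S then (if v ∈ S then (adj (gr s) u v - nl s u v) else 0) else 0) ≤
        term p s u v := by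
      intro u v
      by_cases huv : u = v
      · subst huv
        simp [term, adj_self, nl]
      · rw [if_neg huv]
        have hbase := low_le_term h hp hp1 hn hnp hT0 hlin hD hA huv
        by_cases hu : u ∈ S
        · by_cases hv : v ∈ S
          · rw [if_pos hu, if_pos hv]
            by_cases hmem : s(u, v) ∈ s
            · have hadj : adj (gr s) u v = 1 := by rw [adj_gr, if_pos ⟨hmem, huv⟩]
              by_cases hle : TT (gr (s.erase s(u, v))) ≤ TT (gr s)
              · have hnl : nl s u v = 1 := by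
                  unfold nl; rw [if_pos ⟨huv, hmem, hle⟩]
                rw [hadj, hnl]
                linarith
              · have hnl : nl s u v = 0 := by
                  unfold nl; rw [if_neg (fun hh => hle hh.2.2)]
                push Not at hle
                have hterm : 0 ≤ term p s u v := by
                  unfold term
                  rw [if_neg huv, if_pos hmem]
                  exact mul_nonneg (by linarith) (by linarith)
                have hlow : low p s y u v ≤ -g := by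
                  unfold low
                  rw [hadj]
                  have h1 := hS2 u hu v hv
                  have h2 := hS3 u hu
                  have h3 := hS3 v hv
                  have h4 : TT (gr s) * (y u ^ 2 + y v ^ 2) ≤ l1 ^ 2 / n ^ 2 := by
                    have h5 : TT (gr s) * (y u ^ 2 + y v ^ 2) ≤
                        (4 * K / p / Real.sqrt n) * (2 * (K1 ^ 2 / n ^ 2)) := by
                      apply mul_le_mul hTu (by linarith) (by positivity) (by positivity)
                    refine h5.trans ?_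
                    have h6 : (4 * K / p / Real.sqrt n) * (2 * (K1 ^ 2 / n ^ 2)) =
                        (8 * K / p * K1 ^ 2) / Real.sqrt n / n ^ 2 := by ring
                    rw [h6]
                    gcongr
                    rw [div_le_iff₀ hr0]
                    exact hr4
                  have h7 : l1 ^ 2 / n ^ 2 ≤ 2 * (y u * y v) -
                      TT (gr s) * (y u ^ 2 + y v ^ 2) := by linarith
                  have h8 : g ≤ (1 - p) * (2 * (y u * y v) -
                      TT (gr s) * (y u ^ 2 + y v ^ 2)) :=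
                    mul_le_mul_of_nonneg_left h7 (by linarith)
                  have h9 : 0 ≤ 8 / (n ^ 2 * p) * (y u ^ 2 + y v ^ 2) := by positivity
                  have h10 : 0 ≤ 8 * (y u ^ 2 + y v ^ 2) ^ 2 := by positivity
                  nlinarith
                rw [hadj, hnl]
                linarith
            · have hadj : adj (gr s) u v = 0 := by
                rw [adj_gr, if_neg]; exact fun h => hmem h.1
              have := nl_nonneg s u v
              rw [hadj]
              have := mul_nonneg hg0 this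
              linarith
          · rw [if_pos hu, if_neg hv]
            linarith
        · rw [if_neg hu]
          linarith
    have h1 : ∑ u, ∑ v, (if u = v then 0 else low p s y u v) +
        g * (∑ u ∈ S, ∑ v ∈ S, adj (gr s) u v - ∑ u ∈ S, ∑ v ∈ S, nl s u v) ≤ total p s := by
      have h2 : g * (∑ u ∈ S, ∑ v ∈ S, adj (gr s) u v - ∑ u ∈ S, ∑ v ∈ S, nl s u v) =
          ∑ u, ∑ v, g * (if u ∈ S then (if v ∈ S then (adj (gr s) u v - nl s u v) else 0)
            else 0) := by
        have h3 : ∀ u, ∑ v, g * (if u ∈ S then (if v ∈ S then (adj (gr s) u v - nl s u v) else 0)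
            else 0) = if u ∈ S then g * ∑ v ∈ S, (adj (gr s) u v - nl s u v) else 0 := by
          intro u
          by_cases hu : u ∈ S
          · simp only [if_pos hu, ← Finset.mul_sum]
            congr 1
            rw [Finset.sum_ite_mem, Finset.univ_inter]
          · simp [if_neg hu]
        rw [Finset.sum_congr rfl (fun u _ => h3 u), Finset.sum_ite_mem, Finset.univ_inter,
          ← Finset.mul_sum]
        congr 1
        rw [← Finset.sum_sub_distrib]
        exact Finset.sum_congr rfl (fun u _ => by rw [← Finset.sum_sub_distrib])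
      rw [h2, ← Finset.sum_add_distrib]
      unfold total
      refine Finset.sum_le_sum (fun u _ => ?_)
      rw [← Finset.sum_add_distrib]
      exact Finset.sum_le_sum (fun v _ => hpt u v)
    have h2 : ∑ u ∈ S, ∑ v ∈ S, nl s u v ≤ ∑ u, ∑ v, nl s u v := by
      calc ∑ u ∈ S, ∑ v ∈ S, nl s u v ≤ ∑ u ∈ S, ∑ v, nl s u v :=
            Finset.sum_le_sum (fun u _ => Finset.sum_le_sum_of_subset_of_nonneg
              (Finset.subset_univ _) (fun v _ _ => nl_nonneg s u v))
        _ ≤ _ := Finset.sum_le_sum_of_subset_of_nonneg (Finset.subset_univ _)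
              (fun u _ _ => Finset.sum_nonneg (fun v _ => nl_nonneg s u v))
    have h3 : p * δ ^ 2 * n ^ 2 / 64 ≤
        ∑ u ∈ S, ∑ v ∈ S, adj (gr s) u v - ∑ u ∈ S, ∑ v ∈ S, nl s u v := by
      have : p * δ ^ 2 * n ^ 2 / 32 = p * δ ^ 2 * n ^ 2 / 64 + p * δ ^ 2 / 64 * n ^ 2 := by ring
      linarith
    have h4 := mul_le_mul_of_nonneg_left h3 hg0
    have h5 : g * (p * δ ^ 2 * n ^ 2 / 64) = (1 - p) * p * l1 ^ 2 * δ ^ 2 / 64 := by
      rw [hg]; field_simp
    linarith

end Pool.Agent.MP_332c83_pr
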