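import Pool.Agent.MP_332c83_pr.Net
import Pool.Agent.MP_332c83_pr.Drift

set_option autoImplicit false

/-!
# Exchangeability, and the probability of atypical graphs
-/

open Matrix

namespace Pool.Agent.MP_332c83_pr

variable {n : ℕ} {p : ℝ}

theorem wt_insert {e : Sym2 (Fin n)} {t : Finset (Sym2 (Fin n))} (ht : t ⊆ EE n) (het : e ∉ t)
    (he : e ∈ EE n) : wt p (insert e t) * (1 - p) = wt p t * p := by
  have h1 : (insert e t).card = t.card + 1 := Finset.card_insert_of_notMem het
  have h2 : (insert e t).card ≤ (EE n).card :=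
    Finset.card_le_card (Finset.insert_subset he ht)
  unfold wt
  rw [h1] at h2 ⊢
  have h3 : (EE n).card - t.card = ((EE n).card - (t.card + 1)) + 1 := by omega
  rw [h3, pow_succ, pow_succ]
  ring

/-- Reversibility of single pair resampling. -/
theorem ex_switch {e : Sym2 (Fin n)} (he : e ∈ EE n) (F : Finset (Sym2 (Fin n)) → ℝ) :
    ex p (fun s => if e ∈ s then (1 - p) * (F (s.erase e) - F s)
      else p * (F (insert e s) - F s)) = 0 := by
  unfold ex
  have h0 : EE n = insert e ((EE n).erase e) := (Finset.insert_erase he).symm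
  have h1 : (EE n).powerset = (insert e ((EE n).erase e)).powerset := by rw [← h0]
  rw [h1, Finset.sum_powerset_insert (Finset.notMem_erase _ _), ← Finset.sum_add_distrib]
  refine Finset.sum_eq_zero (fun t ht => ?_)
  rw [Finset.mem_powerset] at ht
  have het : e ∉ t := fun h => (Finset.mem_erase.mp (ht h)).1 rfl
  have ht2 : t ⊆ EE n := ht.trans (Finset.erase_subset _ _)
  dsimp only
  rw [if_neg het, if_pos (Finset.mem_insert_self _ _), Finset.erase_insert het]
  have h2 := wt_insert (p := p) ht2 het he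
  linear_combination (F t - F (insert e t)) * h2

theorem ex_total : ex p (total p : Finset (Sym2 (Fin n)) → ℝ) = 0 := by
  have h1 : ex p (total p : Finset (Sym2 (Fin n)) → ℝ) =
      ∑ u : Fin n, ∑ v : Fin n, ex p (fun s => term p s u v) := by
    have : (total p : Finset (Sym2 (Fin n)) → ℝ) =
        fun s => ∑ u : Fin n, ∑ v : Fin n, term p s u v := rfl
    rw [this, ex_sum]
    exact Finset.sum_congr rfl (fun u _ => ex_sum _ _)
  rw [h1]
  refine Finset.sum_eq_zero (fun u _ => Finset.sum_eq_zero (fun v _ => ?_))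
  by_cases huv : u = v
  · unfold ex
    exact Finset.sum_eq_zero (fun s _ => by simp [term, huv])
  · have := ex_switch (p := p) (mem_EE.mpr huv) (fun s => TT (gr s))
    rw [← this]
    unfold ex
    exact Finset.sum_congr rfl (fun s _ => by simp only [term, if_neg huv])

theorem total_ge_trivial (hp : 0 ≤ p) (hp1 : p ≤ 1) (hn : 2 ≤ n) (s : Finset (Sym2 (Fin n))) :
    -(n ^ 2 * (2 * (n + 1))) ≤ total p s := by
  have h1 : ∀ u v, -(2 * ((n : ℝ) + 1)) ≤ term p s u v := by
    intro u v
    have hn0 : (0 : ℝ) ≤ n := Nat.cast_nonneg n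
    have hT := fun H : SimpleGraph (Fin n) => abs_le.mp (abs_TT_le H hn)
    unfold term
    split_ifs with h1 h2
    · linarith
    · have h3 : -(2 * ((n : ℝ) + 1)) ≤ TT (gr (s.erase s(u, v))) - TT (gr s) := by
        linarith [(hT (gr (s.erase s(u, v)))).1, (hT (gr s)).2]
      have h4 : (1 - p) * -(2 * ((n : ℝ) + 1)) ≤
          (1 - p) * (TT (gr (s.erase s(u, v))) - TT (gr s)) :=
        mul_le_mul_of_nonneg_left h3 (by linarith)
      nlinarith
    · have h3 : -(2 * ((n : ℝ) + 1)) ≤ TT (gr (insert s(u, v) s)) - TT (gr s) := by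
        linarith [(hT (gr (insert s(u, v) s))).1, (hT (gr s)).2]
      have h4 : p * -(2 * ((n : ℝ) + 1)) ≤ p * (TT (gr (insert s(u, v) s)) - TT (gr s)) :=
        mul_le_mul_of_nonneg_left h3 hp
      nlinarith
  calc -((n : ℝ) ^ 2 * (2 * (n + 1))) = ∑ _u : Fin n, ∑ _v : Fin n, -(2 * ((n : ℝ) + 1)) := by
        simp
        ring
    _ ≤ total p s := Finset.sum_le_sum (fun u _ => Finset.sum_le_sum (fun v _ => h1 u v))

theorem exp_neg_le_inv {l : ℝ} (hl : 0 ≤ l) : Real.exp (-l) ≤ 1 / (l + 1) := by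
  rw [Real.exp_neg, ← one_div]
  exact one_div_le_one_div_of_le (by linarith) (Real.add_one_le_exp l)

open scoped Classical in
/-- Atypical graphs are unlikely. -/
theorem typ_fail (hp : 0 < p) (hp1 : p < 1) {κ : ℝ} (hκ : 0 < κ) :
    ∃ δ : ℝ, 0 < δ ∧ ∀ n : ℕ, 4 ≤ n →
      ex p (fun s : Finset (Sym2 (Fin n)) => if Typ p 26 κ δ (gr s) then 0 else 1) ≤
        n * Real.exp (-(n * p ^ 2 / 64)) + 2 * Real.exp (-(3 * n)) +
          2 * Real.exp (-(κ ^ 2 * n / 64)) := by
  set l : ℝ := 1 + 512 / κ ^ 2 with hl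
  have hl1 : 1 ≤ l := by
    have : 0 ≤ 512 / κ ^ 2 := by positivity
    linarith
  have hl0 : 0 < l := by linarith
  set δ : ℝ := κ ^ 2 / (2048 * l) with hδ
  have hδ0 : 0 < δ := by positivity
  have hel := exp_neg_le_inv hl0.le
  have hel2 : Real.exp (-l) ≤ 1 / 2 :=
    hel.trans (one_div_le_one_div_of_le (by norm_num) (by linarith))
  have hel3 : Real.exp (-l) ≤ κ ^ 2 / 512 := by
    refine hel.trans ?_
    rw [div_le_div_iff₀ (by linarith) (by norm_num)]
    have : κ ^ 2 * l = κ ^ 2 + 512 := by rw [hl]; field_simp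
    nlinarith [sq_nonneg κ]
  refine ⟨δ, hδ0, fun n hn => ?_⟩
  have hn4 : (4 : ℝ) ≤ n := by exact_mod_cast hn
  have hn0 : (0 : ℝ) < n := by linarith
  have hsq : Real.sqrt n ^ 2 = n := Real.sq_sqrt hn0.le
  have hs0 : 0 < Real.sqrt n := Real.sqrt_pos.mpr hn0
  -- the three events
  have hnet1 := net_fail (n := n) hp.le hp1.le (B := 16 * n) (t := 13 * Real.sqrt n) (l := 1)
    (by positivity) (by positivity) (by norm_num)
    ((exp_neg_le_inv (by norm_num)).trans (by norm_num))
  have hnet2 := net_fail (n := n) hp.le hp1.le (B := 16 * (δ * n)) (t := κ * Real.sqrt n / 2)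
    (l := l) (by positivity) (by positivity) hl0.le hel2
  have hdeg := fun i : Fin n => deg_fail (n := n) hp hp1.le hn i
  have h1 : ex p (fun s : Finset (Sym2 (Fin n)) => if Typ p 26 κ δ (gr s) then 0 else 1) ≤
      ex p (fun s => ((∑ i : Fin n, (if n * p / 2 ≤ dg (gr s) i then 0 else 1)) +
        (if (∀ z : Fin n → ℤ, ∑ i, (z i : ℝ) ^ 2 ≤ 16 * n →
          |MM p (gr s) (fun i => (z i : ℝ))| ≤ 13 * Real.sqrt n * (16 * n)) then 0 else 1)) +
        (if (∀ z : Fin n → ℤ, ∑ i, (z i : ℝ) ^ 2 ≤ 16 * (δ * n) →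
          |MM p (gr s) (fun i => (z i : ℝ))| ≤ κ * Real.sqrt n / 2 * (16 * (δ * n)))
          then 0 else 1)) := by
    refine ex_mono hp.le hp1.le (fun s _ => ?_)
    have hA : (0 : ℝ) ≤ ∑ i : Fin n, (if n * p / 2 ≤ dg (gr s) i then 0 else 1) :=
      Finset.sum_nonneg (fun i _ => by split_ifs <;> norm_num)
    by_cases hT : Typ p 26 κ δ (gr s)
    · rw [if_pos hT]
      have hB : (0 : ℝ) ≤ (if (∀ z : Fin n → ℤ, ∑ i, (z i : ℝ) ^ 2 ≤ 16 * n →
          |MM p (gr s) (fun i => (z i : ℝ))| ≤ 13 * Real.sqrt n * (16 * n)) then 0 else 1) := by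
        split_ifs <;> norm_num
      have hC : (0 : ℝ) ≤ (if (∀ z : Fin n → ℤ, ∑ i, (z i : ℝ) ^ 2 ≤ 16 * (δ * n) →
          |MM p (gr s) (fun i => (z i : ℝ))| ≤ κ * Real.sqrt n / 2 * (16 * (δ * n)))
          then 0 else 1) := by
        split_ifs <;> norm_num
      linarith
    · rw [if_neg hT]
      by_cases hd : ∀ i, n * p / 2 ≤ dg (gr s) i
      · by_cases hB : ∀ z : Fin n → ℤ, ∑ i, (z i : ℝ) ^ 2 ≤ 16 * n →
          |MM p (gr s) (fun i => (z i : ℝ))| ≤ 13 * Real.sqrt n * (16 * n)
        · by_cases hC : ∀ z : Fin n → ℤ, ∑ i, (z i : ℝ) ^ 2 ≤ 16 * (δ * n) →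
            |MM p (gr s) (fun i => (z i : ℝ))| ≤ κ * Real.sqrt n / 2 * (16 * (δ * n))
          · exfalso
            apply hT
            refine ⟨hd, fun x => ?_, fun x hx => ?_⟩
            · have := rounding hn0 (by positivity) hB x (by
                have : (Finset.univ.filter (fun i => x i ≠ 0)).card ≤ n := by
                  simpa using Finset.card_filter_le (Finset.univ : Finset (Fin n))
                    (fun i => x i ≠ 0)
                exact_mod_cast this)
              refine this.trans (le_of_eq ?_)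
              ring
            · have := rounding (by positivity : (0 : ℝ) < δ * n) (by positivity) hC x hx
              refine this.trans (le_of_eq ?_)
              ring
          · rw [if_pos hB, if_neg hC]
            linarith
        · rw [if_neg hB]
          have hC : (0 : ℝ) ≤ (if (∀ z : Fin n → ℤ, ∑ i, (z i : ℝ) ^ 2 ≤ 16 * (δ * n) →
            |MM p (gr s) (fun i => (z i : ℝ))| ≤ κ * Real.sqrt n / 2 * (16 * (δ * n)))
            then 0 else 1) := by
            split_ifs <;> norm_num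
          linarith
      · push Not at hd
        obtain ⟨i, hi⟩ := hd
        have h2 : (1 : ℝ) ≤ ∑ i : Fin n, (if n * p / 2 ≤ dg (gr s) i then 0 else 1) := by
          have h3 := Finset.single_le_sum
            (f := fun i : Fin n => (if n * p / 2 ≤ dg (gr s) i then (0 : ℝ) else 1))
            (fun i _ => by split_ifs <;> norm_num) (Finset.mem_univ i)
          have h4 : (if n * p / 2 ≤ dg (gr s) i then (0 : ℝ) else 1) = 1 := if_neg (not_le.mpr hi)
          rw [h4] at h3
          exact h3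
        have hB : (0 : ℝ) ≤ (if (∀ z : Fin n → ℤ, ∑ i, (z i : ℝ) ^ 2 ≤ 16 * n →
            |MM p (gr s) (fun i => (z i : ℝ))| ≤ 13 * Real.sqrt n * (16 * n)) then 0 else 1) := by
          split_ifs <;> norm_num
        have hC : (0 : ℝ) ≤ (if (∀ z : Fin n → ℤ, ∑ i, (z i : ℝ) ^ 2 ≤ 16 * (δ * n) →
            |MM p (gr s) (fun i => (z i : ℝ))| ≤ κ * Real.sqrt n / 2 * (16 * (δ * n)))
            then 0 else 1) := by
          split_ifs <;> norm_num
        linarith
  refine h1.trans ?_
  rw [ex_add, ex_add, ex_sum]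
  refine add_le_add (add_le_add ?_ ?_) ?_
  · calc ∑ i : Fin n, ex p (fun s => if n * p / 2 ≤ dg (gr s) i then 0 else 1)
        ≤ ∑ _i : Fin n, Real.exp (-(n * p ^ 2 / 64)) := Finset.sum_le_sum (fun i _ => hdeg i)
      _ = n * Real.exp (-(n * p ^ 2 / 64)) := by simp
  · refine hnet1.trans ?_
    have h2 : Real.exp (1 * (16 * n) + 4 * Real.exp (-1) * n) *
        (2 * Real.exp (-((13 * Real.sqrt n) ^ 2 / 8))) =
        2 * Real.exp (1 * (16 * n) + 4 * Real.exp (-1) * n + -((13 * Real.sqrt n) ^ 2 / 8)) := by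
      rw [Real.exp_add (1 * (16 * n) + 4 * Real.exp (-1) * n)]; ring
    rw [h2]
    apply mul_le_mul_of_nonneg_left _ (by norm_num)
    apply Real.exp_le_exp.mpr
    rw [mul_pow, hsq]
    have h3 : Real.exp (-1) ≤ 1 / 2 := (exp_neg_le_inv (by norm_num)).trans (by norm_num)
    nlinarith
  · refine hnet2.trans ?_
    have h2 : Real.exp (l * (16 * (δ * n)) + 4 * Real.exp (-l) * n) *
        (2 * Real.exp (-((κ * Real.sqrt n / 2) ^ 2 / 8))) =
        2 * Real.exp (l * (16 * (δ * n)) + 4 * Real.exp (-l) * n +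
          -((κ * Real.sqrt n / 2) ^ 2 / 8)) := by
      rw [Real.exp_add (l * (16 * (δ * n)) + 4 * Real.exp (-l) * n)]; ring
    rw [h2]
    apply mul_le_mul_of_nonneg_left _ (by norm_num)
    apply Real.exp_le_exp.mpr
    have h3 : l * (16 * (δ * n)) = κ ^ 2 / 128 * n := by
      rw [hδ]; field_simp; ring
    have h4 : (κ * Real.sqrt n / 2) ^ 2 / 8 = κ ^ 2 / 32 * n := by
      rw [div_pow, mul_pow, hsq]; ring
    rw [h3, h4]
    have h5 : 4 * Real.exp (-l) * n ≤ κ ^ 2 / 128 * n :=
      mul_le_mul_of_nonneg_right (by linarith) hn0.le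
    nlinarith

end Pool.Agent.MP_332c83_pr
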