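import Pool.Agent.MP_332c83_pr.Spec

set_option autoImplicit false

/-!
# The normalized Laplacian and its second eigenvalue through quadratic forms
-/

open Matrix

namespace Pool.Agent.MP_332c83_pr

variable {n : ℕ}

open scoped Classical in
/-- Adjacency indicator. -/
noncomputable def adj (H : SimpleGraph (Fin n)) (i j : Fin n) : ℝ := if H.Adj i j then 1 else 0

/-- Degree as a real number. -/
noncomputable def dg (H : SimpleGraph (Fin n)) (i : Fin n) : ℝ := ∑ k, adj H i k

/-- The normalized Laplacian. -/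
noncomputable def lap (H : SimpleGraph (Fin n)) : Matrix (Fin n) (Fin n) ℝ :=
  Matrix.of fun i j => (if i = j then (1 : ℝ) else 0) - adj H i j / Real.sqrt (dg H i * dg H j)

/-- `1` minus the spectral gap. -/
noncomputable def TT (H : SimpleGraph (Fin n)) : ℝ := 1 - secondEig (lap H)

/-- Sum over ordered pairs of adjacent vertices. -/
noncomputable def SS (H : SimpleGraph (Fin n)) (f : Fin n → Fin n → ℝ) : ℝ :=
  ∑ i, ∑ j, adj H i j * f i j

/-- The quadratic form of the adjacency matrix. -/
noncomputable def qA (H : SimpleGraph (Fin n)) (y : Fin n → ℝ) : ℝ := SS H (fun i j => y i * y j)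

/-- The quadratic form of the degree matrix. -/
noncomputable def qD (H : SimpleGraph (Fin n)) (y : Fin n → ℝ) : ℝ := SS H (fun i _ => y i ^ 2)

/-- The degree-weighted sum. -/
noncomputable def lin (H : SimpleGraph (Fin n)) (y : Fin n → ℝ) : ℝ := SS H (fun i _ => y i)

/-- Twice the number of edges. -/
noncomputable def m2 (H : SimpleGraph (Fin n)) : ℝ := SS H (fun _ _ => 1)

variable (H : SimpleGraph (Fin n))

theorem adj_comm (i j : Fin n) : adj H i j = adj H j i := by
  by_cases h : H.Adj i j
  · simp [adj, h, h.symm]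
  · have h' : ¬ H.Adj j i := fun h2 => h h2.symm
    simp [adj, h, h']

theorem adj_self (i : Fin n) : adj H i i = 0 := by simp [adj]

theorem adj_nonneg (i j : Fin n) : 0 ≤ adj H i j := by
  unfold adj; split_ifs <;> norm_num

theorem adj_le_one (i j : Fin n) : adj H i j ≤ 1 := by
  unfold adj; split_ifs <;> norm_num

theorem adj_zero_or_one (i j : Fin n) : adj H i j = 0 ∨ adj H i j = 1 := by
  unfold adj; split_ifs <;> simp

theorem dg_nonneg (i : Fin n) : 0 ≤ dg H i := Finset.sum_nonneg (fun k _ => adj_nonneg H i k)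

theorem one_le_dg_of_adj {i j : Fin n} (h : adj H i j = 1) : 1 ≤ dg H i := by
  rw [← h]
  exact Finset.single_le_sum (f := fun k => adj H i k) (fun k _ => adj_nonneg H i k)
    (Finset.mem_univ j)

theorem dg_le (i : Fin n) : dg H i ≤ n := by
  calc dg H i ≤ ∑ _k : Fin n, (1 : ℝ) := Finset.sum_le_sum (fun k _ => adj_le_one H i k)
    _ = n := by simp

theorem lap_isHermitian : (lap H).IsHermitian := by
  rw [IsHermitian, conjTranspose_eq_transpose_of_trivial]
  ext i j
  simp only [lap, transpose_apply, of_apply]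
  rw [adj_comm H j i, mul_comm (dg H j)]
  congr 1
  simp only [eq_comm]

theorem abs_lap_le (i j : Fin n) : |lap H i j| ≤ 1 := by
  simp only [lap, of_apply]
  have h0 : 0 ≤ adj H i j / Real.sqrt (dg H i * dg H j) :=
    div_nonneg (adj_nonneg H i j) (Real.sqrt_nonneg _)
  have h1 : adj H i j / Real.sqrt (dg H i * dg H j) ≤ 1 := by
    rcases adj_zero_or_one H i j with h | h
    · rw [h]; simp
    · have h2 := one_le_dg_of_adj H h
      have h3 : 1 ≤ dg H j := one_le_dg_of_adj H (by rw [adj_comm]; exact h)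
      rw [h]
      have h4 : 1 ≤ Real.sqrt (dg H i * dg H j) := by
        rw [Real.one_le_sqrt]
        nlinarith
      exact (div_le_one (by linarith)).mpr h4
  by_cases h : i = j
  · subst h
    rw [adj_self]; simp
  · rw [if_neg h, abs_le]
    constructor <;> linarith

theorem abs_TT_le (hn : 2 ≤ n) : |TT H| ≤ n + 1 := by
  have h := abs_secondEig_le hn (lap_isHermitian H) (abs_lap_le H)
  unfold TT
  rw [abs_le] at h ⊢
  constructor <;> linarith [h.1, h.2]

theorem qD_eq (y : Fin n → ℝ) : qD H y = ∑ i, dg H i * y i ^ 2 := by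
  unfold qD SS dg
  exact Finset.sum_congr rfl (fun i _ => by rw [Finset.sum_mul])

theorem lin_eq (y : Fin n → ℝ) : lin H y = ∑ i, dg H i * y i := by
  unfold lin SS dg
  exact Finset.sum_congr rfl (fun i _ => by rw [Finset.sum_mul])

theorem m2_eq : m2 H = ∑ i, dg H i := by
  unfold m2 SS dg
  simp

theorem SS_comm (f : Fin n → Fin n → ℝ) : SS H (fun i j => f j i) = SS H f := by
  unfold SS
  rw [Finset.sum_comm]
  exact Finset.sum_congr rfl (fun i _ => Finset.sum_congr rfl (fun j _ => by rw [adj_comm]))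

theorem qA_le_qD (y : Fin n → ℝ) : qA H y ≤ qD H y := by
  have h1 : 0 ≤ SS H (fun i j => (y i - y j) ^ 2) :=
    Finset.sum_nonneg (fun i _ => Finset.sum_nonneg (fun j _ =>
      mul_nonneg (adj_nonneg H i j) (sq_nonneg _)))
  have h2 : SS H (fun i j => (y i - y j) ^ 2) = qD H y + qD H y - 2 * qA H y := by
    have h3 : qD H y = SS H (fun _ j => y j ^ 2) := by
      unfold qD
      rw [← SS_comm]
    conv_rhs => rw [h3]; lhs; lhs; rw [← h3]
    unfold qD qA SS
    rw [Finset.mul_sum, ← Finset.sum_add_distrib, ← Finset.sum_sub_distrib]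
    refine Finset.sum_congr rfl (fun i _ => ?_)
    rw [Finset.mul_sum, ← Finset.sum_add_distrib, ← Finset.sum_sub_distrib]
    exact Finset.sum_congr rfl (fun j _ => by ring)
  linarith

variable {H}

section positive

variable (hpos : ∀ i, 0 < dg H i)
include hpos

theorem lap_form (y : Fin n → ℝ) :
    (fun i => Real.sqrt (dg H i) * y i) ⬝ᵥ (lap H *ᵥ fun i => Real.sqrt (dg H i) * y i) =
      qD H y - qA H y := by
  rw [qD_eq]
  unfold qA SS
  simp only [dotProduct, mulVec, lap, of_apply, Finset.mul_sum]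
  rw [← Finset.sum_sub_distrib]
  refine Finset.sum_congr rfl (fun i _ => ?_)
  have h1 : ∀ j, Real.sqrt (dg H i) * y i * (((if i = j then (1 : ℝ) else 0) -
      adj H i j / Real.sqrt (dg H i * dg H j)) * (Real.sqrt (dg H j) * y j)) =
      (if i = j then dg H i * y i ^ 2 else 0) - adj H i j * (y i * y j) := by
    intro j
    have hi := Real.sqrt_pos.mpr (hpos i)
    have hj := Real.sqrt_pos.mpr (hpos j)
    have hsi := Real.mul_self_sqrt (hpos i).le
    rw [Real.sqrt_mul (hpos i).le]
    by_cases h : i = j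
    · subst h
      simp only [if_true, adj_self]
      rw [← hsi]
      simp only [Real.sqrt_mul_self hi.le]
      field_simp
      try ring
    · simp only [if_neg h]
      field_simp
      ring
  rw [Finset.sum_congr rfl (fun j _ => h1 j), Finset.sum_sub_distrib]
  simp

theorem dot_sqrt (y z : Fin n → ℝ) :
    (fun i => Real.sqrt (dg H i) * y i) ⬝ᵥ (fun i => Real.sqrt (dg H i) * z i) =
      ∑ i, dg H i * (y i * z i) := by
  simp only [dotProduct]
  refine Finset.sum_congr rfl (fun i _ => ?_)
  have hsi := Real.mul_self_sqrt (hpos i).le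
  calc Real.sqrt (dg H i) * y i * (Real.sqrt (dg H i) * z i)
      = (Real.sqrt (dg H i) * Real.sqrt (dg H i)) * (y i * z i) := by ring
    _ = _ := by rw [hsi]

theorem lap_mulVec_sqrt : lap H *ᵥ (fun i => Real.sqrt (dg H i)) = 0 := by
  ext i
  simp only [mulVec, dotProduct, lap, of_apply, Pi.zero_apply]
  have hi := Real.sqrt_pos.mpr (hpos i)
  have h1 : ∀ j, ((if i = j then (1 : ℝ) else 0) -
      adj H i j / Real.sqrt (dg H i * dg H j)) * Real.sqrt (dg H j) =
      (if i = j then Real.sqrt (dg H i) else 0) - adj H i j / Real.sqrt (dg H i) := by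
    intro j
    have hj := Real.sqrt_pos.mpr (hpos j)
    rw [Real.sqrt_mul (hpos i).le]
    by_cases h : i = j
    · subst h
      simp [adj_self]
    · simp only [if_neg h]
      field_simp
      ring
  rw [Finset.sum_congr rfl (fun j _ => h1 j), Finset.sum_sub_distrib, ← Finset.sum_div]
  simp only [Finset.sum_ite_eq, Finset.mem_univ, if_true]
  have : (∑ k, adj H i k) = Real.sqrt (dg H i) * Real.sqrt (dg H i) :=
    (Real.mul_self_sqrt (hpos i).le).symm
  rw [this]
  field_simp
  simp

theorem lap_psd (x : Fin n → ℝ) : 0 ≤ x ⬝ᵥ (lap H *ᵥ x) := by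
  have hx : x = fun i => Real.sqrt (dg H i) * (x i / Real.sqrt (dg H i)) := by
    ext i
    have hi := Real.sqrt_pos.mpr (hpos i)
    field_simp
  rw [hx, lap_form hpos]
  have := qA_le_qD H (fun i => x i / Real.sqrt (dg H i))
  linarith

/-- Upper variational bound. -/
theorem qA_le (hn : 2 ≤ n) {z : Fin n → ℝ} (hz : lin H z = 0) : qA H z ≤ TT H * qD H z := by
  have hv0 : (fun i => Real.sqrt (dg H i)) ≠ (0 : Fin n → ℝ) := by
    intro h
    have := congrFun h ⟨0, by omega⟩
    have h2 := Real.sqrt_pos.mpr (hpos ⟨0, by omega⟩)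
    simp only [Pi.zero_apply] at this
    linarith
  have horth : (fun i => Real.sqrt (dg H i)) ⬝ᵥ (fun i => Real.sqrt (dg H i) * z i) = 0 := by
    have := dot_sqrt hpos (fun _ => 1) z
    simp only [mul_one, one_mul] at this
    rw [this, ← lin_eq, hz]
  have h := secondEig_le hn (lap_isHermitian H) (lap_psd hpos) hv0 (lap_mulVec_sqrt hpos) horth
  rw [lap_form hpos, dot_sqrt hpos] at h
  have h2 : ∑ i, dg H i * (z i * z i) = qD H z := by
    rw [qD_eq]
    exact Finset.sum_congr rfl (fun i _ => by ring)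
  rw [h2] at h
  unfold TT
  linarith

theorem qD_nonneg (y : Fin n → ℝ) : 0 ≤ qD H y := by
  rw [qD_eq]
  exact Finset.sum_nonneg (fun i _ => mul_nonneg (hpos i).le (sq_nonneg _))

/-- The extremal vector. -/
theorem exists_extremal (hn : 2 ≤ n) :
    ∃ y : Fin n → ℝ, lin H y = 0 ∧ qD H y = 1 ∧ qA H y = TT H := by
  obtain ⟨x, hx0, hx1, hx2⟩ := exists_vec hn (lap_isHermitian H) (fun i => Real.sqrt (dg H i))
  set y : Fin n → ℝ := fun i => x i / Real.sqrt (dg H i) with hy
  have hx : x = fun i => Real.sqrt (dg H i) * y i := by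
    ext i
    have hi := Real.sqrt_pos.mpr (hpos i)
    simp only [hy]
    field_simp
  have hlin : lin H y = 0 := by
    rw [lin_eq]
    have := dot_sqrt hpos (fun _ => 1) y
    simp only [mul_one, one_mul] at this
    rw [← this, ← hx]
    exact hx1
  have hD : x ⬝ᵥ x = qD H y := by
    rw [hx, dot_sqrt hpos, qD_eq]
    exact Finset.sum_congr rfl (fun i _ => by ring)
  have hDpos : 0 < qD H y := by
    rw [← hD]
    have h7 : 0 ≤ x ⬝ᵥ x := Finset.sum_nonneg (fun k _ => mul_self_nonneg (x k))
    rcases h7.lt_or_eq with h | h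
    · exact h
    · exact absurd (dotProduct_self_eq_zero.mp h.symm) hx0
  have hform : x ⬝ᵥ (lap H *ᵥ x) = qD H y - qA H y := by
    rw [hx]; exact lap_form hpos y
  rw [hform, hD] at hx2
  have hup := qA_le hpos hn hlin
  have heq : qA H y = TT H * qD H y := by
    unfold TT at hup ⊢
    linarith
  set r := Real.sqrt (qD H y) with hr
  have hrpos : 0 < r := Real.sqrt_pos.mpr hDpos
  have hr2 : r * r = qD H y := Real.mul_self_sqrt hDpos.le
  refine ⟨fun i => y i / r, ?_, ?_, ?_⟩
  · rw [lin_eq] at hlin ⊢
    rw [Finset.sum_congr rfl (fun i _ => show dg H i * (y i / r) = dg H i * y i / r by ring),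
      ← Finset.sum_div, hlin, zero_div]
  · have : qD H (fun i => y i / r) = qD H y / (r * r) := by
      rw [qD_eq, qD_eq, Finset.sum_div]
      exact Finset.sum_congr rfl (fun i _ => by field_simp)
    rw [this, hr2, div_self hDpos.ne']
  · have : qA H (fun i => y i / r) = qA H y / (r * r) := by
      unfold qA SS
      rw [Finset.sum_div]
      refine Finset.sum_congr rfl (fun i _ => ?_)
      rw [Finset.sum_div]
      exact Finset.sum_congr rfl (fun j _ => by field_simp)
    rw [this, hr2, heq, mul_div_assoc, div_self hDpos.ne', mul_one]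

theorem TT_le_one (hn : 2 ≤ n) : TT H ≤ 1 := by
  obtain ⟨y, -, h2, h3⟩ := exists_extremal hpos hn
  rw [← h3, ← h2]
  exact qA_le_qD H y

theorem m2_pos (hn : 2 ≤ n) : 0 < m2 H := by
  rw [m2_eq]
  exact Finset.sum_pos (fun i _ => hpos i) ⟨⟨0, by omega⟩, Finset.mem_univ _⟩

/-- Test vector bound: arbitrary `y` corrected by a constant. -/
theorem test_bound (hn : 2 ≤ n) (y : Fin n → ℝ) :
    qA H y - lin H y ^ 2 / m2 H ≤ TT H * (qD H y - lin H y ^ 2 / m2 H) := by
  have hm := m2_pos hpos hn
  set s := lin H y / m2 H with hs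
  have hsm : s * m2 H = lin H y := by rw [hs]; field_simp
  have e1 : lin H (fun i => y i - s) = 0 := by
    have : lin H (fun i => y i - s) = lin H y - s * m2 H := by
      rw [lin_eq, lin_eq, m2_eq, Finset.mul_sum, ← Finset.sum_sub_distrib]
      exact Finset.sum_congr rfl (fun i _ => by ring)
    rw [this, hsm, sub_self]
  have h := qA_le hpos hn e1
  have e2 : qD H (fun i => y i - s) = qD H y - lin H y ^ 2 / m2 H := by
    have : qD H (fun i => y i - s) = qD H y - 2 * s * lin H y + s ^ 2 * m2 H := by
      rw [qD_eq, qD_eq, lin_eq, m2_eq, Finset.mul_sum, Finset.mul_sum,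
        ← Finset.sum_sub_distrib, ← Finset.sum_add_distrib]
      exact Finset.sum_congr rfl (fun i _ => by ring)
    rw [this, hs]
    field_simp
    ring
  have e3 : qA H (fun i => y i - s) = qA H y - lin H y ^ 2 / m2 H := by
    have h0 : lin H y = SS H (fun _ j => y j) := by
      unfold lin
      rw [← SS_comm]
    have : qA H (fun i => y i - s) = qA H y - s * lin H y - s * lin H y + s ^ 2 * m2 H := by
      conv_rhs => rw [h0]; lhs; lhs; rw [← h0]
      unfold qA lin m2 SS
      rw [Finset.mul_sum, Finset.mul_sum, Finset.mul_sum, ← Finset.sum_sub_distrib,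
        ← Finset.sum_sub_distrib, ← Finset.sum_add_distrib]
      refine Finset.sum_congr rfl (fun i _ => ?_)
      rw [Finset.mul_sum, Finset.mul_sum, Finset.mul_sum, ← Finset.sum_sub_distrib,
        ← Finset.sum_sub_distrib, ← Finset.sum_add_distrib]
      exact Finset.sum_congr rfl (fun j _ => by ring)
    rw [this, hs]
    field_simp
    ring
  rw [e2, e3] at h
  exact h

end positive

end Pool.Agent.MP_332c83_pr
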