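import Pool.Agent.MP_332c83_pr.Typ

set_option autoImplicit false

/-!
# The second eigenvector is spread out
-/

open Matrix

namespace Pool.Agent.MP_332c83_pr

variable {n : ℕ} {p K κ δ : ℝ} {H : SimpleGraph (Fin n)}

theorem Typ.card_large (h : Typ p K κ δ H) (hp : 0 < p) (hn : 2 ≤ n) (hK : 1 ≤ K)
    (hκ0 : 0 ≤ κ)
    {c1 l1 : ℝ} (hc1 : 0 < c1) (hl1 : 0 < l1) (hT : c1 / Real.sqrt n ≤ TT H)
    (hκ : 2 * κ / p ≤ c1 / 4) (hl : 2 * K * Real.sqrt (2 / p) * l1 + K * l1 ^ 2 ≤ c1 / 4)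
    (hr : 32 * K ^ 2 / p ^ 2 ≤ c1 * Real.sqrt n)
    {y : Fin n → ℝ} (hlin : lin H y = 0) (hD : qD H y = 1) (hA : qA H y = TT H) :
    δ * n < ((Finset.univ.filter (fun i => l1 / n ≤ |y i|)).card : ℝ) := by
  classical
  by_contra hcon
  push Not at hcon
  have hn0 : (0 : ℝ) < n := by positivity
  set r := Real.sqrt n with hrdef
  have hr0 : 0 < r := Real.sqrt_pos.mpr hn0
  have hr2 : r ^ 2 = n := Real.sq_sqrt hn0.le
  set I := Finset.univ.filter (fun i => l1 / n ≤ |y i|) with hI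
  set a : Fin n → ℝ := fun i => if i ∈ I then y i else 0 with ha
  set z : Fin n → ℝ := fun i => if i ∈ I then 0 else y i with hz
  have hy : y = fun i => 1 * a i + 1 * z i := by
    funext i; simp only [ha, hz]; split_ifs <;> ring
  have hY := h.sumsq_le hp hn hD
  have hS := h.sum_sq_le hp hn hlin
  have haY : ∑ i, a i ^ 2 ≤ ∑ i, y i ^ 2 := by
    refine Finset.sum_le_sum (fun i _ => ?_)
    simp only [ha]; split_ifs
    · exact le_rfl
    · simp [sq_nonneg]
  have hzZ : ∑ i, z i ^ 2 ≤ l1 ^ 2 / n := by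
    have h1 : ∀ i, z i ^ 2 ≤ (l1 / n) ^ 2 := by
      intro i
      simp only [hz]
      split_ifs with hi
      · rw [zero_pow two_ne_zero]; positivity
      · simp only [hI, Finset.mem_filter, Finset.mem_univ, true_and, not_le] at hi
        exact sq_le_sq' (by linarith [neg_abs_le (y i)]) (by linarith [le_abs_self (y i)])
    calc ∑ i, z i ^ 2 ≤ ∑ _i : Fin n, (l1 / n) ^ 2 := Finset.sum_le_sum (fun i _ => h1 i)
      _ = l1 ^ 2 / n := by
        simp only [Finset.sum_const, Finset.card_univ, Fintype.card_fin, nsmul_eq_mul]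
        field_simp
  have h1 : MM p H a ≤ κ * r * (2 / (n * p)) := by
    have h2 := h.sparse a (by
      refine le_trans ?_ hcon
      have : (Finset.univ.filter (fun i => a i ≠ 0)) ⊆ I := by
        intro i hi
        simp only [Finset.mem_filter, Finset.mem_univ, true_and, ha] at hi
        by_contra hi2
        exact hi (if_neg hi2)
      exact_mod_cast Finset.card_le_card this)
    have h3 := (abs_le.mp h2).2
    have h4 : κ * r * ∑ i, a i ^ 2 ≤ κ * r * (2 / (n * p)) :=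
      mul_le_mul_of_nonneg_left (haY.trans hY) (by positivity)
    linarith
  have h2 : MM p H z ≤ K * r * (l1 ^ 2 / n) := by
    have h3 := (abs_le.mp (h.norm z)).2
    have h4 : K * r * ∑ i, z i ^ 2 ≤ K * r * (l1 ^ 2 / n) :=
      mul_le_mul_of_nonneg_left hzZ (by positivity)
    linarith
  have h3 : MB p H a z ≤ K * r * (Real.sqrt (2 / p) * l1 / n) := by
    have h4 := (abs_le.mp (h.MB_le a z)).2
    refine h4.trans ?_
    apply mul_le_mul_of_nonneg_left _ (by positivity)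
    have h5 : Real.sqrt (∑ i, a i ^ 2) ≤ Real.sqrt (2 / p) / r := by
      rw [hrdef, ← Real.sqrt_div (by positivity)]
      apply Real.sqrt_le_sqrt
      refine (haY.trans hY).trans (le_of_eq ?_)
      field_simp
    have h6 : Real.sqrt (∑ i, z i ^ 2) ≤ l1 / r := by
      rw [hrdef]
      rw [show l1 / Real.sqrt n = Real.sqrt (l1 ^ 2 / n) by
        rw [Real.sqrt_div (sq_nonneg _), Real.sqrt_sq hl1.le]]
      exact Real.sqrt_le_sqrt hzZ
    calc Real.sqrt (∑ i, a i ^ 2) * Real.sqrt (∑ i, z i ^ 2)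
        ≤ (Real.sqrt (2 / p) / r) * (l1 / r) :=
          mul_le_mul h5 h6 (Real.sqrt_nonneg _) (by positivity)
      _ = Real.sqrt (2 / p) * l1 / n := by rw [← hr2]; field_simp
  have h4 : MM p H y = MM p H a + 2 * MB p H a z + MM p H z := by
    conv_lhs => rw [hy, MM_comb]
    ring
  have h5 : TT H = MM p H y + p * ((∑ i, y i) ^ 2 - ∑ i, y i ^ 2) := by
    rw [← hA]; unfold MM; ring
  have hY0 : 0 ≤ ∑ i, y i ^ 2 := Finset.sum_nonneg (fun i _ => sq_nonneg _)
  have h6 : p * ((∑ i, y i) ^ 2 - ∑ i, y i ^ 2) ≤ 8 * K ^ 2 / p ^ 2 / n := by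
    have h7 : p * (∑ i, y i) ^ 2 ≤ p * (4 * K ^ 2 / p ^ 2 * (2 / (n * p))) := by
      apply mul_le_mul_of_nonneg_left _ hp.le
      refine hS.trans ?_
      exact mul_le_mul_of_nonneg_left hY (by positivity)
    have h8 : p * (4 * K ^ 2 / p ^ 2 * (2 / (n * p))) = 8 * K ^ 2 / p ^ 2 / n := by
      field_simp; ring
    have h9 := mul_nonneg hp.le hY0
    linarith
  have h7 : TT H ≤ κ * r * (2 / (n * p)) + 2 * (K * r * (Real.sqrt (2 / p) * l1 / n)) +
      K * r * (l1 ^ 2 / n) + 8 * K ^ 2 / p ^ 2 / n := by linarith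
  have h8 : κ * r * (2 / (n * p)) + 2 * (K * r * (Real.sqrt (2 / p) * l1 / n)) +
      K * r * (l1 ^ 2 / n) + 8 * K ^ 2 / p ^ 2 / n =
      (2 * κ / p + (2 * K * Real.sqrt (2 / p) * l1 + K * l1 ^ 2) + 8 * K ^ 2 / p ^ 2 / r) / r := by
    rw [← hr2]
    field_simp
    ring
  have h9 : 8 * K ^ 2 / p ^ 2 / r ≤ c1 / 4 := by
    rw [div_le_iff₀ hr0]
    have : 8 * K ^ 2 / p ^ 2 = (32 * K ^ 2 / p ^ 2) / 4 := by ring
    rw [this]
    linarith
  have h10 : TT H ≤ (3 / 4 * c1) / r := by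
    rw [h8] at h7
    refine h7.trans ?_
    gcongr
    linarith
  have h11 : (3 / 4 * c1) / r < c1 / r := by
    gcongr
    linarith
  linarith

theorem Typ.exists_set (h : Typ p K κ δ H) (hp : 0 < p) (hn : 2 ≤ n) (hδ : 0 < δ)
    {l1 K1 : ℝ} (hl1 : 0 < l1) (hK1 : 0 < K1) (hK1' : 8 / (p * δ) ≤ K1 ^ 2)
    {y : Fin n → ℝ} (hD : qD H y = 1)
    (hcard : δ * n < ((Finset.univ.filter (fun i => l1 / n ≤ |y i|)).card : ℝ)) :
    ∃ S : Finset (Fin n), δ * n / 4 ≤ (S.card : ℝ) ∧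
      (∀ u ∈ S, ∀ v ∈ S, l1 ^ 2 / n ^ 2 ≤ y u * y v) ∧
      (∀ u ∈ S, y u ^ 2 ≤ K1 ^ 2 / n ^ 2) := by
  classical
  have hn0 : (0 : ℝ) < n := by positivity
  have hY := h.sumsq_le hp hn hD
  set I := Finset.univ.filter (fun i => l1 / n ≤ |y i|) with hI
  set P := Finset.univ.filter (fun i => l1 / n ≤ y i) with hP
  set N := Finset.univ.filter (fun i => y i ≤ -(l1 / n)) with hN
  set B := Finset.univ.filter (fun i => K1 ^ 2 / n ^ 2 < y i ^ 2) with hB
  have hIPN : I ⊆ P ∪ N := by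
    intro i hi
    simp only [hI, hP, hN, Finset.mem_filter, Finset.mem_univ, true_and, Finset.mem_union] at hi ⊢
    rcases le_abs.mp hi with h1 | h1
    · exact Or.inl h1
    · right; linarith
  have hBcard : (B.card : ℝ) ≤ δ * n / 4 := by
    have h1 : (B.card : ℝ) * (K1 ^ 2 / n ^ 2) ≤ 2 / (n * p) := by
      calc (B.card : ℝ) * (K1 ^ 2 / n ^ 2) = ∑ _i ∈ B, (K1 ^ 2 / n ^ 2) := by
            rw [Finset.sum_const, nsmul_eq_mul]
        _ ≤ ∑ i ∈ B, y i ^ 2 := by
            refine Finset.sum_le_sum (fun i hi => ?_)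
            simp only [hB, Finset.mem_filter, Finset.mem_univ, true_and] at hi
            exact hi.le
        _ ≤ ∑ i, y i ^ 2 :=
            Finset.sum_le_sum_of_subset_of_nonneg (Finset.subset_univ _)
              (fun i _ _ => sq_nonneg _)
        _ ≤ _ := hY
    have h2 : (B.card : ℝ) * (8 / (p * δ) / n ^ 2) ≤ 2 / (n * p) := by
      refine le_trans ?_ h1
      gcongr
    have h3 : (B.card : ℝ) * (8 / (p * δ) / n ^ 2) = (B.card : ℝ) / (δ * n / 4) * (2 / (n * p)) := by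
      field_simp
      ring
    rw [h3] at h2
    have h4 : (B.card : ℝ) / (δ * n / 4) ≤ 1 := by
      by_contra hc
      push Not at hc
      have h5 : 0 < 2 / (n * p) := by positivity
      have := mul_lt_mul_of_pos_right hc h5
      linarith
    rwa [div_le_one (by positivity)] at h4
  have hsum : δ * n < P.card + N.card := by
    refine hcard.trans_le ?_
    have := (Finset.card_le_card hIPN).trans (Finset.card_union_le P N)
    exact_mod_cast this
  have hsd : ∀ Q : Finset (Fin n), δ * n / 2 ≤ (Q.card : ℝ) → δ * n / 4 ≤ ((Q \ B).card : ℝ) := by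
    intro Q hQ
    have h1 : (Q.card : ℝ) ≤ (Q \ B).card + B.card := by
      have := Finset.card_le_card_sdiff_add_card (s := Q) (t := B)
      exact_mod_cast this
    linarith
  have hBy : ∀ Q : Finset (Fin n), ∀ u ∈ Q \ B, y u ^ 2 ≤ K1 ^ 2 / n ^ 2 := by
    intro Q u hu
    rw [Finset.mem_sdiff] at hu
    by_contra hc
    push Not at hc
    exact hu.2 (by simp only [hB, Finset.mem_filter, Finset.mem_univ, true_and]; exact hc)
  have hl0 : 0 < l1 / n := by positivity
  by_cases hPc : δ * n / 2 ≤ (P.card : ℝ)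
  · refine ⟨P \ B, hsd P hPc, ?_, hBy P⟩
    intro u hu v hv
    rw [Finset.mem_sdiff] at hu hv
    have h1 := hu.1
    have h2 := hv.1
    simp only [hP, Finset.mem_filter, Finset.mem_univ, true_and] at h1 h2
    calc l1 ^ 2 / n ^ 2 = (l1 / n) * (l1 / n) := by ring
      _ ≤ y u * y v := mul_le_mul h1 h2 hl0.le (hl0.le.trans h1)
  · push Not at hPc
    refine ⟨N \ B, hsd N (by linarith), ?_, hBy N⟩
    intro u hu v hv
    rw [Finset.mem_sdiff] at hu hv
    have h1 := hu.1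
    have h2 := hv.1
    simp only [hN, Finset.mem_filter, Finset.mem_univ, true_and] at h1 h2
    calc l1 ^ 2 / n ^ 2 = (l1 / n) * (l1 / n) := by ring
      _ ≤ (-y u) * (-y v) := mul_le_mul (by linarith) (by linarith) hl0.le (by linarith)
      _ = y u * y v := by ring

/-- Many ordered adjacent pairs inside a large set. -/
theorem Typ.pairs_in_set (h : Typ p K κ δ H) (hp : 0 < p) (hp1 : p < 1) (hn : 2 ≤ n) (hK : 1 ≤ K)
    (hδ : 0 < δ)
    (hr : 8 * (K + 1) / (p * δ) ≤ Real.sqrt n) (S : Finset (Fin n))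
    (hS : δ * n / 4 ≤ (S.card : ℝ)) :
    p * δ ^ 2 * n ^ 2 / 32 ≤ ∑ u ∈ S, ∑ v ∈ S, adj H u v := by
  classical
  have hn0 : (0 : ℝ) < n := by positivity
  set r := Real.sqrt n with hrdef
  have hr0 : 0 < r := Real.sqrt_pos.mpr hn0
  have hr2 : r ^ 2 = n := Real.sq_sqrt hn0.le
  set x : Fin n → ℝ := fun i => if i ∈ S then 1 else 0 with hx
  have h1 := (abs_le.mp (h.norm x)).1
  have e1 : ∑ i, x i = S.card := by simp [hx]
  have e2 : ∑ i, x i ^ 2 = S.card := by
    have : ∀ i, x i ^ 2 = x i := by intro i; simp only [hx]; split_ifs <;> norm_num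
    rw [Finset.sum_congr rfl (fun i _ => this i), e1]
  have e3 : qA H x = ∑ u ∈ S, ∑ v ∈ S, adj H u v := by
    unfold qA SS
    rw [← Finset.sum_subset (Finset.subset_univ S)]
    · refine Finset.sum_congr rfl (fun u hu => ?_)
      rw [← Finset.sum_subset (Finset.subset_univ S)]
      · exact Finset.sum_congr rfl (fun v hv => by simp [hx, hu, hv])
      · intro v _ hv
        simp [hx, hv]
    · intro u _ hu
      refine Finset.sum_eq_zero (fun v _ => ?_)
      simp [hx, hu]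
  unfold MM at h1
  rw [e1, e2, e3] at h1
  set s : ℝ := (S.card : ℝ) with hs
  have hs0 : 0 < s := lt_of_lt_of_le (by positivity) hS
  have h2 : p * (s ^ 2 - s) - K * r * s ≤ ∑ u ∈ S, ∑ v ∈ S, adj H u v := by linarith
  have hr1 : 8 * (K + 1) ≤ p * δ * r := by
    rw [div_le_iff₀ (by positivity)] at hr
    linarith
  have hr1' : 1 ≤ r := by
    have h3 : (1 : ℝ) ≤ n := by exact_mod_cast (by omega : 1 ≤ n)
    rw [hrdef]; exact Real.one_le_sqrt.mpr h3
  have h3 : 1 + K * r ≤ p / 2 * s := by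
    have h4 : p / 2 * (δ * n / 4) ≤ p / 2 * s := by gcongr
    have h5 : p / 2 * (δ * n / 4) = (p * δ * r) * r / 8 := by rw [← hr2]; ring
    have h6 : 8 * (K + 1) * r ≤ (p * δ * r) * r := by gcongr
    nlinarith
  have h4 : p / 2 * s ^ 2 ≤ p * (s ^ 2 - s) - K * r * s := by
    have h5 : (1 + K * r) * s ≤ p / 2 * s * s := by gcongr
    nlinarith
  have h5 : p * δ ^ 2 * n ^ 2 / 32 ≤ p / 2 * s ^ 2 := by
    have h6 : p / 2 * (δ * n / 4) ^ 2 ≤ p / 2 * s ^ 2 := by gcongr
    nlinarith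
  linarith

end Pool.Agent.MP_332c83_pr
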