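import Pool.Agent.MP_332c83_pr.Fail

set_option autoImplicit false

/-!
# Few non-lowering edges is unlikely
-/

open Matrix

namespace Pool.Agent.MP_332c83_pr

variable {n : ℕ} {p : ℝ}

open scoped Classical in
theorem bad_step (hp : 0 < p) (hp1 : p < 1) {K κ δ p0 c1 l1 K1 : ℝ} (hK : 1 ≤ K) (hκ0 : 0 ≤ κ)
    (hδ : 0 < δ) (hp0 : 0 < p0) (hp0p : p0 ≤ p) (hp0q : p0 ≤ 1 - p)
    (hc1 : c1 = K * p0 ^ 2 / (4 * (K ^ 2 + 1))) (hc1' : 0 < c1) (hl1 : 0 < l1) (hK1 : 0 < K1)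
    (hK1' : 8 / (p * δ) ≤ K1 ^ 2)
    (hκ : 2 * κ / p ≤ c1 / 4) (hl : 2 * K * Real.sqrt (2 / p) * l1 + K * l1 ^ 2 ≤ c1 / 4)
    (hn : 4 ≤ n) (hnp : 32 ≤ n * p)
    (hr0 : 17 * p + 4 * K ^ 2 / p ≤ c1 * Real.sqrt n)
    (hr1 : 32 * K ^ 2 / p ^ 2 ≤ c1 * Real.sqrt n)
    (hr2 : 4 * K / p ≤ Real.sqrt n)
    (hr3 : 8 * (K + 1) / (p * δ) ≤ Real.sqrt n)
    (hr4 : 8 * K / p * K1 ^ 2 ≤ l1 ^ 2 * Real.sqrt n) :
    ((1 - p) * p * l1 ^ 2 * δ ^ 2 / 64) * ex p (fun s : Finset (Sym2 (Fin n)) =>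
      if ∑ u, ∑ v, nl s u v ≤ p * δ ^ 2 / 64 * n ^ 2 then 1 else 0) ≤
    (4 * (1 + 4 * K / p) + 160 / p ^ 2) / Real.sqrt n +
      (n ^ 2 * (2 * (n + 1)) + (1 - p) * p * l1 ^ 2 * δ ^ 2 / 64) *
        ex p (fun s : Finset (Sym2 (Fin n)) => if Typ p K κ δ (gr s) then 0 else 1) := by
  set c3 : ℝ := (1 - p) * p * l1 ^ 2 * δ ^ 2 / 64 with hc3
  set C3 : ℝ := (4 * (1 + 4 * K / p) + 160 / p ^ 2) / Real.sqrt n with hC3
  have h1p : 0 < 1 - p := by linarith
  have hc30 : 0 ≤ c3 := by positivity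
  have hC30 : 0 ≤ C3 := by positivity
  have hn2 : 2 ≤ n := by omega
  set M : ℝ := n ^ 2 * (2 * (n + 1)) with hM
  have h0 := ex_total (n := n) (p := p)
  have h1 : ex p (fun s : Finset (Sym2 (Fin n)) =>
      c3 * (if ∑ u, ∑ v, nl s u v ≤ p * δ ^ 2 / 64 * n ^ 2 then 1 else 0) + (-C3) * 1 +
      (-(M + c3)) * (if Typ p K κ δ (gr s) then 0 else 1)) ≤
      ex p (total p : Finset (Sym2 (Fin n)) → ℝ) := by
    refine ex_mono hp.le hp1.le (fun s _ => ?_)
    have hnn : (0 : ℝ) ≤ (if ∑ u, ∑ v, nl s u v ≤ p * δ ^ 2 / 64 * n ^ 2 then 1 else 0) ∧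
        (if ∑ u, ∑ v, nl s u v ≤ p * δ ^ 2 / 64 * n ^ 2 then (1 : ℝ) else 0) ≤ 1 := by
      split_ifs <;> norm_num
    by_cases hT : Typ p K κ δ (gr s)
    · rw [if_pos hT]
      have hpos : ∀ i, 0 < dg (gr s) i := fun i => lt_of_lt_of_le (by linarith) (hT.deg i)
      have hTT : c1 / Real.sqrt n ≤ TT (gr s) := by
        rw [hc1]
        exact hT.TT_ge hp hp1 hn2 hK hpos hp0 hp0p hp0q (by rw [← hc1]; exact hr0)
      have h2 := total_ge hT hp hp1 hn2 hK hκ0 hδ hnp hc1' hl1 hK1 hK1' hTT hκ hl hr1 hr2 hr3 hr4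
      by_cases hbad : ∑ u, ∑ v, nl s u v ≤ p * δ ^ 2 / 64 * n ^ 2
      · rw [if_pos hbad]
        have := h2.2 hbad
        linarith
      · rw [if_neg hbad]
        have := h2.1
        linarith
    · rw [if_neg hT]
      have h2 := total_ge_trivial hp.le hp1.le hn2 s
      have h3 := mul_le_mul_of_nonneg_left hnn.2 hc30
      linarith
  rw [h0, ex_add, ex_add, ex_mul, ex_mul, ex_mul, ex_one] at h1
  linarith

theorem tendsto_pow_exp {a : ℝ} (ha : 0 < a) :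
    Filter.Tendsto (fun n : ℕ => (n : ℝ) ^ 4 * Real.exp (-(a * n))) Filter.atTop (nhds 0) := by
  have h1 := tendsto_rpow_mul_exp_neg_mul_atTop_nhds_zero 4 a ha
  have h2 := h1.comp (tendsto_natCast_atTop_atTop (R := ℝ))
  refine h2.congr (fun n => ?_)
  simp only [Function.comp]
  congr 1
  · norm_cast
  · congr 1; ring

open scoped Classical in
theorem bad_tendsto (hp : 0 < p) (hp1 : p < 1) : ∃ c : ℝ, 0 < c ∧
    Filter.Tendsto (fun n : ℕ => ex p (fun s : Finset (Sym2 (Fin n)) =>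
      if ∑ u, ∑ v, nl s u v ≤ c * n ^ 2 then (1 : ℝ) else 0)) Filter.atTop (nhds 0) := by
  have h1p : 0 < 1 - p := by linarith
  set K : ℝ := 26 with hK
  set p0 : ℝ := min p (1 - p) with hp0
  have hp00 : 0 < p0 := lt_min hp h1p
  set c1 : ℝ := K * p0 ^ 2 / (4 * (K ^ 2 + 1)) with hc1
  have hK0 : 0 < K := by rw [hK]; norm_num
  have hc10 : 0 < c1 := by positivity
  set κ : ℝ := p * c1 / 8 with hκ
  have hκ0 : 0 < κ := by positivity
  obtain ⟨δ, hδ, hfail⟩ := typ_fail hp hp1 hκ0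
  set K1 : ℝ := Real.sqrt (8 / (p * δ)) with hK1
  have hK10 : 0 < K1 := Real.sqrt_pos.mpr (by positivity)
  have hK12 : K1 ^ 2 = 8 / (p * δ) := Real.sq_sqrt (by positivity)
  set D : ℝ := 2 * K * Real.sqrt (2 / p) + K with hD
  have hD0 : 0 < D := by positivity
  set l1 : ℝ := min 1 (c1 / (4 * D)) with hl1
  have hl10 : 0 < l1 := lt_min one_pos (by positivity)
  have hl11 : l1 ≤ 1 := min_le_left _ _
  have hl12 : l1 ≤ c1 / (4 * D) := min_le_right _ _
  have hl : 2 * K * Real.sqrt (2 / p) * l1 + K * l1 ^ 2 ≤ c1 / 4 := by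
    have h1 : l1 ^ 2 ≤ l1 := by nlinarith
    have h2 : 2 * K * Real.sqrt (2 / p) * l1 + K * l1 ^ 2 ≤ D * l1 := by
      have := mul_le_mul_of_nonneg_left h1 hK0.le
      rw [hD]; linarith
    have h3 : D * l1 ≤ D * (c1 / (4 * D)) := mul_le_mul_of_nonneg_left hl12 hD0.le
    have h4 : D * (c1 / (4 * D)) = c1 / 4 := by field_simp
    linarith
  have hκ' : 2 * κ / p ≤ c1 / 4 := by
    rw [hκ]; apply le_of_eq; field_simp; ring
  refine ⟨p * δ ^ 2 / 64, by positivity, ?_⟩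
  set c3 : ℝ := (1 - p) * p * l1 ^ 2 * δ ^ 2 / 64 with hc3
  have hc30 : 0 < c3 := by positivity
  set C3 : ℝ := 4 * (1 + 4 * K / p) + 160 / p ^ 2 with hC3
  set a : ℝ := min (p ^ 2 / 64) (min 3 (κ ^ 2 / 64)) with ha
  have ha0 : 0 < a := lt_min (by positivity) (lt_min (by norm_num) (by positivity))
  have ha1 : a ≤ p ^ 2 / 64 := min_le_left _ _
  have ha2 : a ≤ 3 := (min_le_right _ _).trans (min_le_left _ _)
  have ha3 : a ≤ κ ^ 2 / 64 := (min_le_right _ _).trans (min_le_right _ _)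
  -- limits
  have hsqrt : Filter.Tendsto (fun n : ℕ => Real.sqrt n) Filter.atTop Filter.atTop :=
    Real.tendsto_sqrt_atTop.comp tendsto_natCast_atTop_atTop
  have hlim : Filter.Tendsto (fun n : ℕ => (C3 / Real.sqrt n +
      (4 + c3) * 5 * ((n : ℝ) ^ 4 * Real.exp (-(a * n)))) / c3) Filter.atTop (nhds 0) := by
    have h1 : Filter.Tendsto (fun n : ℕ => C3 / Real.sqrt n) Filter.atTop (nhds 0) :=
      hsqrt.const_div_atTop C3
    have h2 := (tendsto_pow_exp ha0).const_mul ((4 + c3) * 5)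
    have h3 := (h1.add h2).div_const c3
    simpa using h3
  refine tendsto_of_tendsto_of_tendsto_of_le_of_le' tendsto_const_nhds hlim ?_ ?_
  · refine Filter.Eventually.of_forall (fun n => ?_)
    unfold ex
    exact Finset.sum_nonneg (fun s _ => mul_nonneg (wt_nonneg hp.le hp1.le s)
      (by dsimp only; split_ifs <;> norm_num))
  · have e1 := Filter.eventually_ge_atTop 4
    have e2 := (tendsto_natCast_atTop_atTop (R := ℝ)).eventually_ge_atTop (32 / p)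
    have e3 := hsqrt.eventually_ge_atTop ((17 * p + 4 * K ^ 2 / p) / c1)
    have e4 := hsqrt.eventually_ge_atTop ((32 * K ^ 2 / p ^ 2) / c1)
    have e5 := hsqrt.eventually_ge_atTop (4 * K / p)
    have e6 := hsqrt.eventually_ge_atTop (8 * (K + 1) / (p * δ))
    have e7 := hsqrt.eventually_ge_atTop ((8 * K / p * K1 ^ 2) / l1 ^ 2)
    filter_upwards [e1, e2, e3, e4, e5, e6, e7] with n e1 e2 e3 e4 e5 e6 e7
    have hnp : 32 ≤ n * p := (div_le_iff₀ hp).mp e2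
    have hstep := bad_step (n := n) hp hp1 (K := K) (κ := κ) (δ := δ) (p0 := p0) (c1 := c1)
      (l1 := l1) (K1 := K1) (by rw [hK]; norm_num) hκ0.le hδ hp00 (min_le_left _ _)
      (min_le_right _ _) hc1 hc10 hl10 hK10 hK12.ge hκ' hl e1 hnp
      (by rw [mul_comm c1]; exact (div_le_iff₀ hc10).mp e3)
      (by rw [mul_comm c1]; exact (div_le_iff₀ hc10).mp e4) e5 e6
      (by rw [mul_comm (l1 ^ 2)]; exact (div_le_iff₀ (by positivity)).mp e7)
    rw [← hC3, ← hc3] at hstep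
    rw [le_div_iff₀ hc30, mul_comm]
    refine hstep.trans ?_
    have hf := hfail n e1
    have hn1 : (1 : ℝ) ≤ n := by exact_mod_cast (by omega : 1 ≤ n)
    have hn0 : (0 : ℝ) ≤ n := by linarith
    have hf1 : Real.exp (-(n * p ^ 2 / 64)) ≤ Real.exp (-(a * n)) := by
      apply Real.exp_le_exp.mpr
      have := mul_le_mul_of_nonneg_right ha1 hn0
      linarith
    have hf2 : Real.exp (-(3 * (n : ℝ))) ≤ Real.exp (-(a * n)) := by
      apply Real.exp_le_exp.mpr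
      have := mul_le_mul_of_nonneg_right ha2 hn0
      linarith
    have hf3 : Real.exp (-(κ ^ 2 * n / 64)) ≤ Real.exp (-(a * n)) := by
      apply Real.exp_le_exp.mpr
      have := mul_le_mul_of_nonneg_right ha3 hn0
      linarith
    have he0 := Real.exp_pos (-(a * n))
    have hf4 : ex p (fun s : Finset (Sym2 (Fin n)) => if Typ p K κ δ (gr s) then 0 else 1) ≤
        5 * (n * Real.exp (-(a * n))) := by
      refine hf.trans ?_
      have h1 := mul_le_mul_of_nonneg_left hf1 hn0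
      have h2 : Real.exp (-(a * n)) ≤ n * Real.exp (-(a * n)) := by nlinarith
      linarith
    have hpoly : (n : ℝ) ^ 2 * (2 * (n + 1)) + c3 ≤ (4 + c3) * n ^ 3 := by
      have h1 : (1 : ℝ) ≤ n ^ 3 := one_le_pow₀ hn1
      have h2 : (n : ℝ) ^ 2 ≤ n ^ 3 := pow_le_pow_right₀ hn1 (by norm_num)
      have h3 := mul_le_mul_of_nonneg_left h1 hc30.le
      nlinarith
    have hpoly0 : 0 ≤ (n : ℝ) ^ 2 * (2 * (n + 1)) + c3 := by positivity
    have h5 : ((n : ℝ) ^ 2 * (2 * (n + 1)) + c3) *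
        ex p (fun s : Finset (Sym2 (Fin n)) => if Typ p K κ δ (gr s) then 0 else 1) ≤
        ((4 + c3) * n ^ 3) * (5 * (n * Real.exp (-(a * n)))) := by
      refine (mul_le_mul_of_nonneg_left hf4 hpoly0).trans ?_
      exact mul_le_mul_of_nonneg_right hpoly (by positivity)
    have h6 : ((4 + c3) * (n : ℝ) ^ 3) * (5 * (n * Real.exp (-(a * n)))) =
        (4 + c3) * 5 * ((n : ℝ) ^ 4 * Real.exp (-(a * n))) := by ring
    linarith

end Pool.Agent.MP_332c83_pr
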