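import Pool.Agent.MP_332c83_pr.Prob

set_option autoImplicit false

/-!
# Rounding to integer vectors, counting, union bound
-/

open Matrix

namespace Pool.Agent.MP_332c83_pr

variable {n : ℕ} {p : ℝ}

/-! ### Rounding -/

/-- Truncation toward zero. -/
noncomputable def tr (a : ℝ) : ℤ := if 0 ≤ a then ⌊a⌋ else ⌈a⌉

theorem tr_zero : tr 0 = 0 := by simp [tr]

theorem abs_tr_le (a : ℝ) : |(tr a : ℝ)| ≤ |a| := by
  unfold tr
  split_ifs with h
  · have h1 : (0 : ℝ) ≤ ⌊a⌋ := by exact_mod_cast Int.floor_nonneg.mpr h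
    rw [abs_of_nonneg h1, abs_of_nonneg h]
    exact Int.floor_le a
  · push Not at h
    have h1 : (⌈a⌉ : ℝ) ≤ 0 := by exact_mod_cast Int.ceil_le.mpr (by simpa using h.le)
    rw [abs_of_nonpos h1, abs_of_neg h]
    linarith [Int.le_ceil a]

theorem abs_tr_sub_le (a : ℝ) : |(tr a : ℝ) - a| ≤ 1 := by
  unfold tr
  split_ifs with h
  · rw [abs_le]
    constructor <;> linarith [Int.floor_le a, Int.lt_floor_add_one a]
  · rw [abs_le]
    constructor <;> linarith [Int.le_ceil a, Int.ceil_lt_add_one a]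

theorem MM_smul (p : ℝ) (H : SimpleGraph (Fin n)) (t : ℝ) (a : Fin n → ℝ) :
    MM p H (fun i => t * a i) = t ^ 2 * MM p H a := by
  have := MM_comb p H t 0 a a
  simpa using this

theorem MM_bdd (p : ℝ) (H : SimpleGraph (Fin n)) :
    ∃ C : ℝ, 0 ≤ C ∧ ∀ x : Fin n → ℝ, ∑ i, x i ^ 2 ≤ 1 → |MM p H x| ≤ C := by
  refine ⟨n ^ 2 + |p| * (n ^ 2 + 1), by positivity, fun x hx => ?_⟩
  have h1 : ∀ i, |x i| ≤ 1 := by
    intro i
    have : x i ^ 2 ≤ 1 := (Finset.single_le_sum (f := fun i => x i ^ 2)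
      (fun i _ => sq_nonneg _) (Finset.mem_univ i)).trans hx
    exact (sq_le_one_iff_abs_le_one (x i)).mp this
  have h2 : |qA H x| ≤ n ^ 2 := by
    unfold qA SS
    calc |∑ i, ∑ j, adj H i j * (x i * x j)| ≤ ∑ i, ∑ j, |adj H i j * (x i * x j)| := by
          refine (Finset.abs_sum_le_sum_abs _ _).trans (Finset.sum_le_sum (fun i _ => ?_))
          exact Finset.abs_sum_le_sum_abs _ _
      _ ≤ ∑ _i : Fin n, ∑ _j : Fin n, (1 : ℝ) := by
          refine Finset.sum_le_sum (fun i _ => Finset.sum_le_sum (fun j _ => ?_))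
          rw [abs_mul, abs_mul, abs_of_nonneg (adj_nonneg H i j)]
          have h3 := adj_le_one H i j
          have h4 := adj_nonneg H i j
          have h5 : |x i| * |x j| ≤ 1 := mul_le_one₀ (h1 i) (abs_nonneg _) (h1 j)
          exact mul_le_one₀ h3 (by positivity) h5
      _ = n ^ 2 := by simp; ring
  have h3 : |∑ i, x i| ≤ n := by
    calc |∑ i, x i| ≤ ∑ i, |x i| := Finset.abs_sum_le_sum_abs _ _
      _ ≤ ∑ _i : Fin n, (1 : ℝ) := Finset.sum_le_sum (fun i _ => h1 i)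
      _ = n := by simp
  have h4 : (∑ i, x i) ^ 2 ≤ n ^ 2 := by
    rw [← sq_abs]
    exact pow_le_pow_left₀ (abs_nonneg _) h3 2
  have h5 : 0 ≤ ∑ i, x i ^ 2 := Finset.sum_nonneg (fun i _ => sq_nonneg _)
  unfold MM
  calc |qA H x - p * ((∑ i, x i) ^ 2 - ∑ i, x i ^ 2)|
      ≤ |qA H x| + |p * ((∑ i, x i) ^ 2 - ∑ i, x i ^ 2)| := abs_sub _ _
    _ ≤ n ^ 2 + |p| * (n ^ 2 + 1) := by
        rw [abs_mul]
        have h6 : |(∑ i, x i) ^ 2 - ∑ i, x i ^ 2| ≤ n ^ 2 + 1 := by
          rw [abs_le]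
          constructor <;> nlinarith [sq_nonneg (∑ i, x i)]
        have := mul_le_mul_of_nonneg_left h6 (abs_nonneg p)
        linarith

open scoped Classical in
theorem rounding {H : SimpleGraph (Fin n)} {s t : ℝ} (hs : 0 < s) (ht : 0 ≤ t)
    (hnet : ∀ z : Fin n → ℤ, ∑ i, (z i : ℝ) ^ 2 ≤ 16 * s →
      |MM p H (fun i => (z i : ℝ))| ≤ t * (16 * s)) (x : Fin n → ℝ)
    (hx : ((Finset.univ.filter (fun i => x i ≠ 0)).card : ℝ) ≤ s) :
    |MM p H x| ≤ 2 * t * ∑ i, x i ^ 2 := by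
  set A : Set ℝ := {a | ∃ x : Fin n → ℝ, ∑ i, x i ^ 2 ≤ 1 ∧
    ((Finset.univ.filter (fun i => x i ≠ 0)).card : ℝ) ≤ s ∧ a = |MM p H x|} with hA
  obtain ⟨C, hC0, hC⟩ := MM_bdd p H
  have hbdd : BddAbove A := ⟨C, by rintro a ⟨x, hx1, -, rfl⟩; exact hC x hx1⟩
  have hne : A.Nonempty := ⟨|MM p H (fun _ => 0)|, fun _ => 0, by simp, by simpa using hs.le, rfl⟩
  set β := sSup A with hβ
  have hβ0 : 0 ≤ β := by
    obtain ⟨a, ha⟩ := hne
    have h1 := le_csSup hbdd ha
    obtain ⟨x, -, -, rfl⟩ := ha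
    exact (abs_nonneg _).trans h1
  -- homogeneous bound
  have hhom : ∀ x : Fin n → ℝ, ((Finset.univ.filter (fun i => x i ≠ 0)).card : ℝ) ≤ s →
      |MM p H x| ≤ β * ∑ i, x i ^ 2 := by
    intro x hx
    by_cases h0 : ∑ i, x i ^ 2 = 0
    · have : x = fun _ => 0 := by
        funext i
        have := (Finset.sum_eq_zero_iff_of_nonneg (fun i _ => sq_nonneg (x i))).mp h0 i
          (Finset.mem_univ i)
        exact pow_eq_zero_iff (two_ne_zero) |>.mp this
      rw [h0, this]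
      simp [MM, qA, SS]
    · have hpos : 0 < ∑ i, x i ^ 2 :=
        lt_of_le_of_ne (Finset.sum_nonneg (fun i _ => sq_nonneg _)) (Ne.symm h0)
      set ρ := Real.sqrt (∑ i, x i ^ 2) with hρ
      have hρ0 : 0 < ρ := Real.sqrt_pos.mpr hpos
      have hρ2 : ρ ^ 2 = ∑ i, x i ^ 2 := Real.sq_sqrt hpos.le
      have h1 : |MM p H (fun i => ρ⁻¹ * x i)| ≤ β := by
        refine le_csSup hbdd ⟨fun i => ρ⁻¹ * x i, ?_, ?_, rfl⟩
        · have : ∑ i, (ρ⁻¹ * x i) ^ 2 = (ρ⁻¹) ^ 2 * ∑ i, x i ^ 2 := by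
            rw [Finset.mul_sum]
            exact Finset.sum_congr rfl (fun i _ => by ring)
          rw [this, ← hρ2]
          field_simp
          exact le_rfl
        · refine le_trans (le_of_eq ?_) hx
          congr 2
          ext i
          simp [hρ0.ne']
      rw [MM_smul, abs_mul, abs_of_nonneg (sq_nonneg _)] at h1
      rw [← hρ2]
      have h2 : |MM p H x| = ρ ^ 2 * ((ρ⁻¹) ^ 2 * |MM p H x|) := by field_simp
      rw [h2]
      calc ρ ^ 2 * ((ρ⁻¹) ^ 2 * |MM p H x|) ≤ ρ ^ 2 * β :=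
            mul_le_mul_of_nonneg_left h1 (sq_nonneg ρ)
        _ = β * ρ ^ 2 := mul_comm _ _
  -- the main step
  have hstep : ∀ x : Fin n → ℝ, ∑ i, x i ^ 2 ≤ 1 →
      ((Finset.univ.filter (fun i => x i ≠ 0)).card : ℝ) ≤ s → |MM p H x| ≤ t + β / 2 := by
    intro x hx1 hx2
    set q := 4 * Real.sqrt s with hq
    have hq0 : 0 < q := by have := Real.sqrt_pos.mpr hs; positivity
    have hq2 : q ^ 2 = 16 * s := by rw [hq, mul_pow, Real.sq_sqrt hs.le]; norm_num
    set z : Fin n → ℤ := fun i => tr (q * x i) with hz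
    set w : Fin n → ℝ := fun i => q⁻¹ * (z i : ℝ) with hw
    have hzx : ∀ i, (z i : ℝ) ^ 2 ≤ q ^ 2 * x i ^ 2 := by
      intro i
      have := abs_tr_le (q * x i)
      have h2 := pow_le_pow_left₀ (abs_nonneg _) this 2
      rw [sq_abs, sq_abs, mul_pow] at h2
      exact h2
    have hzsum : ∑ i, (z i : ℝ) ^ 2 ≤ 16 * s := by
      calc ∑ i, (z i : ℝ) ^ 2 ≤ ∑ i, q ^ 2 * x i ^ 2 := Finset.sum_le_sum (fun i _ => hzx i)
        _ = q ^ 2 * ∑ i, x i ^ 2 := by rw [Finset.mul_sum]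
        _ ≤ q ^ 2 * 1 := mul_le_mul_of_nonneg_left hx1 (sq_nonneg _)
        _ = 16 * s := by rw [hq2, mul_one]
    have hMw : |MM p H w| ≤ t := by
      have h1 := hnet z hzsum
      rw [hw, MM_smul, abs_mul, abs_of_nonneg (sq_nonneg _)]
      rw [← hq2] at h1
      calc (q⁻¹) ^ 2 * |MM p H fun i => (z i : ℝ)| ≤ (q⁻¹) ^ 2 * (t * q ^ 2) :=
            mul_le_mul_of_nonneg_left h1 (sq_nonneg _)
        _ = t := by field_simp
    have hwsq : ∑ i, w i ^ 2 ≤ 1 := by
      have : ∑ i, w i ^ 2 = (q⁻¹) ^ 2 * ∑ i, (z i : ℝ) ^ 2 := by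
        rw [Finset.mul_sum]
        exact Finset.sum_congr rfl (fun i _ => by simp only [hw]; ring)
      rw [this]
      calc (q⁻¹) ^ 2 * ∑ i, (z i : ℝ) ^ 2 ≤ (q⁻¹) ^ 2 * (16 * s) :=
            mul_le_mul_of_nonneg_left hzsum (sq_nonneg _)
        _ = 1 := by rw [← hq2]; field_simp
    set J := Finset.univ.filter (fun i => x i ≠ 0) with hJ
    have hJz : ∀ i, i ∉ J → x i = 0 := by
      intro i hi
      by_contra h
      exact hi (by simp [hJ, h])
    have hJw : ∀ i, i ∉ J → w i = 0 := by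
      intro i hi
      simp only [hw, hz, hJz i hi, mul_zero, tr_zero, Int.cast_zero]
    set a : Fin n → ℝ := fun i => x i - w i with ha
    set b : Fin n → ℝ := fun i => x i + w i with hb
    have hdiff : MM p H x - MM p H w = MB p H b a := by
      have h1 := MM_comb p H (1 / 2) (1 / 2) b a
      have h2 := MM_comb p H (1 / 2) (-(1 / 2)) b a
      have e1 : (fun i => 1 / 2 * b i + 1 / 2 * a i) = x := by
        funext i; simp only [ha, hb]; ring
      have e2 : (fun i => 1 / 2 * b i + -(1 / 2) * a i) = w := by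
        funext i; simp only [ha, hb]; ring
      rw [e1] at h1
      rw [e2] at h2
      rw [h1, h2]; ring
    have hMB : |MB p H b a| ≤ β * (Real.sqrt (∑ i, b i ^ 2) * Real.sqrt (∑ i, a i ^ 2)) := by
      refine MB_bound (J := J) (fun c hc => hhom c ?_) (fun i hi => by simp [hb, hJz i hi, hJw i hi])
        (fun i hi => by simp [ha, hJz i hi, hJw i hi])
      refine le_trans ?_ hx2
      have : (Finset.univ.filter (fun i => c i ≠ 0)) ⊆ J := by
        intro i hi
        by_contra h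
        simp only [Finset.mem_filter, Finset.mem_univ, true_and] at hi
        exact hi (hc i h)
      exact_mod_cast Finset.card_le_card this
    have hasq : ∑ i, a i ^ 2 ≤ 1 / 16 := by
      have h1 : ∀ i, a i ^ 2 ≤ (q⁻¹) ^ 2 := by
        intro i
        have h2 := abs_tr_sub_le (q * x i)
        have h3 := pow_le_pow_left₀ (abs_nonneg _) h2 2
        rw [sq_abs, one_pow] at h3
        have h4 : a i ^ 2 = (q⁻¹) ^ 2 * ((tr (q * x i) : ℝ) - q * x i) ^ 2 := by
          simp only [ha, hw, hz]; field_simp; ring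
        rw [h4]
        calc (q⁻¹) ^ 2 * ((tr (q * x i) : ℝ) - q * x i) ^ 2 ≤ (q⁻¹) ^ 2 * 1 :=
              mul_le_mul_of_nonneg_left h3 (sq_nonneg _)
          _ = _ := mul_one _
      have h2 : ∑ i, a i ^ 2 = ∑ i ∈ J, a i ^ 2 := by
        symm
        apply Finset.sum_subset (Finset.subset_univ _)
        intro i _ hi
        simp [ha, hJz i hi, hJw i hi]
      rw [h2]
      calc ∑ i ∈ J, a i ^ 2 ≤ ∑ _i ∈ J, (q⁻¹) ^ 2 := Finset.sum_le_sum (fun i _ => h1 i)
        _ = J.card * (q⁻¹) ^ 2 := by rw [Finset.sum_const, nsmul_eq_mul]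
        _ ≤ s * (q⁻¹) ^ 2 := mul_le_mul_of_nonneg_right hx2 (sq_nonneg _)
        _ = 1 / 16 := by
          rw [inv_pow, hq2]; field_simp
    have hbsq : ∑ i, b i ^ 2 ≤ 4 := by
      calc ∑ i, b i ^ 2 ≤ ∑ i, (2 * x i ^ 2 + 2 * w i ^ 2) :=
            Finset.sum_le_sum (fun i _ => by simp only [hb]; nlinarith [sq_nonneg (x i - w i)])
        _ = 2 * ∑ i, x i ^ 2 + 2 * ∑ i, w i ^ 2 := by
            rw [Finset.sum_add_distrib, Finset.mul_sum, Finset.mul_sum]
        _ ≤ 4 := by linarith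
    have h1 : Real.sqrt (∑ i, b i ^ 2) ≤ 2 := by
      rw [Real.sqrt_le_left (by norm_num)]; linarith
    have h2 : Real.sqrt (∑ i, a i ^ 2) ≤ 1 / 4 := by
      rw [Real.sqrt_le_left (by norm_num)]; linarith
    have h3 : Real.sqrt (∑ i, b i ^ 2) * Real.sqrt (∑ i, a i ^ 2) ≤ 1 / 2 := by
      calc _ ≤ 2 * (1 / 4 : ℝ) := mul_le_mul h1 h2 (Real.sqrt_nonneg _) (by norm_num)
        _ = 1 / 2 := by norm_num
    have h4 : |MB p H b a| ≤ β / 2 := by
      have := mul_le_mul_of_nonneg_left h3 hβ0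
      linarith
    have h5 : MM p H x = MM p H w + MB p H b a := by rw [← hdiff]; ring
    rw [h5]
    exact (abs_add_le _ _).trans (add_le_add hMw h4)
  have hβle : β ≤ t + β / 2 := by
    refine csSup_le hne ?_
    rintro a ⟨x, hx1, hx2, rfl⟩
    exact hstep x hx1 hx2
  have h1 := hhom x hx
  have h2 : 0 ≤ ∑ i, x i ^ 2 := Finset.sum_nonneg (fun i _ => sq_nonneg _)
  have h3 : β ≤ 2 * t := by linarith
  exact h1.trans (mul_le_mul_of_nonneg_right h3 h2)

/-! ### Counting -/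

theorem sum_pow_natAbs_le {q : ℝ} (hq0 : 0 ≤ q) (hq : q ≤ 1 / 2) (b : ℕ) :
    ∑ k ∈ Finset.Icc (-(b : ℤ)) b, q ^ k.natAbs ≤ 1 + 4 * q - 4 * q ^ (b + 1) := by
  induction b with
  | zero => simp
  | succ b ih =>
    have h1 : Finset.Icc (-((b + 1 : ℕ) : ℤ)) ((b + 1 : ℕ) : ℤ) =
        insert (-((b + 1 : ℕ) : ℤ)) (insert ((b + 1 : ℕ) : ℤ) (Finset.Icc (-(b : ℤ)) b)) := by
      ext k
      simp only [Finset.mem_Icc, Finset.mem_insert]
      push_cast
      omega
    rw [h1, Finset.sum_insert, Finset.sum_insert]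
    · have h2 : (-((b + 1 : ℕ) : ℤ)).natAbs = b + 1 := by omega
      have h3 : (((b + 1 : ℕ) : ℤ)).natAbs = b + 1 := by omega
      rw [h2, h3]
      have h4 : q ^ (b + 1 + 1) ≤ 1 / 2 * q ^ (b + 1) := by
        rw [pow_succ, mul_comm]
        exact mul_le_mul_of_nonneg_right hq (pow_nonneg hq0 _)
      linarith
    · simp only [Finset.mem_Icc]
      push_cast
      omega
    · simp only [Finset.mem_Icc, Finset.mem_insert]
      push_cast
      omega

theorem exists_zset (n : ℕ) {B l : ℝ} (hl : 0 ≤ l) (hl2 : Real.exp (-l) ≤ 1 / 2) :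
    ∃ Z : Finset (Fin n → ℤ), (∀ z : Fin n → ℤ, ∑ i, (z i : ℝ) ^ 2 ≤ B → z ∈ Z) ∧
      (∀ z ∈ Z, ∑ i, (z i : ℝ) ^ 2 ≤ B) ∧
      (Z.card : ℝ) ≤ Real.exp (l * B + 4 * Real.exp (-l) * n) := by
  classical
  set b : ℕ := ⌈B⌉₊ with hb
  set P : Finset (Fin n → ℤ) := Fintype.piFinset (fun _ => Finset.Icc (-(b : ℤ)) b) with hP
  refine ⟨P.filter (fun z => ∑ i, (z i : ℝ) ^ 2 ≤ B), ?_, ?_, ?_⟩
  · intro z hz
    rw [Finset.mem_filter]
    refine ⟨?_, hz⟩
    rw [hP, Fintype.mem_piFinset]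
    intro i
    have h1 : (z i : ℝ) ^ 2 ≤ B := (Finset.single_le_sum (f := fun i => (z i : ℝ) ^ 2)
      (fun i _ => sq_nonneg _) (Finset.mem_univ i)).trans hz
    have h2 : (z i : ℝ) ^ 2 ≤ b := h1.trans (Nat.le_ceil B)
    have h3 : (z i) ^ 2 ≤ (b : ℤ) := by exact_mod_cast h2
    rw [Finset.mem_Icc]
    constructor <;> nlinarith [sq_nonneg (z i - 1), sq_nonneg (z i + 1)]
  · intro z hz
    exact (Finset.mem_filter.mp hz).2
  · have h1 : ((P.filter (fun z => ∑ i, (z i : ℝ) ^ 2 ≤ B)).card : ℝ) ≤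
        ∑ z ∈ P, Real.exp (l * (B - ∑ i, (z i : ℝ) ^ 2)) := by
      rw [Finset.card_filter]
      push_cast
      refine Finset.sum_le_sum (fun z _ => ?_)
      split_ifs with h
      · exact Real.one_le_exp (mul_nonneg hl (by linarith))
      · exact (Real.exp_pos _).le
    refine h1.trans ?_
    have h2 : ∑ z ∈ P, Real.exp (l * (B - ∑ i, (z i : ℝ) ^ 2)) =
        Real.exp (l * B) * ∏ _i : Fin n, ∑ k ∈ Finset.Icc (-(b : ℤ)) b,
          Real.exp (-(l * (k : ℝ) ^ 2)) := by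
      rw [Finset.prod_univ_sum, Finset.mul_sum]
      refine Finset.sum_congr rfl (fun z _ => ?_)
      rw [← Real.exp_sum, ← Real.exp_add]
      congr 1
      rw [mul_sub, Finset.mul_sum, Finset.sum_neg_distrib]
      ring
    rw [h2]
    have h3 : ∑ k ∈ Finset.Icc (-(b : ℤ)) b, Real.exp (-(l * (k : ℝ) ^ 2)) ≤
        1 + 4 * Real.exp (-l) := by
      have h4 : ∑ k ∈ Finset.Icc (-(b : ℤ)) b, Real.exp (-(l * (k : ℝ) ^ 2)) ≤
          ∑ k ∈ Finset.Icc (-(b : ℤ)) b, (Real.exp (-l)) ^ k.natAbs := by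
        refine Finset.sum_le_sum (fun k _ => ?_)
        rw [← Real.exp_nat_mul]
        apply Real.exp_le_exp.mpr
        have h5 : (k.natAbs : ℝ) ≤ (k : ℝ) ^ 2 := by
          have h6 : |k| ≤ k ^ 2 := by
            have h7 : |k| ≤ |k| ^ 2 := by
              rcases eq_or_ne k 0 with rfl | hk
              · simp
              · have : 1 ≤ |k| := Int.one_le_abs hk
                nlinarith
            rwa [sq_abs] at h7
          rw [Nat.cast_natAbs]
          exact_mod_cast h6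
        nlinarith
      have h5 := sum_pow_natAbs_le (Real.exp_pos (-l)).le hl2 b
      have h6 : 0 ≤ (Real.exp (-l)) ^ (b + 1) := by positivity
      linarith
    have h4 : ∏ _i : Fin n, ∑ k ∈ Finset.Icc (-(b : ℤ)) b, Real.exp (-(l * (k : ℝ) ^ 2)) ≤
        Real.exp (4 * Real.exp (-l) * n) := by
      calc ∏ _i : Fin n, ∑ k ∈ Finset.Icc (-(b : ℤ)) b, Real.exp (-(l * (k : ℝ) ^ 2))
          ≤ ∏ _i : Fin n, Real.exp (4 * Real.exp (-l)) := by
            refine Finset.prod_le_prod (fun i _ => Finset.sum_nonneg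
              (fun k _ => (Real.exp_pos _).le)) (fun i _ => ?_)
            refine h3.trans ?_
            rw [add_comm]
            exact Real.add_one_le_exp _
        _ = Real.exp (4 * Real.exp (-l) * n) := by
            rw [Finset.prod_const, ← Real.exp_nat_mul]
            congr 1
            simp
            ring
    rw [Real.exp_add]
    exact mul_le_mul_of_nonneg_left h4 (Real.exp_pos _).le

open scoped Classical in
/-- Union bound over integer vectors. -/
theorem net_fail (hp : 0 ≤ p) (hp1 : p ≤ 1) {B t l : ℝ} (hB : 0 < B) (ht : 0 ≤ t) (hl : 0 ≤ l)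
    (hl2 : Real.exp (-l) ≤ 1 / 2) :
    ex p (fun s : Finset (Sym2 (Fin n)) => if (∀ z : Fin n → ℤ, ∑ i, (z i : ℝ) ^ 2 ≤ B →
      |MM p (gr s) (fun i => (z i : ℝ))| ≤ t * B) then 0 else 1) ≤
      Real.exp (l * B + 4 * Real.exp (-l) * n) * (2 * Real.exp (-(t ^ 2 / 8))) := by
  obtain ⟨Z, hZ1, hZ2, hZ3⟩ := exists_zset n (B := B) hl hl2
  have h1 : ex p (fun s : Finset (Sym2 (Fin n)) => if (∀ z : Fin n → ℤ, ∑ i, (z i : ℝ) ^ 2 ≤ B →
      |MM p (gr s) (fun i => (z i : ℝ))| ≤ t * B) then 0 else 1) ≤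
      ex p (fun s => ∑ z ∈ Z, (if t * B < |MM p (gr s) (fun i => (z i : ℝ))| then 1 else 0)) := by
    refine ex_mono hp hp1 (fun s _ => ?_)
    split_ifs with h
    · exact Finset.sum_nonneg (fun z _ => by split_ifs <;> norm_num)
    · push Not at h
      obtain ⟨z, hz1, hz2⟩ := h
      have h2 : (1 : ℝ) ≤ (if t * B < |MM p (gr s) (fun i => (z i : ℝ))| then 1 else 0) := by
        rw [if_pos hz2]
      refine h2.trans ?_
      exact Finset.single_le_sum (f := fun z : Fin n → ℤ =>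
        (if t * B < |MM p (gr s) (fun i => (z i : ℝ))| then (1 : ℝ) else 0))
        (fun z _ => by split_ifs <;> norm_num) (hZ1 z hz1)
  refine h1.trans ?_
  rw [ex_sum]
  calc ∑ z ∈ Z, ex p (fun s => if t * B < |MM p (gr s) (fun i => (z i : ℝ))| then 1 else 0)
      ≤ ∑ _z ∈ Z, 2 * Real.exp (-(t ^ 2 / 8)) :=
        Finset.sum_le_sum (fun z hz => MM_tail hp hp1 _ hB ht (hZ2 z hz))
    _ = Z.card * (2 * Real.exp (-(t ^ 2 / 8))) := by rw [Finset.sum_const, nsmul_eq_mul]
    _ ≤ _ := mul_le_mul_of_nonneg_right hZ3 (by positivity)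

/-! ### Degrees -/

/-- Coefficients of a degree. -/
noncomputable def cdeg (i : Fin n) : Sym2 (Fin n) → ℝ :=
  Sym2.lift ⟨fun u v => -((if u = i then 1 else 0) + (if v = i then 1 else 0)),
    fun u v => by ring⟩

theorem cs_cdeg (i : Fin n) (s : Finset (Sym2 (Fin n))) :
    cs p (cdeg i) s = p * (n - 1) - dg (gr s) i := by
  have h1 := sum_offdiag_eq (fun e => cdeg i e * ((if e ∈ s then 1 else 0) - p))
  have h2 : ∑ u : Fin n, ∑ v : Fin n, (if u = v then 0 else
      (fun e => cdeg i e * ((if e ∈ s then 1 else 0) - p)) s(u, v)) =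
      2 * (p * (n - 1) - dg (gr s) i) := by
    have h3 : ∀ u v : Fin n, (if u = v then 0 else
      (fun e => cdeg i e * ((if e ∈ s then 1 else 0) - p)) s(u, v)) =
      (if u = i then (p - adj (gr s) u v) else 0) + (if v = i then (p - adj (gr s) u v) else 0) -
      (if u = v then (if u = i then 2 * p else 0) else 0) := by
      intro u v
      by_cases huv : u = v
      · subst huv
        simp only [if_true, adj_self]
        split_ifs <;> ring
      · rw [if_neg huv, if_neg huv, adj_gr]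
        simp only [cdeg, Sym2.lift_mk]
        by_cases hm : s(u, v) ∈ s
        · rw [if_pos hm, if_pos (show s(u, v) ∈ s ∧ u ≠ v from ⟨hm, huv⟩)]; split_ifs <;> ring
        · rw [if_neg hm, if_neg (show ¬ (s(u, v) ∈ s ∧ u ≠ v) from fun h => hm h.1)]
          split_ifs <;> ring
    simp only [h3, Finset.sum_add_distrib, Finset.sum_sub_distrib]
    have h4 : ∑ u : Fin n, ∑ v : Fin n, (if u = i then (p - adj (gr s) u v) else 0) =
        p * n - dg (gr s) i := by
      rw [Finset.sum_comm]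
      simp only [Finset.sum_ite_eq', Finset.mem_univ, if_true, Finset.sum_sub_distrib]
      simp [dg, mul_comm]
    have h5 : ∑ u : Fin n, ∑ v : Fin n, (if v = i then (p - adj (gr s) u v) else 0) =
        p * n - dg (gr s) i := by
      simp only [Finset.sum_ite_eq', Finset.mem_univ, if_true, Finset.sum_sub_distrib]
      have : ∑ u, adj (gr s) u i = dg (gr s) i := by
        unfold dg
        exact Finset.sum_congr rfl (fun u _ => adj_comm _ _ _)
      rw [this]
      simp [mul_comm]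
    rw [h4, h5]
    simp
    ring
  have h6 : cs p (cdeg i) s = ∑ e ∈ EE n, cdeg i e * ((if e ∈ s then 1 else 0) - p) := rfl
  rw [h6]
  linarith

theorem cdeg_sq_le (i : Fin n) : ∑ e ∈ EE n, cdeg i e ^ 2 ≤ n := by
  have h1 := sum_offdiag_eq (fun e => cdeg i e ^ 2)
  have h2 : ∑ u : Fin n, ∑ v : Fin n, (if u = v then 0 else
      (fun e => cdeg i e ^ 2) s(u, v)) ≤
      ∑ u : Fin n, ∑ v : Fin n, ((if u = i then 1 else 0) + (if v = i then 1 else 0)) := by
    refine Finset.sum_le_sum (fun u _ => Finset.sum_le_sum (fun v _ => ?_))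
    by_cases huv : u = v
    · rw [if_pos huv]; split_ifs <;> norm_num
    · rw [if_neg huv]
      simp only [cdeg, Sym2.lift_mk]
      split_ifs with ha hb
      · exact absurd (ha.trans hb.symm) huv
      all_goals norm_num
  have h3 : ∑ u : Fin n, ∑ v : Fin n, (((if u = i then 1 else 0) + (if v = i then 1 else 0)) : ℝ) =
      2 * n := by
    simp only [Finset.sum_add_distrib]
    simp
    ring
  linarith

open scoped Classical in
theorem deg_fail (hp : 0 < p) (hp1 : p ≤ 1) (hn : 4 ≤ n) (i : Fin n) :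
    ex p (fun s => if n * p / 2 ≤ dg (gr s) i then 0 else 1) ≤ Real.exp (-(n * p ^ 2 / 64)) := by
  have hn4 : (4 : ℝ) ≤ n := by exact_mod_cast hn
  have h1 := chernoff hp.le hp1 (cdeg i) (V := n) (t := n * p / 4) (by linarith) (by positivity)
    (cdeg_sq_le i)
  have h2 : (n * p / 4) ^ 2 / (4 * n) = n * p ^ 2 / 64 := by field_simp; ring
  rw [h2] at h1
  refine le_trans (ex_mono hp.le hp1 (fun s _ => ?_)) h1
  rw [cs_cdeg]
  split_ifs with ha hb hb
  · norm_num
  · exact le_rfl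
  · exact le_rfl
  · exfalso
    apply hb
    push Not at ha
    nlinarith

end Pool.Agent.MP_332c83_pr
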