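import Pool.Agent.MP_332c83_pr.Graph

set_option autoImplicit false

/-!
# Adding or deleting one edge
-/

open Matrix

namespace Pool.Agent.MP_332c83_pr

variable {n : ℕ}

/-- The graph with a given set of edges. -/
def gr (s : Finset (Sym2 (Fin n))) : SimpleGraph (Fin n) :=
  SimpleGraph.fromEdgeSet (s : Set (Sym2 (Fin n)))

theorem adj_gr (s : Finset (Sym2 (Fin n))) (i j : Fin n) :
    adj (gr s) i j = if s(i, j) ∈ s ∧ i ≠ j then 1 else 0 := by
  unfold adj gr
  simp only [SimpleGraph.fromEdgeSet_adj, Finset.mem_coe]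

theorem adj_insert (s : Finset (Sym2 (Fin n))) {u v : Fin n} (huv : u ≠ v) (he : s(u, v) ∉ s)
    (i j : Fin n) :
    adj (gr (insert s(u, v) s)) i j = adj (gr s) i j + (if i = u ∧ j = v then 1 else 0) +
      (if i = v ∧ j = u then 1 else 0) := by
  rw [adj_gr, adj_gr]
  by_cases h1 : i = u ∧ j = v
  · obtain ⟨rfl, rfl⟩ := h1
    have h2 : ¬ (i = j ∧ j = i) := fun h => huv h.1
    simp [he, huv, h2]
  · by_cases h2 : i = v ∧ j = u
    · obtain ⟨rfl, rfl⟩ := h2
      have h3 : s(i, j) ∉ s := by rw [Sym2.eq_swap]; exact he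
      have h4 : s(i, j) = s(j, i) := Sym2.eq_swap
      have h5 : ¬ (i = j ∧ j = i) := fun h => huv h.2
      simp [h3, huv.symm, h4, he, h5]
    · have h3 : s(i, j) ≠ s(u, v) := by
        intro h
        rw [Sym2.eq_iff] at h
        rcases h with h | h
        · exact h1 h
        · exact h2 h
      simp only [Finset.mem_insert, h3, false_or, if_neg h1, if_neg h2, add_zero]

theorem SS_insert (s : Finset (Sym2 (Fin n))) {u v : Fin n} (huv : u ≠ v) (he : s(u, v) ∉ s)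
    (f : Fin n → Fin n → ℝ) :
    SS (gr (insert s(u, v) s)) f = SS (gr s) f + f u v + f v u := by
  unfold SS
  have h1 : ∀ i j, adj (gr (insert s(u, v) s)) i j * f i j = adj (gr s) i j * f i j +
      (if i = u then (if j = v then f i j else 0) else 0) +
      (if i = v then (if j = u then f i j else 0) else 0) := by
    intro i j
    rw [adj_insert s huv he]
    split_ifs <;> simp_all <;> ring
  simp only [h1, Finset.sum_add_distrib]
  congr 1
  · congr 1
    rw [Finset.sum_comm]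
    simp
  · rw [Finset.sum_comm]
    simp

theorem dg_insert_ge (s : Finset (Sym2 (Fin n))) {u v : Fin n} (huv : u ≠ v) (he : s(u, v) ∉ s)
    (i : Fin n) : dg (gr s) i ≤ dg (gr (insert s(u, v) s)) i := by
  refine Finset.sum_le_sum (fun k _ => ?_)
  rw [adj_insert s huv he]
  have h1 : (0 : ℝ) ≤ if i = u ∧ k = v then 1 else 0 := by split_ifs <;> norm_num
  have h2 : (0 : ℝ) ≤ if i = v ∧ k = u then 1 else 0 := by split_ifs <;> norm_num
  linarith

theorem dg_insert_le (s : Finset (Sym2 (Fin n))) {u v : Fin n} (huv : u ≠ v) (he : s(u, v) ∉ s)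
    (i : Fin n) : dg (gr (insert s(u, v) s)) i ≤ dg (gr s) i + 2 := by
  unfold dg
  have h1 : ∀ k, adj (gr (insert s(u, v) s)) i k ≤ adj (gr s) i k + (if k = v then 1 else 0) +
      (if k = u then 1 else 0) := by
    intro k
    rw [adj_insert s huv he]
    split_ifs <;> simp_all
  calc ∑ k, adj (gr (insert s(u, v) s)) i k
      ≤ ∑ k, (adj (gr s) i k + (if k = v then 1 else 0) + (if k = u then 1 else 0)) :=
        Finset.sum_le_sum (fun k _ => h1 k)
    _ = _ := by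
        rw [Finset.sum_add_distrib, Finset.sum_add_distrib]
        simp
        ring

/-- Elementary inequality used for a deletion. -/
theorem num_del {T T' a b Q : ℝ} (hT0 : 0 ≤ T) (hT1 : T ≤ 1) (hQ0 : 0 ≤ Q)
    (hQ : Q ≤ a ^ 2 + b ^ 2) (hw : a ^ 2 + b ^ 2 ≤ 1 / 8)
    (h : T - 2 * (a * b) - Q ≤ T' * (1 - (a ^ 2 + b ^ 2) - Q)) :
    T - (2 * (a * b) - T * (a ^ 2 + b ^ 2)) - Q - 8 * (a ^ 2 + b ^ 2) ^ 2 ≤ T' := by
  set w := a ^ 2 + b ^ 2 with hwdef
  have hab1 : -w ≤ 2 * (a * b) := by nlinarith [sq_nonneg (a + b)]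
  have hab2 : 2 * (a * b) ≤ w := by nlinarith [sq_nonneg (a - b)]
  have hw0 : 0 ≤ w := by positivity
  set D := T' - T with hD
  have hT' : T' = T + D := by rw [hD]; ring
  rw [hT'] at h ⊢
  -- (1 - w - Q) * D ≥ X
  have h1 : -(2 * (a * b)) - Q + T * (w + Q) ≤ D * (1 - w - Q) := by nlinarith
  by_contra hcon
  push Not at hcon
  have h2 : D < -(2 * (a * b)) + T * w - Q - 8 * w ^ 2 := by linarith
  have hpos : 0 < 1 - w - Q := by linarith
  have h3 : D * (1 - w - Q) < (-(2 * (a * b)) + T * w - Q - 8 * w ^ 2) * (1 - w - Q) :=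
    mul_lt_mul_of_pos_right h2 hpos
  have hX : -(2 * (a * b)) + T * w - Q ≤ 2 * w := by nlinarith
  have hX2 : -(3 * w) ≤ -(2 * (a * b)) + T * w - Q := by nlinarith
  have h4 : -(-(2 * (a * b)) + T * w - Q) * (w + Q) ≤ 3 * w * (2 * w) := by
    have : -(-(2 * (a * b)) + T * w - Q) ≤ 3 * w := by linarith
    calc -(-(2 * (a * b)) + T * w - Q) * (w + Q) ≤ 3 * w * (w + Q) :=
          mul_le_mul_of_nonneg_right this (by linarith)
      _ ≤ 3 * w * (2 * w) := mul_le_mul_of_nonneg_left (by linarith) (by linarith)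
  have h5 : 8 * w ^ 2 * (1 - w - Q) ≥ 6 * w ^ 2 := by
    have : 3 / 4 ≤ 1 - w - Q := by linarith
    nlinarith [sq_nonneg w]
  have h6 : 0 ≤ T * Q := mul_nonneg hT0 hQ0
  nlinarith

/-- Elementary inequality used for an addition. -/
theorem num_add {T T' a b Q : ℝ} (hT0 : 0 ≤ T) (hT1 : T ≤ 1) (hQ0 : 0 ≤ Q)
    (hQ : Q ≤ a ^ 2 + b ^ 2)
    (h : T + 2 * (a * b) - Q ≤ T' * (1 + (a ^ 2 + b ^ 2) - Q)) :
    T + (2 * (a * b) - T * (a ^ 2 + b ^ 2)) - Q - 8 * (a ^ 2 + b ^ 2) ^ 2 ≤ T' := by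
  set w := a ^ 2 + b ^ 2 with hwdef
  have hab1 : -w ≤ 2 * (a * b) := by nlinarith [sq_nonneg (a + b)]
  have hab2 : 2 * (a * b) ≤ w := by nlinarith [sq_nonneg (a - b)]
  have hw0 : 0 ≤ w := by positivity
  set D := T' - T with hD
  have hT' : T' = T + D := by rw [hD]; ring
  rw [hT'] at h ⊢
  have h1 : (2 * (a * b)) - Q - T * (w - Q) ≤ D * (1 + w - Q) := by nlinarith
  by_contra hcon
  push Not at hcon
  have h2 : D < (2 * (a * b)) - T * w - Q - 8 * w ^ 2 := by linarith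
  have hpos : 0 < 1 + w - Q := by linarith
  have h3 : D * (1 + w - Q) < ((2 * (a * b)) - T * w - Q - 8 * w ^ 2) * (1 + w - Q) :=
    mul_lt_mul_of_pos_right h2 hpos
  have hX : (2 * (a * b)) - T * w - Q ≤ w := by nlinarith
  have h4 : ((2 * (a * b)) - T * w - Q) * (w - Q) ≤ w * w := by
    have h40 : ((2 * (a * b)) - T * w - Q) * (w - Q) ≤ w * (w - Q) :=
      mul_le_mul_of_nonneg_right hX (by linarith)
    nlinarith
  have h5 : 8 * w ^ 2 * (1 + w - Q) ≥ 8 * w ^ 2 := by nlinarith [sq_nonneg w]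
  have h6 : 0 ≤ T * Q := mul_nonneg hT0 hQ0
  nlinarith

/-- Lower bound for the change of `TT` when an edge is deleted. -/
theorem TT_del {s : Finset (Sym2 (Fin n))} {u v : Fin n} (huv : u ≠ v) (he : s(u, v) ∉ s)
    (hn : 2 ≤ n) (hpos : ∀ i, 0 < dg (gr s) i) {y : Fin n → ℝ}
    (hlin : lin (gr (insert s(u, v) s)) y = 0) (hD : qD (gr (insert s(u, v) s)) y = 1)
    (hA : qA (gr (insert s(u, v) s)) y = TT (gr (insert s(u, v) s)))
    (hT0 : 0 ≤ TT (gr (insert s(u, v) s))) (hm : 2 ≤ m2 (gr s))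
    (hw : y u ^ 2 + y v ^ 2 ≤ 1 / 8) :
    TT (gr (insert s(u, v) s)) -
      (2 * (y u * y v) - TT (gr (insert s(u, v) s)) * (y u ^ 2 + y v ^ 2)) -
      2 * (y u ^ 2 + y v ^ 2) / m2 (gr s) - 8 * (y u ^ 2 + y v ^ 2) ^ 2 ≤ TT (gr s) := by
  have hpos1 : ∀ i, 0 < dg (gr (insert s(u, v) s)) i :=
    fun i => (hpos i).trans_le (dg_insert_ge s huv he i)
  have hT1 := TT_le_one hpos1 hn
  have e1 : lin (gr s) y = -(y u + y v) := by
    have := SS_insert s huv he (fun i _ => y i)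
    unfold lin at hlin ⊢
    linarith
  have e2 : qD (gr s) y = 1 - (y u ^ 2 + y v ^ 2) := by
    have := SS_insert s huv he (fun i _ => y i ^ 2)
    unfold qD at hD ⊢
    linarith
  have e3 : qA (gr s) y = TT (gr (insert s(u, v) s)) - 2 * (y u * y v) := by
    have := SS_insert s huv he (fun i j => y i * y j)
    unfold qA at hA ⊢
    linarith
  have h := test_bound hpos hn y
  rw [e1, e2, e3] at h
  have hm0 : 0 < m2 (gr s) := by linarith
  have hQ : (-(y u + y v)) ^ 2 / m2 (gr s) ≤ 2 * (y u ^ 2 + y v ^ 2) / m2 (gr s) := by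
    gcongr
    nlinarith [sq_nonneg (y u - y v)]
  have hQ2 : 2 * (y u ^ 2 + y v ^ 2) / m2 (gr s) ≤ y u ^ 2 + y v ^ 2 := by
    rw [div_le_iff₀ hm0]
    nlinarith [sq_nonneg (y u), sq_nonneg (y v)]
  have := num_del hT0 hT1 (by positivity) (hQ.trans hQ2) hw h
  linarith

/-- Lower bound for the change of `TT` when an edge is added. -/
theorem TT_add {s : Finset (Sym2 (Fin n))} {u v : Fin n} (huv : u ≠ v) (he : s(u, v) ∉ s)
    (hn : 2 ≤ n) (hpos : ∀ i, 0 < dg (gr s) i) {y : Fin n → ℝ}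
    (hlin : lin (gr s) y = 0) (hD : qD (gr s) y = 1)
    (hA : qA (gr s) y = TT (gr s))
    (hT0 : 0 ≤ TT (gr s)) (hm : 2 ≤ m2 (gr s)) :
    TT (gr s) + (2 * (y u * y v) - TT (gr s) * (y u ^ 2 + y v ^ 2)) -
      2 * (y u ^ 2 + y v ^ 2) / m2 (gr s) - 8 * (y u ^ 2 + y v ^ 2) ^ 2 ≤
      TT (gr (insert s(u, v) s)) := by
  have hpos1 : ∀ i, 0 < dg (gr (insert s(u, v) s)) i :=
    fun i => (hpos i).trans_le (dg_insert_ge s huv he i)
  have hT1 := TT_le_one hpos hn
  have e0 : m2 (gr (insert s(u, v) s)) = m2 (gr s) + 2 := by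
    have := SS_insert s huv he (fun _ _ => 1)
    unfold m2
    linarith
  have e1 : lin (gr (insert s(u, v) s)) y = y u + y v := by
    have := SS_insert s huv he (fun i _ => y i)
    unfold lin at hlin ⊢
    linarith
  have e2 : qD (gr (insert s(u, v) s)) y = 1 + (y u ^ 2 + y v ^ 2) := by
    have := SS_insert s huv he (fun i _ => y i ^ 2)
    unfold qD at hD ⊢
    linarith
  have e3 : qA (gr (insert s(u, v) s)) y = TT (gr s) + 2 * (y u * y v) := by
    have := SS_insert s huv he (fun i j => y i * y j)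
    unfold qA at hA ⊢
    linarith
  have h := test_bound hpos1 hn y
  rw [e1, e2, e3, e0] at h
  have hm0 : 0 < m2 (gr s) := by linarith
  have hQ : (y u + y v) ^ 2 / (m2 (gr s) + 2) ≤ 2 * (y u ^ 2 + y v ^ 2) / m2 (gr s) := by
    have h1 : (y u + y v) ^ 2 / (m2 (gr s) + 2) ≤ (y u + y v) ^ 2 / m2 (gr s) := by
      gcongr
      linarith
    refine h1.trans ?_
    gcongr
    nlinarith [sq_nonneg (y u - y v)]
  have hQ2 : 2 * (y u ^ 2 + y v ^ 2) / m2 (gr s) ≤ y u ^ 2 + y v ^ 2 := by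
    rw [div_le_iff₀ hm0]
    nlinarith [sq_nonneg (y u), sq_nonneg (y v)]
  have := num_add hT0 hT1 (by positivity) (hQ.trans hQ2) h
  linarith

end Pool.Agent.MP_332c83_pr
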