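import Pool.Agent.MP_332c83_pr.Typ

set_option autoImplicit false

/-!
# The random graph as a random set of pairs: exchangeability and concentration
-/

open Matrix

namespace Pool.Agent.MP_332c83_pr

variable {n : ℕ} {p : ℝ}

/-- The set of all pairs. -/
def EE (n : ℕ) : Finset (Sym2 (Fin n)) := Finset.univ.filter (fun e => ¬ e.IsDiag)

/-- Weight of a set of pairs. -/
noncomputable def wt (p : ℝ) (s : Finset (Sym2 (Fin n))) : ℝ :=
  p ^ s.card * (1 - p) ^ ((EE n).card - s.card)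

/-- Expectation. -/
noncomputable def ex (p : ℝ) (F : Finset (Sym2 (Fin n)) → ℝ) : ℝ :=
  ∑ s ∈ (EE n).powerset, wt p s * F s

theorem wt_nonneg (hp : 0 ≤ p) (hp1 : p ≤ 1) (s : Finset (Sym2 (Fin n))) : 0 ≤ wt p s :=
  mul_nonneg (pow_nonneg hp _) (pow_nonneg (by linarith) _)

theorem ex_mono (hp : 0 ≤ p) (hp1 : p ≤ 1) {F G : Finset (Sym2 (Fin n)) → ℝ}
    (h : ∀ s ∈ (EE n).powerset, F s ≤ G s) : ex p F ≤ ex p G :=
  Finset.sum_le_sum (fun s hs => mul_le_mul_of_nonneg_left (h s hs) (wt_nonneg hp hp1 s))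

theorem ex_one : ex p (fun _ : Finset (Sym2 (Fin n)) => 1) = 1 := by
  unfold ex wt
  simp only [mul_one]
  rw [Finset.sum_pow_mul_eq_add_pow]
  simp

theorem ex_add (F G : Finset (Sym2 (Fin n)) → ℝ) : ex p (fun s => F s + G s) = ex p F + ex p G := by
  unfold ex
  rw [← Finset.sum_add_distrib]
  exact Finset.sum_congr rfl (fun s _ => by ring)

theorem ex_mul (c : ℝ) (F : Finset (Sym2 (Fin n)) → ℝ) : ex p (fun s => c * F s) = c * ex p F := by
  unfold ex
  rw [Finset.mul_sum]
  exact Finset.sum_congr rfl (fun s _ => by ring)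

theorem ex_sum {ι : Type*} (I : Finset ι) (F : ι → Finset (Sym2 (Fin n)) → ℝ) :
    ex p (fun s => ∑ i ∈ I, F i s) = ∑ i ∈ I, ex p (F i) := by
  unfold ex
  rw [Finset.sum_comm]
  exact Finset.sum_congr rfl (fun s _ => by rw [Finset.mul_sum])

theorem mem_EE {u v : Fin n} : s(u, v) ∈ EE n ↔ u ≠ v := by
  simp [EE]

/-! ### Exponential moments -/

theorem exp_le_add_exp_sq (x : ℝ) : Real.exp x ≤ x + Real.exp (x ^ 2) := by
  have h2 : x ^ 2 + 1 ≤ Real.exp (x ^ 2) := Real.add_one_le_exp _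
  by_cases hx : |x| ≤ 1
  · have h1 := Real.abs_exp_sub_one_sub_id_le hx
    have := (abs_le.mp h1).2
    linarith
  · push Not at hx
    rcases lt_abs.mp hx with h | h
    · have : Real.exp x ≤ Real.exp (x ^ 2) := Real.exp_le_exp.mpr (by nlinarith)
      linarith
    · have h3 : Real.exp x ≤ 1 := Real.exp_le_one_iff.mpr (by linarith)
      nlinarith

theorem bernoulli_mgf (hp : 0 ≤ p) (hp1 : p ≤ 1) (c : ℝ) :
    p * Real.exp (c * (1 - p)) + (1 - p) * Real.exp (c * (0 - p)) ≤ Real.exp (c ^ 2) := by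
  have h1 := exp_le_add_exp_sq (c * (1 - p))
  have h2 := exp_le_add_exp_sq (c * (0 - p))
  have h3 : Real.exp ((c * (1 - p)) ^ 2) ≤ Real.exp (c ^ 2) := by
    apply Real.exp_le_exp.mpr
    rw [mul_pow]
    have : (1 - p) ^ 2 ≤ 1 := by nlinarith
    nlinarith [sq_nonneg c]
  have h4 : Real.exp ((c * (0 - p)) ^ 2) ≤ Real.exp (c ^ 2) := by
    apply Real.exp_le_exp.mpr
    rw [mul_pow]
    have : (0 - p) ^ 2 ≤ 1 := by nlinarith
    nlinarith [sq_nonneg c]
  have h5 : p * Real.exp (c * (1 - p)) ≤ p * (c * (1 - p) + Real.exp (c ^ 2)) :=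
    mul_le_mul_of_nonneg_left (by linarith) hp
  have h6 : (1 - p) * Real.exp (c * (0 - p)) ≤ (1 - p) * (c * (0 - p) + Real.exp (c ^ 2)) :=
    mul_le_mul_of_nonneg_left (by linarith) (by linarith)
  nlinarith

/-- Centered linear statistic. -/
noncomputable def cs (p : ℝ) (c : Sym2 (Fin n) → ℝ) (s : Finset (Sym2 (Fin n))) : ℝ :=
  ∑ e ∈ EE n, c e * ((if e ∈ s then 1 else 0) - p)

theorem mgf_le (hp : 0 ≤ p) (hp1 : p ≤ 1) (c : Sym2 (Fin n) → ℝ) :
    ex p (fun s => Real.exp (cs p c s)) ≤ Real.exp (∑ e ∈ EE n, c e ^ 2) := by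
  have h1 : ex p (fun s => Real.exp (cs p c s)) =
      ∏ e ∈ EE n, (p * Real.exp (c e * (1 - p)) + (1 - p) * Real.exp (c e * (0 - p))) := by
    rw [Finset.prod_add]
    unfold ex
    refine Finset.sum_congr rfl (fun s hs => ?_)
    rw [Finset.mem_powerset] at hs
    rw [Finset.prod_mul_distrib, Finset.prod_mul_distrib, Finset.prod_const, Finset.prod_const]
    have h2 : Real.exp (cs p c s) = (∏ e ∈ s, Real.exp (c e * (1 - p))) *
        ∏ e ∈ EE n \ s, Real.exp (c e * (0 - p)) := by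
      unfold cs
      rw [Real.exp_sum, ← Finset.prod_sdiff hs, mul_comm]
      congr 1
      · exact Finset.prod_congr rfl (fun e he => by rw [if_pos he])
      · refine Finset.prod_congr rfl (fun e he => ?_)
        rw [Finset.mem_sdiff] at he
        rw [if_neg he.2]
    show wt p s * Real.exp (cs p c s) = _
    rw [h2, wt, Finset.card_sdiff_of_subset hs]
    ring
  rw [h1, Real.exp_sum]
  refine Finset.prod_le_prod (fun e _ => ?_) (fun e _ => bernoulli_mgf hp hp1 (c e))
  have := Real.exp_pos (c e * (1 - p))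
  have := Real.exp_pos (c e * (0 - p))
  have h3 : 0 ≤ 1 - p := by linarith
  positivity

open scoped Classical in
/-- Chernoff bound. -/
theorem chernoff (hp : 0 ≤ p) (hp1 : p ≤ 1) (c : Sym2 (Fin n) → ℝ) {V t : ℝ} (hV : 0 < V)
    (ht : 0 ≤ t) (hc : ∑ e ∈ EE n, c e ^ 2 ≤ V) :
    ex p (fun s => if t ≤ cs p c s then 1 else 0) ≤ Real.exp (-(t ^ 2 / (4 * V))) := by
  set l := t / (2 * V) with hl
  have hl0 : 0 ≤ l := by positivity
  have h1 : ex p (fun s => if t ≤ cs p c s then 1 else 0) ≤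
      ex p (fun s => Real.exp (-(l * t)) * Real.exp (cs p (fun e => l * c e) s)) := by
    refine ex_mono hp hp1 (fun s _ => ?_)
    have h2 : cs p (fun e => l * c e) s = l * cs p c s := by
      unfold cs; rw [Finset.mul_sum]
      exact Finset.sum_congr rfl (fun e _ => by ring)
    rw [h2, ← Real.exp_add]
    split_ifs with h
    · have h3 : l * t ≤ l * cs p c s := mul_le_mul_of_nonneg_left h hl0
      have := Real.one_le_exp (x := -(l * t) + l * cs p c s) (by linarith)
      exact this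
    · exact (Real.exp_pos _).le
  refine h1.trans ?_
  rw [ex_mul]
  have h4 := mgf_le hp hp1 (fun e => l * c e)
  have h5 : ∑ e ∈ EE n, (l * c e) ^ 2 ≤ l ^ 2 * V := by
    have : ∑ e ∈ EE n, (l * c e) ^ 2 = l ^ 2 * ∑ e ∈ EE n, c e ^ 2 := by
      rw [Finset.mul_sum]
      exact Finset.sum_congr rfl (fun e _ => by ring)
    rw [this]
    exact mul_le_mul_of_nonneg_left hc (sq_nonneg l)
  calc Real.exp (-(l * t)) * ex p (fun s => Real.exp (cs p (fun e => l * c e) s))
      ≤ Real.exp (-(l * t)) * Real.exp (l ^ 2 * V) := by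
        apply mul_le_mul_of_nonneg_left _ (Real.exp_pos _).le
        exact h4.trans (Real.exp_le_exp.mpr h5)
    _ = Real.exp (-(t ^ 2 / (4 * V))) := by
        rw [← Real.exp_add]
        congr 1
        rw [hl]
        field_simp
        ring

/-! ### Sums over pairs -/

theorem sum_offdiag_eq (G : Sym2 (Fin n) → ℝ) :
    ∑ i : Fin n, ∑ j : Fin n, (if i = j then 0 else G s(i, j)) = 2 * ∑ e ∈ EE n, G e := by
  have h1 : ∑ e ∈ EE n, G e =
      ∑ q ∈ (Finset.univ : Finset (Fin n)).offDiag with q.1 < q.2, G s(q.1, q.2) := by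
    rw [← Finset.sum_sym2_filter_not_isDiag]
    congr 1
  have h2 : ∑ q ∈ (Finset.univ : Finset (Fin n)).offDiag with q.1 < q.2, G s(q.1, q.2) =
      ∑ i : Fin n, ∑ j : Fin n, (if i < j then G s(i, j) else 0) := by
    rw [Finset.sum_filter, ← Fintype.sum_prod_type' (f := fun i j : Fin n =>
      if i < j then G s(i, j) else 0)]
    refine Finset.sum_subset (Finset.subset_univ _) (fun q _ hq => ?_)
    rw [if_neg]
    intro h
    exact hq (by simp [h.ne])
  have h3 : ∑ i : Fin n, ∑ j : Fin n, (if i < j then G s(i, j) else 0) =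
      ∑ i : Fin n, ∑ j : Fin n, (if j < i then G s(i, j) else 0) := by
    rw [Finset.sum_comm]
    refine Finset.sum_congr rfl (fun i _ => Finset.sum_congr rfl (fun j _ => ?_))
    rw [Sym2.eq_swap]
  have h4 : ∑ i : Fin n, ∑ j : Fin n, (if i = j then 0 else G s(i, j)) =
      ∑ i : Fin n, ∑ j : Fin n, (if i < j then G s(i, j) else 0) +
      ∑ i : Fin n, ∑ j : Fin n, (if j < i then G s(i, j) else 0) := by
    rw [← Finset.sum_add_distrib]
    refine Finset.sum_congr rfl (fun i _ => ?_)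
    rw [← Finset.sum_add_distrib]
    refine Finset.sum_congr rfl (fun j _ => ?_)
    rcases lt_trichotomy i j with h | h | h
    · simp [h, h.ne, h.not_gt]
    · simp [h]
    · simp [h, h.ne', h.not_gt]
  rw [h4, ← h3, h1, h2]
  ring

/-- Coefficients attached to a vector. -/
noncomputable def cz (z : Fin n → ℝ) : Sym2 (Fin n) → ℝ :=
  Sym2.lift ⟨fun i j => 2 * (z i * z j), fun i j => by ring⟩

theorem MM_eq_cs (s : Finset (Sym2 (Fin n))) (z : Fin n → ℝ) : MM p (gr s) z = cs p (cz z) s := by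
  have h1 : MM p (gr s) z = ∑ i, ∑ j, (if i = j then 0 else
      (cz z s(i, j) * ((if s(i, j) ∈ s then 1 else 0) - p)) / 2) := by
    have h2 : ∀ i j, (if i = j then 0 else
      (cz z s(i, j) * ((if s(i, j) ∈ s then 1 else 0) - p)) / 2) =
      adj (gr s) i j * (z i * z j) - p * (z i * z j) + (if i = j then p * z i ^ 2 else 0) := by
      intro i j
      by_cases hij : i = j
      · subst hij
        simp only [if_true, adj_self]
        ring
      · rw [if_neg hij, if_neg hij, adj_gr]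
        simp only [cz, Sym2.lift_mk]
        by_cases hm : s(i, j) ∈ s
        · rw [if_pos hm, if_pos ⟨hm, hij⟩]; ring
        · rw [if_neg hm, if_neg (fun h => hm h.1)]; ring
    simp only [h2, Finset.sum_add_distrib, Finset.sum_sub_distrib]
    unfold MM qA SS
    have h3 : ∑ i : Fin n, ∑ j : Fin n, p * (z i * z j) = p * (∑ i, z i) ^ 2 := by
      rw [sq, Finset.sum_mul_sum, Finset.mul_sum]
      exact Finset.sum_congr rfl (fun i _ => by rw [Finset.mul_sum])
    have h4 : ∑ i : Fin n, ∑ j : Fin n, (if i = j then p * z i ^ 2 else 0) =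
        p * ∑ i, z i ^ 2 := by
      rw [Finset.mul_sum]
      exact Finset.sum_congr rfl (fun i _ => by simp)
    rw [h3, h4]
    ring
  rw [h1, sum_offdiag_eq (fun e => (cz z e * ((if e ∈ s then 1 else 0) - p)) / 2)]
  unfold cs
  rw [Finset.mul_sum]
  exact Finset.sum_congr rfl (fun e _ => by ring)

theorem cz_sq_le (z : Fin n → ℝ) : ∑ e ∈ EE n, cz z e ^ 2 ≤ 2 * (∑ i, z i ^ 2) ^ 2 := by
  have h1 := sum_offdiag_eq (fun e => cz z e ^ 2)
  have h2 : ∑ i : Fin n, ∑ j : Fin n, (if i = j then 0 else cz z s(i, j) ^ 2) ≤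
      ∑ i : Fin n, ∑ j : Fin n, 4 * (z i ^ 2 * z j ^ 2) := by
    refine Finset.sum_le_sum (fun i _ => Finset.sum_le_sum (fun j _ => ?_))
    split_ifs
    · positivity
    · simp only [cz, Sym2.lift_mk]
      exact le_of_eq (by ring)
  have h3 : ∑ i : Fin n, ∑ j : Fin n, 4 * (z i ^ 2 * z j ^ 2) = 4 * (∑ i, z i ^ 2) ^ 2 := by
    rw [sq, Finset.sum_mul_sum, Finset.mul_sum]
    exact Finset.sum_congr rfl (fun i _ => by rw [Finset.mul_sum])
  linarith

open scoped Classical in
/-- Two-sided bound for a fixed vector. -/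
theorem MM_tail (hp : 0 ≤ p) (hp1 : p ≤ 1) (z : Fin n → ℝ) {B t : ℝ} (hB : 0 < B) (ht : 0 ≤ t)
    (hz : ∑ i, z i ^ 2 ≤ B) :
    ex p (fun s => if t * B < |MM p (gr s) z| then 1 else 0) ≤ 2 * Real.exp (-(t ^ 2 / 8)) := by
  have hV : ∑ e ∈ EE n, cz z e ^ 2 ≤ 2 * B ^ 2 := by
    refine (cz_sq_le z).trans ?_
    have h0 : 0 ≤ ∑ i, z i ^ 2 := Finset.sum_nonneg (fun i _ => sq_nonneg _)
    gcongr
  have hV2 : ∑ e ∈ EE n, (fun e => -cz z e) e ^ 2 ≤ 2 * B ^ 2 := by
    refine le_trans (le_of_eq ?_) hV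
    exact Finset.sum_congr rfl (fun e _ => by ring)
  have h1 := chernoff hp hp1 (cz z) (V := 2 * B ^ 2) (t := t * B) (by positivity) (by positivity) hV
  have h2 := chernoff hp hp1 (fun e => -cz z e) (V := 2 * B ^ 2) (t := t * B) (by positivity)
    (by positivity) hV2
  have h3 : (t * B) ^ 2 / (4 * (2 * B ^ 2)) = t ^ 2 / 8 := by field_simp; ring
  rw [h3] at h1 h2
  have h4 : ex p (fun s => if t * B < |MM p (gr s) z| then 1 else 0) ≤
      ex p (fun s => (if t * B ≤ cs p (cz z) s then 1 else 0) +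
        (if t * B ≤ cs p (fun e => -cz z e) s then 1 else 0)) := by
    refine ex_mono hp hp1 (fun s _ => ?_)
    have h5 : cs p (fun e => -cz z e) s = -cs p (cz z) s := by
      unfold cs; rw [← Finset.sum_neg_distrib]
      exact Finset.sum_congr rfl (fun e _ => by ring)
    rw [h5, MM_eq_cs]
    split_ifs with ha hb hc hc hb hc hc <;> norm_num
    rcases lt_abs.mp ha with h | h
    · exact hb h.le
    · exact hc h.le
  refine h4.trans ?_
  rw [ex_add]
  linarith

end Pool.Agent.MP_332c83_pr
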