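import Mathlib

set_option autoImplicit false

/-!
# Spectral preliminaries: second smallest eigenvalue of a real symmetric matrix

The second smallest eigenvalue is defined through the roots of the characteristic polynomial; we
give its variational characterisation for a positive semidefinite matrix with a known null vector.
-/

open Matrix

namespace Pool.Agent.MP_332c83_pr

variable {n : ℕ}

/-- Spectral theorem in coordinates. -/
theorem exists_diag (S : Matrix (Fin n) (Fin n) ℝ) (hS : S.IsHermitian) :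
    ∃ (lam : Fin n → ℝ) (b : Fin n → Fin n → ℝ),
      S.charpoly.roots = Multiset.map lam Finset.univ.val ∧
      (∀ i, S *ᵥ b i = lam i • b i) ∧
      (∀ i j, b i ⬝ᵥ b j = if i = j then 1 else 0) ∧
      (∀ x : Fin n → ℝ, x = ∑ i, (b i ⬝ᵥ x) • b i) := by
  refine ⟨hS.eigenvalues, fun i => (hS.eigenvectorBasis i).ofLp, ?_, ?_, ?_, ?_⟩
  · have := hS.roots_charpoly_eq_eigenvalues
    simpa using this
  · intro i
    exact hS.mulVec_eigenvectorBasis i
  · intro i j
    have h := orthonormal_iff_ite.mp hS.eigenvectorBasis.orthonormal i j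
    rw [EuclideanSpace.inner_eq_star_dotProduct] at h
    simpa [dotProduct_comm] using h
  · intro x
    have h := (hS.eigenvectorBasis).sum_repr' (WithLp.toLp 2 x)
    have h2 := congrArg WithLp.ofLp h
    rw [WithLp.ofLp_sum] at h2
    conv_lhs => rw [show x = (WithLp.toLp 2 x : EuclideanSpace ℝ (Fin n)).ofLp from rfl, ← h2]
    refine Finset.sum_congr rfl (fun i _ => ?_)
    rw [WithLp.ofLp_smul, EuclideanSpace.inner_eq_star_dotProduct]
    simp [dotProduct_comm]

theorem sInf_card_spec (hn : 2 ≤ n) (lam : Fin n → ℝ) :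
    ∃ i j : Fin n, i ≠ j ∧
      sInf {t : ℝ | 2 ≤ ((Multiset.map lam Finset.univ.val).filter (fun x => x ≤ t)).card} =
        max (lam i) (lam j) ∧
      ∀ k l : Fin n, k ≠ l → max (lam i) (lam j) ≤ max (lam k) (lam l) := by
  classical
  have hne : (Finset.univ.offDiag : Finset (Fin n × Fin n)).Nonempty := by
    refine ⟨(⟨0, by omega⟩, ⟨1, by omega⟩), ?_⟩
    simp
  obtain ⟨⟨i, j⟩, hij, hmin⟩ := Finset.exists_min_image _
    (fun q : Fin n × Fin n => max (lam q.1) (lam q.2)) hne
  simp only [Finset.mem_offDiag, Finset.mem_univ, true_and] at hij hmin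
  refine ⟨i, j, hij, ?_, fun k l hkl => hmin (k, l) hkl⟩
  have hset : {t : ℝ | 2 ≤ ((Multiset.map lam Finset.univ.val).filter (fun x => x ≤ t)).card} =
      Set.Ici (max (lam i) (lam j)) := by
    ext t
    rw [Set.mem_ofPred_eq, Set.mem_Ici]
    have h1 : ((Multiset.map lam Finset.univ.val).filter (fun x => x ≤ t)).card =
        (Finset.univ.filter (fun k : Fin n => lam k ≤ t)).card := by
      rw [Multiset.filter_map, Multiset.card_map]
      rfl
    rw [h1]
    constructor
    · intro h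
      obtain ⟨k, hk, l, hl, hkl⟩ := Finset.one_lt_card.mp h
      simp only [Finset.mem_filter, Finset.mem_univ, true_and] at hk hl
      exact (hmin (k, l) hkl).trans (max_le hk hl)
    · intro h
      refine Finset.one_lt_card.mpr ⟨i, ?_, j, ?_, hij⟩
      · simp only [Finset.mem_filter, Finset.mem_univ, true_and]
        exact (le_max_left _ _).trans h
      · simp only [Finset.mem_filter, Finset.mem_univ, true_and]
        exact (le_max_right _ _).trans h
  rw [hset, csInf_Ici]

/-- The second smallest eigenvalue of a matrix, defined through the characteristic polynomial. -/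
noncomputable def secondEig (S : Matrix (Fin n) (Fin n) ℝ) : ℝ :=
  sInf {t : ℝ | 2 ≤ (S.charpoly.roots.filter (fun x => x ≤ t)).card}

section variational

variable {S : Matrix (Fin n) (Fin n) ℝ}

theorem dot_self_eq {b : Fin n → Fin n → ℝ} (hb : ∀ i j, b i ⬝ᵥ b j = if i = j then 1 else 0)
    (c : Fin n → ℝ) : (∑ i, c i • b i) ⬝ᵥ (∑ i, c i • b i) = ∑ i, c i ^ 2 := by
  rw [sum_dotProduct]
  refine Finset.sum_congr rfl (fun i _ => ?_)
  rw [dotProduct_sum, Finset.sum_eq_single i]
  · rw [smul_dotProduct, dotProduct_smul, hb, if_pos rfl]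
    simp [sq]
  · intro j _ hj
    rw [smul_dotProduct, dotProduct_smul, hb, if_neg (fun h => hj h.symm)]
    simp
  · simp

theorem form_eq {lam : Fin n → ℝ} {b : Fin n → Fin n → ℝ} (hev : ∀ i, S *ᵥ b i = lam i • b i)
    (hb : ∀ i j, b i ⬝ᵥ b j = if i = j then 1 else 0)
    (c : Fin n → ℝ) : (∑ i, c i • b i) ⬝ᵥ (S *ᵥ ∑ i, c i • b i) = ∑ i, lam i * c i ^ 2 := by
  rw [sum_dotProduct]
  refine Finset.sum_congr rfl (fun i _ => ?_)
  rw [mulVec_sum, dotProduct_sum, Finset.sum_eq_single i]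
  · rw [mulVec_smul, hev, smul_dotProduct, dotProduct_smul, dotProduct_smul, hb, if_pos rfl]
    simp [sq]; ring
  · intro j _ hj
    rw [mulVec_smul, hev, smul_dotProduct, dotProduct_smul, dotProduct_smul, hb,
      if_neg (fun h => hj h.symm)]
    simp
  · simp

theorem secondEig_spec (hn : 2 ≤ n) (hS : S.IsHermitian) :
    ∃ (lam : Fin n → ℝ) (b : Fin n → Fin n → ℝ) (i j : Fin n),
      (∀ i, S *ᵥ b i = lam i • b i) ∧
      (∀ i j, b i ⬝ᵥ b j = if i = j then 1 else 0) ∧
      (∀ x : Fin n → ℝ, x = ∑ i, (b i ⬝ᵥ x) • b i) ∧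
      i ≠ j ∧ secondEig S = max (lam i) (lam j) ∧
      ∀ k l : Fin n, k ≠ l → max (lam i) (lam j) ≤ max (lam k) (lam l) := by
  obtain ⟨lam, b, h1, h2, h3, h4⟩ := exists_diag S hS
  obtain ⟨i, j, hij, h5, h6⟩ := sInf_card_spec hn lam
  refine ⟨lam, b, i, j, h2, h3, h4, hij, ?_, h6⟩
  rw [secondEig, h1, h5]

/-- There is a nonzero vector orthogonal to `v` whose Rayleigh quotient is at most the second
smallest eigenvalue. -/
theorem exists_vec (hn : 2 ≤ n) (hS : S.IsHermitian) (v : Fin n → ℝ) :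
    ∃ x : Fin n → ℝ, x ≠ 0 ∧ v ⬝ᵥ x = 0 ∧ x ⬝ᵥ (S *ᵥ x) ≤ secondEig S * (x ⬝ᵥ x) := by
  classical
  obtain ⟨lam, b, i, j, h2, h3, h4, hij, h5, h6⟩ := secondEig_spec hn hS
  -- a general combination of `b i` and `b j`
  have key : ∀ α β : ℝ, (α ≠ 0 ∨ β ≠ 0) → v ⬝ᵥ (α • b i + β • b j) = 0 →
      ∃ x : Fin n → ℝ, x ≠ 0 ∧ v ⬝ᵥ x = 0 ∧ x ⬝ᵥ (S *ᵥ x) ≤ secondEig S * (x ⬝ᵥ x) := by
    intro α β hαβ hv
    set c : Fin n → ℝ := fun k => if k = i then α else if k = j then β else 0 with hc
    have hx : α • b i + β • b j = ∑ k, c k • b k := by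
      rw [← Finset.add_sum_erase _ _ (Finset.mem_univ i),
        ← Finset.add_sum_erase _ _ (Finset.mem_erase.mpr ⟨hij.symm, Finset.mem_univ j⟩),
        Finset.sum_eq_zero]
      · simp [hc, hij.symm]
      · intro k hk
        simp only [Finset.mem_erase, Finset.mem_univ, and_true] at hk
        simp [hc, hk.1, hk.2]
    have hs : ∀ f : Fin n → ℝ, ∑ k, f k * c k ^ 2 = f i * α ^ 2 + f j * β ^ 2 := by
      intro f
      rw [← Finset.add_sum_erase _ _ (Finset.mem_univ i),
        ← Finset.add_sum_erase _ _ (Finset.mem_erase.mpr ⟨hij.symm, Finset.mem_univ j⟩),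
        Finset.sum_eq_zero]
      · simp [hc, hij.symm]
      · intro k hk
        simp only [Finset.mem_erase, Finset.mem_univ, and_true] at hk
        simp [hc, hk.1, hk.2]
    have hnorm : (α • b i + β • b j) ⬝ᵥ (α • b i + β • b j) = α ^ 2 + β ^ 2 := by
      rw [hx, dot_self_eq h3]
      have := hs (fun _ => 1)
      simpa using this
    refine ⟨α • b i + β • b j, ?_, hv, ?_⟩
    · intro h0
      rw [h0] at hnorm
      simp only [dotProduct_zero] at hnorm
      have h7 : α = 0 := by nlinarith [sq_nonneg α, sq_nonneg β]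
      have h8 : β = 0 := by nlinarith [sq_nonneg α, sq_nonneg β]
      rcases hαβ with h | h
      · exact h h7
      · exact h h8
    · rw [hnorm, hx, form_eq h2 h3, hs, h5]
      nlinarith [le_max_left (lam i) (lam j), le_max_right (lam i) (lam j), sq_nonneg α,
        sq_nonneg β]
  by_cases h : v ⬝ᵥ b i = 0
  · exact key 1 0 (Or.inl one_ne_zero) (by simp [h])
  · refine key (v ⬝ᵥ b j) (-(v ⬝ᵥ b i)) (Or.inr (neg_ne_zero.mpr h)) ?_
    rw [dotProduct_add, dotProduct_smul, dotProduct_smul]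
    simp only [smul_eq_mul]
    ring

/-- If `S` is positive semidefinite with null vector `v`, then the second smallest eigenvalue is at
most the Rayleigh quotient of each vector orthogonal to `v`. -/
theorem secondEig_le (hn : 2 ≤ n) (hS : S.IsHermitian) (hpsd : ∀ x, 0 ≤ x ⬝ᵥ (S *ᵥ x))
    {v : Fin n → ℝ} (hv0 : v ≠ 0) (hv : S *ᵥ v = 0) {x : Fin n → ℝ} (hx : v ⬝ᵥ x = 0) :
    secondEig S * (x ⬝ᵥ x) ≤ x ⬝ᵥ (S *ᵥ x) := by
  classical
  obtain ⟨lam, b, i, j, h2, h3, h4, hij, h5, h6⟩ := secondEig_spec hn hS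
  rw [h5]
  by_contra hcon
  push Not at hcon
  set m := max (lam i) (lam j) with hm
  have hx0 : x ≠ 0 := by
    intro h0
    rw [h0] at hcon
    simp at hcon
  have hxx : 0 < x ⬝ᵥ x := by
    have := dotProduct_self_star_pos_iff (v := x)
    have h7 : 0 ≤ x ⬝ᵥ x := Finset.sum_nonneg (fun k _ => mul_self_nonneg (x k))
    rcases h7.lt_or_eq with h | h
    · exact h
    · exact absurd (dotProduct_self_eq_zero.mp h.symm) hx0
  have hvv : 0 < v ⬝ᵥ v := by
    have h7 : 0 ≤ v ⬝ᵥ v := Finset.sum_nonneg (fun k _ => mul_self_nonneg (v k))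
    rcases h7.lt_or_eq with h | h
    · exact h
    · exact absurd (dotProduct_self_eq_zero.mp h.symm) hv0
  -- the Rayleigh quotient of `x`
  set R : ℝ := (x ⬝ᵥ (S *ᵥ x)) / (x ⬝ᵥ x) with hR
  have hRx : R * (x ⬝ᵥ x) = x ⬝ᵥ (S *ᵥ x) := by
    rw [hR]; field_simp
  have hR0 : 0 ≤ R := div_nonneg (hpsd x) hxx.le
  have hRm : R < m := by
    by_contra h
    push Not at h
    have := mul_le_mul_of_nonneg_right h hxx.le
    linarith
  -- at most one eigenvalue is at most `R`
  have hone : ∀ k l : Fin n, lam k ≤ R → lam l ≤ R → k = l := by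
    intro k l hk hl
    by_contra hkl
    have := h6 k l hkl
    have h8 : max (lam k) (lam l) ≤ R := max_le hk hl
    linarith
  -- symmetric: `S` applied to `v`
  have hsym : ∀ y z : Fin n → ℝ, y ⬝ᵥ (S *ᵥ z) = z ⬝ᵥ (S *ᵥ y) := by
    intro y z
    rw [dotProduct_mulVec, ← mulVec_transpose, dotProduct_comm]
    have : Sᵀ = S := by
      have := hS.eq
      rwa [conjTranspose_eq_transpose_of_trivial] at this
    rw [this]
  have hw : ∀ α β : ℝ, (α • v + β • x) ⬝ᵥ (S *ᵥ (α • v + β • x)) = β ^ 2 * (R * (x ⬝ᵥ x)) := by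
    intro α β
    rw [mulVec_add, mulVec_smul, mulVec_smul, hv, smul_zero, zero_add, add_dotProduct,
      smul_dotProduct, smul_dotProduct, dotProduct_smul, dotProduct_smul, hsym v x, hv, hRx]
    simp only [dotProduct_zero, smul_eq_mul]
    ring
  have hww : ∀ α β : ℝ, (α • v + β • x) ⬝ᵥ (α • v + β • x) =
      α ^ 2 * (v ⬝ᵥ v) + β ^ 2 * (x ⬝ᵥ x) := by
    intro α β
    rw [add_dotProduct, dotProduct_add, dotProduct_add, smul_dotProduct, smul_dotProduct,
      smul_dotProduct, smul_dotProduct, dotProduct_smul, dotProduct_smul, dotProduct_smul,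
      dotProduct_smul, dotProduct_comm x v, hx]
    simp only [smul_eq_mul]
    ring
  -- a nonzero vector of the span with no component on the exceptional eigenvector
  have hex : ∃ α β : ℝ, (α ≠ 0 ∨ β ≠ 0) ∧
      ∀ k, lam k ≤ R → b k ⬝ᵥ (α • v + β • x) = 0 := by
    by_cases hk : ∃ k, lam k ≤ R
    · obtain ⟨k, hk⟩ := hk
      by_cases h0 : b k ⬝ᵥ v = 0
      · refine ⟨1, 0, Or.inl one_ne_zero, fun l hl => ?_⟩
        rw [hone l k hl hk]
        simp [h0]
      · refine ⟨b k ⬝ᵥ x, -(b k ⬝ᵥ v), Or.inr (neg_ne_zero.mpr h0), fun l hl => ?_⟩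
        rw [hone l k hl hk, dotProduct_add, dotProduct_smul, dotProduct_smul]
        simp only [smul_eq_mul]
        ring
    · refine ⟨1, 0, Or.inl one_ne_zero, fun l hl => absurd ⟨l, hl⟩ hk⟩
  obtain ⟨α, β, hαβ, hcomp⟩ := hex
  set w := α • v + β • x with hwdef
  have e1 : w ⬝ᵥ w = ∑ k, (b k ⬝ᵥ w) ^ 2 := by
    conv_lhs => rw [h4 w]
    exact dot_self_eq h3 _
  have e2 : w ⬝ᵥ (S *ᵥ w) = ∑ k, lam k * (b k ⬝ᵥ w) ^ 2 := by
    conv_lhs => rw [h4 w]
    exact form_eq h2 h3 _
  have hpos : 0 < w ⬝ᵥ w := by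
    rw [hww]
    rcases hαβ with h | h
    · have := mul_pos (pow_pos (abs_pos.mpr h) 2) hvv
      rw [sq_abs] at this
      have := mul_nonneg (sq_nonneg β) hxx.le
      linarith
    · have := mul_pos (pow_pos (abs_pos.mpr h) 2) hxx
      rw [sq_abs] at this
      have := mul_nonneg (sq_nonneg α) hvv.le
      linarith
  have hup : w ⬝ᵥ (S *ᵥ w) ≤ R * (w ⬝ᵥ w) := by
    rw [hw, hww]
    have h9 : 0 ≤ R * (α ^ 2 * (v ⬝ᵥ v)) := mul_nonneg hR0 (mul_nonneg (sq_nonneg α) hvv.le)
    nlinarith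
  have hlow : R * (w ⬝ᵥ w) < w ⬝ᵥ (S *ᵥ w) := by
    rw [e1] at hpos
    rw [e1, e2, Finset.mul_sum]
    obtain ⟨k, hk⟩ : ∃ k, (b k ⬝ᵥ w) ^ 2 ≠ 0 := by
      by_contra h
      push Not at h
      rw [Finset.sum_eq_zero (fun k _ => h k)] at hpos
      exact lt_irrefl _ hpos
    refine Finset.sum_lt_sum (fun l _ => ?_) ⟨k, Finset.mem_univ k, ?_⟩
    · by_cases hl : lam l ≤ R
      · rw [hcomp l hl]; simp
      · push Not at hl
        exact mul_le_mul_of_nonneg_right hl.le (sq_nonneg _)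
    · have hk1 : R < lam k := by
        by_contra hl
        push Not at hl
        apply hk
        rw [hcomp k hl]; simp
      exact mul_lt_mul_of_pos_right hk1 (lt_of_le_of_ne (sq_nonneg _) (Ne.symm hk))
  linarith

/-- A crude bound. -/
theorem abs_secondEig_le (hn : 2 ≤ n) (hS : S.IsHermitian) (hent : ∀ i j, |S i j| ≤ 1) :
    |secondEig S| ≤ n := by
  classical
  obtain ⟨lam, b, i, j, h2, h3, h4, hij, h5, h6⟩ := secondEig_spec hn hS
  have hev : ∀ k, |lam k| ≤ n := by
    intro k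
    have e1 : lam k = b k ⬝ᵥ (S *ᵥ b k) := by
      rw [h2, dotProduct_smul, h3, if_pos rfl]; simp
    have e3 : ∑ i, b k i ^ 2 = 1 := by
      have := h3 k k
      rw [if_pos rfl] at this
      rw [← this]
      exact Finset.sum_congr rfl (fun i _ => sq (b k i))
    rw [e1]
    calc |b k ⬝ᵥ (S *ᵥ b k)| = |∑ i, ∑ j, b k i * (S i j * b k j)| := by
          congr 1
          simp only [dotProduct, mulVec, Finset.mul_sum]
      _ ≤ ∑ i, ∑ j, |b k i| * |b k j| := by
          refine (Finset.abs_sum_le_sum_abs _ _).trans (Finset.sum_le_sum (fun i _ => ?_))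
          refine (Finset.abs_sum_le_sum_abs _ _).trans (Finset.sum_le_sum (fun j _ => ?_))
          rw [abs_mul, abs_mul]
          have := hent i j
          have h7 := abs_nonneg (b k j)
          exact mul_le_mul_of_nonneg_left (by nlinarith) (abs_nonneg _)
      _ = (∑ i, |b k i|) ^ 2 := by
          rw [sq, Finset.sum_mul_sum]
      _ ≤ (Finset.univ : Finset (Fin n)).card * ∑ i, |b k i| ^ 2 := sq_sum_le_card_mul_sum_sq
      _ = n := by
          simp only [sq_abs]
          rw [e3]; simp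
  rw [h5]
  rcases max_choice (lam i) (lam j) with h | h <;> rw [h] <;> exact hev _

end variational

end Pool.Agent.MP_332c83_pr
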