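import Pool.Agent.MP_332c83_pr.Bridge

set_option autoImplicit false

/-!
# Edges whose deletion raises the gap by a multiple of `1 / n ^ 2`
-/

open Matrix

namespace Pool.Agent.MP_332c83_pr

variable {n : ℕ} {p K κ δ : ℝ} {s : Finset (Sym2 (Fin n))}

open scoped Classical in
/-- Indicator of an edge whose deletion lowers `TT` by at least `η`. -/
noncomputable def nu (η : ℝ) (s : Finset (Sym2 (Fin n))) (u v : Fin n) : ℝ :=
  if u ≠ v ∧ s(u, v) ∈ s ∧ TT (gr (s.erase s(u, v))) ≤ TT (gr s) - η then 1 else 0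

theorem nu_nonneg (η : ℝ) (s : Finset (Sym2 (Fin n))) (u v : Fin n) : 0 ≤ nu η s u v := by
  unfold nu; split_ifs <;> norm_num

/-- Main deterministic theorem, general lower bound and gain. -/
theorem total_ge_up (h : Typ p K κ δ (gr s)) (hp : 0 < p) (hp1 : p < 1) (hn : 2 ≤ n) (hK : 1 ≤ K)
    (hκ0 : 0 ≤ κ) (hδ : 0 < δ) (hnp : 32 ≤ n * p)
    {c1 l1 K1 η : ℝ} (hη : η ≤ l1 ^ 2 / (2 * n ^ 2)) (hc1 : 0 < c1) (hl1 : 0 < l1) (hK1 : 0 < K1)
    (hK1' : 8 / (p * δ) ≤ K1 ^ 2)
    (hT : c1 / Real.sqrt n ≤ TT (gr s))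
    (hκ : 2 * κ / p ≤ c1 / 4) (hl : 2 * K * Real.sqrt (2 / p) * l1 + K * l1 ^ 2 ≤ c1 / 4)
    (hr1 : 32 * K ^ 2 / p ^ 2 ≤ c1 * Real.sqrt n)
    (hr2 : 4 * K / p ≤ Real.sqrt n)
    (hr3 : 8 * (K + 1) / (p * δ) ≤ Real.sqrt n)
    (hr4 : 8 * K / p * K1 ^ 2 ≤ l1 ^ 2 * Real.sqrt n) :
    -((4 * (1 + 4 * K / p) + 160 / p ^ 2) / Real.sqrt n) ≤ total p s ∧
    (∑ u, ∑ v, nu η s u v ≤ p * δ ^ 2 / 64 * n ^ 2 →
      (1 - p) * p * l1 ^ 2 * δ ^ 2 / 128 - (4 * (1 + 4 * K / p) + 160 / p ^ 2) / Real.sqrt n ≤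
        total p s) := by
  classical
  have hn0 : (0 : ℝ) < n := by positivity
  have hpos : ∀ i, 0 < dg (gr s) i := fun i => lt_of_lt_of_le (by linarith) (h.deg i)
  have hr0 : 0 < Real.sqrt n := Real.sqrt_pos.mpr hn0
  have hT0 : 0 ≤ TT (gr s) := le_trans (by positivity) hT
  have hTu := h.TT_le hp hn (by linarith) hr2 hpos
  obtain ⟨y, hlin, hD, hA⟩ := exists_extremal hpos hn
  have hsum := sum_low_ge h hp hn (by linarith) hT0 hTu hD hA
  have hcard := h.card_large hp hn hK hκ0 hc1 hl1 hT hκ hl hr1 hlin hD hA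
  obtain ⟨S, hS1, hS2, hS3⟩ := h.exists_set hp hn hδ hl1 hK1 hK1' hD hcard
  have hpairs := h.pairs_in_set hp hp1 hn hK hδ hr3 S hS1
  refine ⟨hsum.trans ?_, fun hNL => ?_⟩
  · refine Finset.sum_le_sum (fun u _ => Finset.sum_le_sum (fun v _ => ?_))
    split_ifs with huv
    · simp [term, huv]
    · exact low_le_term h hp hp1 hn hnp hT0 hlin hD hA huv
  · set g : ℝ := (1 - p) * (l1 ^ 2 / (2 * n ^ 2)) with hg
    have hg0 : 0 ≤ g := mul_nonneg (by linarith) (by positivity)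
    -- pointwise improved bound
    have hpt : ∀ u v, (if u = v then 0 else low p s y u v) +
        g * (if u ∈ S then (if v ∈ S then (adj (gr s) u v - nu η s u v) else 0) else 0) ≤
        term p s u v := by
      intro u v
      by_cases huv : u = v
      · subst huv
        simp [term, adj_self, nu]
      · rw [if_neg huv]
        have hbase := low_le_term h hp hp1 hn hnp hT0 hlin hD hA huv
        by_cases hu : u ∈ S
        · by_cases hv : v ∈ S
          · rw [if_pos hu, if_pos hv]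
            by_cases hmem : s(u, v) ∈ s
            · have hadj : adj (gr s) u v = 1 := by rw [adj_gr, if_pos ⟨hmem, huv⟩]
              by_cases hle : TT (gr (s.erase s(u, v))) ≤ TT (gr s) - η
              · have hnl : nu η s u v = 1 := by
                  unfold nu; rw [if_pos ⟨huv, hmem, hle⟩]
                rw [hadj, hnl]
                linarith
              · have hnl : nu η s u v = 0 := by
                  unfold nu; rw [if_neg (fun hh => hle hh.2.2)]
                push Not at hle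
                have hterm : -g ≤ term p s u v := by
                  unfold term
                  rw [if_neg huv, if_pos hmem]
                  have ha : -(l1 ^ 2 / (2 * n ^ 2)) ≤
                      TT (gr (s.erase s(u, v))) - TT (gr s) := by linarith
                  have hb := mul_le_mul_of_nonneg_left ha (by linarith : (0 : ℝ) ≤ 1 - p)
                  rw [hg]
                  linarith
                have hg2 : 2 * g = (1 - p) * (l1 ^ 2 / n ^ 2) := by
                  rw [hg]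
                  field_simp
                have hlow : low p s y u v ≤ -(2 * g) := by
                  unfold low
                  rw [hadj]
                  have h1 := hS2 u hu v hv
                  have h2 := hS3 u hu
                  have h3 := hS3 v hv
                  have h4 : TT (gr s) * (y u ^ 2 + y v ^ 2) ≤ l1 ^ 2 / n ^ 2 := by
                    have h5 : TT (gr s) * (y u ^ 2 + y v ^ 2) ≤
                        (4 * K / p / Real.sqrt n) * (2 * (K1 ^ 2 / n ^ 2)) := by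
                      apply mul_le_mul hTu (by linarith) (by positivity) (by positivity)
                    refine h5.trans ?_
                    have h6 : (4 * K / p / Real.sqrt n) * (2 * (K1 ^ 2 / n ^ 2)) =
                        (8 * K / p * K1 ^ 2) / Real.sqrt n / n ^ 2 := by ring
                    rw [h6]
                    gcongr
                    rw [div_le_iff₀ hr0]
                    exact hr4
                  have h7 : l1 ^ 2 / n ^ 2 ≤ 2 * (y u * y v) -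
                      TT (gr s) * (y u ^ 2 + y v ^ 2) := by linarith
                  have h8 : 2 * g ≤ (1 - p) * (2 * (y u * y v) -
                      TT (gr s) * (y u ^ 2 + y v ^ 2)) := by
                    rw [hg2]
                    exact mul_le_mul_of_nonneg_left h7 (by linarith)
                  have h9 : 0 ≤ 8 / (n ^ 2 * p) * (y u ^ 2 + y v ^ 2) := by positivity
                  have h10 : 0 ≤ 8 * (y u ^ 2 + y v ^ 2) ^ 2 := by positivity
                  have h11 : (2 * (y u * y v) - TT (gr s) * (y u ^ 2 + y v ^ 2)) * (p - 1) =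
                      -((1 - p) * (2 * (y u * y v) - TT (gr s) * (y u ^ 2 + y v ^ 2))) := by
                    ring
                  rw [h11]
                  linarith
                rw [hadj, hnl]
                linarith
            · have hadj : adj (gr s) u v = 0 := by
                rw [adj_gr, if_neg]; exact fun h => hmem h.1
              have := nu_nonneg η s u v
              rw [hadj]
              have := mul_nonneg hg0 this
              linarith
          · rw [if_pos hu, if_neg hv]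
            linarith
        · rw [if_neg hu]
          linarith
    have h1 : ∑ u, ∑ v, (if u = v then 0 else low p s y u v) +
        g * (∑ u ∈ S, ∑ v ∈ S, adj (gr s) u v - ∑ u ∈ S, ∑ v ∈ S, nu η s u v) ≤ total p s := by
      have h2 : g * (∑ u ∈ S, ∑ v ∈ S, adj (gr s) u v - ∑ u ∈ S, ∑ v ∈ S, nu η s u v) =
          ∑ u, ∑ v, g * (if u ∈ S then (if v ∈ S then (adj (gr s) u v - nu η s u v) else 0)
            else 0) := by
        have h3 : ∀ u, ∑ v, g * (if u ∈ S then (if v ∈ S then (adj (gr s) u v - nu η s u v) else 0)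
            else 0) = if u ∈ S then g * ∑ v ∈ S, (adj (gr s) u v - nu η s u v) else 0 := by
          intro u
          by_cases hu : u ∈ S
          · simp only [if_pos hu, ← Finset.mul_sum]
            congr 1
            rw [Finset.sum_ite_mem, Finset.univ_inter]
          · simp [if_neg hu]
        rw [Finset.sum_congr rfl (fun u _ => h3 u), Finset.sum_ite_mem, Finset.univ_inter,
          ← Finset.mul_sum]
        congr 1
        rw [← Finset.sum_sub_distrib]
        exact Finset.sum_congr rfl (fun u _ => by rw [← Finset.sum_sub_distrib])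
      rw [h2, ← Finset.sum_add_distrib]
      unfold total
      refine Finset.sum_le_sum (fun u _ => ?_)
      rw [← Finset.sum_add_distrib]
      exact Finset.sum_le_sum (fun v _ => hpt u v)
    have h2 : ∑ u ∈ S, ∑ v ∈ S, nu η s u v ≤ ∑ u, ∑ v, nu η s u v := by
      calc ∑ u ∈ S, ∑ v ∈ S, nu η s u v ≤ ∑ u ∈ S, ∑ v, nu η s u v :=
            Finset.sum_le_sum (fun u _ => Finset.sum_le_sum_of_subset_of_nonneg
              (Finset.subset_univ _) (fun v _ _ => nu_nonneg η s u v))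
        _ ≤ _ := Finset.sum_le_sum_of_subset_of_nonneg (Finset.subset_univ _)
              (fun u _ _ => Finset.sum_nonneg (fun v _ => nu_nonneg η s u v))
    have h3 : p * δ ^ 2 * n ^ 2 / 64 ≤
        ∑ u ∈ S, ∑ v ∈ S, adj (gr s) u v - ∑ u ∈ S, ∑ v ∈ S, nu η s u v := by
      have : p * δ ^ 2 * n ^ 2 / 32 = p * δ ^ 2 * n ^ 2 / 64 + p * δ ^ 2 / 64 * n ^ 2 := by ring
      linarith
    have h4 := mul_le_mul_of_nonneg_left h3 hg0
    have h5 : g * (p * δ ^ 2 * n ^ 2 / 64) = (1 - p) * p * l1 ^ 2 * δ ^ 2 / 128 := by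
      rw [hg]; field_simp; ring
    linarith

open scoped Classical in
theorem bad_step_up (hp : 0 < p) (hp1 : p < 1) {K κ δ p0 c1 l1 K1 η : ℝ}
    (hη : η ≤ l1 ^ 2 / (2 * n ^ 2)) (hK : 1 ≤ K) (hκ0 : 0 ≤ κ)
    (hδ : 0 < δ) (hp0 : 0 < p0) (hp0p : p0 ≤ p) (hp0q : p0 ≤ 1 - p)
    (hc1 : c1 = K * p0 ^ 2 / (4 * (K ^ 2 + 1))) (hc1' : 0 < c1) (hl1 : 0 < l1) (hK1 : 0 < K1)
    (hK1' : 8 / (p * δ) ≤ K1 ^ 2)
    (hκ : 2 * κ / p ≤ c1 / 4) (hl : 2 * K * Real.sqrt (2 / p) * l1 + K * l1 ^ 2 ≤ c1 / 4)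
    (hn : 4 ≤ n) (hnp : 32 ≤ n * p)
    (hr0 : 17 * p + 4 * K ^ 2 / p ≤ c1 * Real.sqrt n)
    (hr1 : 32 * K ^ 2 / p ^ 2 ≤ c1 * Real.sqrt n)
    (hr2 : 4 * K / p ≤ Real.sqrt n)
    (hr3 : 8 * (K + 1) / (p * δ) ≤ Real.sqrt n)
    (hr4 : 8 * K / p * K1 ^ 2 ≤ l1 ^ 2 * Real.sqrt n) :
    ((1 - p) * p * l1 ^ 2 * δ ^ 2 / 128) * ex p (fun s : Finset (Sym2 (Fin n)) =>
      if ∑ u, ∑ v, nu η s u v ≤ p * δ ^ 2 / 64 * n ^ 2 then 1 else 0) ≤
    (4 * (1 + 4 * K / p) + 160 / p ^ 2) / Real.sqrt n +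
      (n ^ 2 * (2 * (n + 1)) + (1 - p) * p * l1 ^ 2 * δ ^ 2 / 128) *
        ex p (fun s : Finset (Sym2 (Fin n)) => if Typ p K κ δ (gr s) then 0 else 1) := by
  set c3 : ℝ := (1 - p) * p * l1 ^ 2 * δ ^ 2 / 128 with hc3
  set C3 : ℝ := (4 * (1 + 4 * K / p) + 160 / p ^ 2) / Real.sqrt n with hC3
  have h1p : 0 < 1 - p := by linarith
  have hc30 : 0 ≤ c3 := by positivity
  have hC30 : 0 ≤ C3 := by positivity
  have hn2 : 2 ≤ n := by omega
  set M : ℝ := n ^ 2 * (2 * (n + 1)) with hM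
  have h0 := ex_total (n := n) (p := p)
  have h1 : ex p (fun s : Finset (Sym2 (Fin n)) =>
      c3 * (if ∑ u, ∑ v, nu η s u v ≤ p * δ ^ 2 / 64 * n ^ 2 then 1 else 0) + (-C3) * 1 +
      (-(M + c3)) * (if Typ p K κ δ (gr s) then 0 else 1)) ≤
      ex p (total p : Finset (Sym2 (Fin n)) → ℝ) := by
    refine ex_mono hp.le hp1.le (fun s _ => ?_)
    have hnn : (0 : ℝ) ≤ (if ∑ u, ∑ v, nu η s u v ≤ p * δ ^ 2 / 64 * n ^ 2 then 1 else 0) ∧
        (if ∑ u, ∑ v, nu η s u v ≤ p * δ ^ 2 / 64 * n ^ 2 then (1 : ℝ) else 0) ≤ 1 := by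
      split_ifs <;> norm_num
    by_cases hT : Typ p K κ δ (gr s)
    · rw [if_pos hT]
      have hpos : ∀ i, 0 < dg (gr s) i := fun i => lt_of_lt_of_le (by linarith) (hT.deg i)
      have hTT : c1 / Real.sqrt n ≤ TT (gr s) := by
        rw [hc1]
        exact hT.TT_ge hp hp1 hn2 hK hpos hp0 hp0p hp0q (by rw [← hc1]; exact hr0)
      have h2 := total_ge_up hT hp hp1 hn2 hK hκ0 hδ hnp hη hc1' hl1 hK1 hK1' hTT hκ hl hr1 hr2 hr3 hr4
      by_cases hbad : ∑ u, ∑ v, nu η s u v ≤ p * δ ^ 2 / 64 * n ^ 2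
      · rw [if_pos hbad]
        have := h2.2 hbad
        linarith
      · rw [if_neg hbad]
        have := h2.1
        linarith
    · rw [if_neg hT]
      have h2 := total_ge_trivial hp.le hp1.le hn2 s
      have h3 := mul_le_mul_of_nonneg_left hnn.2 hc30
      linarith
  rw [h0, ex_add, ex_add, ex_mul, ex_mul, ex_mul, ex_one] at h1
  linarith

theorem pow_exp_le {a : ℝ} (ha : 0 < a) {n : ℕ} (hn : 1 ≤ n) :
    (n : ℝ) ^ 4 * Real.exp (-(a * n)) ≤ 120 / a ^ 5 / Real.sqrt n := by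
  have hn1 : (1 : ℝ) ≤ n := by exact_mod_cast hn
  have hn0 : (0 : ℝ) < n := by linarith
  have h1 := Real.pow_div_factorial_le_exp (a * n) (by positivity) 5
  have h2 : ((Nat.factorial 5 : ℕ) : ℝ) = 120 := by norm_num [Nat.factorial]
  rw [h2] at h1
  have h3 : Real.exp (-(a * n)) ≤ 120 / (a * n) ^ 5 := by
    rw [Real.exp_neg, inv_le_comm₀ (Real.exp_pos _) (by positivity), inv_div]
    exact h1
  have h4 : Real.sqrt n ≤ n := by
    rw [Real.sqrt_le_left hn0.le]
    nlinarith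
  have hs0 : 0 < Real.sqrt n := Real.sqrt_pos.mpr hn0
  calc (n : ℝ) ^ 4 * Real.exp (-(a * n)) ≤ n ^ 4 * (120 / (a * n) ^ 5) :=
        mul_le_mul_of_nonneg_left h3 (by positivity)
    _ = 120 / a ^ 5 / n := by field_simp
    _ ≤ 120 / a ^ 5 / Real.sqrt n := by gcongr

open scoped Classical in
/-- The rate. -/
theorem up_rate (hp : 0 < p) (hp1 : p < 1) : ∃ c : ℝ, 0 < c ∧ ∃ C : ℝ, 0 < C ∧
    ∀ n : ℕ, 1 ≤ n → ex p (fun s : Finset (Sym2 (Fin n)) =>
      if (∀ i, 2 ≤ dg (gr s) i) ∧ c * n ^ 2 < ∑ u, ∑ v, nu (c / n ^ 2) s u v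
        then (0 : ℝ) else 1) ≤ C / Real.sqrt n := by
  have h1p : 0 < 1 - p := by linarith
  set K : ℝ := 26 with hK
  set p0 : ℝ := min p (1 - p) with hp0
  have hp00 : 0 < p0 := lt_min hp h1p
  set c1 : ℝ := K * p0 ^ 2 / (4 * (K ^ 2 + 1)) with hc1
  have hK0 : 0 < K := by rw [hK]; norm_num
  have hc10 : 0 < c1 := by positivity
  set κ : ℝ := p * c1 / 8 with hκ
  have hκ0 : 0 < κ := by positivity
  obtain ⟨δ, hδ, hfail⟩ := typ_fail hp hp1 hκ0
  set K1 : ℝ := Real.sqrt (8 / (p * δ)) with hK1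
  have hK10 : 0 < K1 := Real.sqrt_pos.mpr (by positivity)
  have hK12 : K1 ^ 2 = 8 / (p * δ) := Real.sq_sqrt (by positivity)
  set D : ℝ := 2 * K * Real.sqrt (2 / p) + K with hD
  have hD0 : 0 < D := by positivity
  set l1 : ℝ := min 1 (c1 / (4 * D)) with hl1
  have hl10 : 0 < l1 := lt_min one_pos (by positivity)
  have hl11 : l1 ≤ 1 := min_le_left _ _
  have hl12 : l1 ≤ c1 / (4 * D) := min_le_right _ _
  have hl : 2 * K * Real.sqrt (2 / p) * l1 + K * l1 ^ 2 ≤ c1 / 4 := by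
    have h1 : l1 ^ 2 ≤ l1 := by
      rw [sq]
      exact mul_le_of_le_one_left hl10.le hl11
    have h2 : 2 * K * Real.sqrt (2 / p) * l1 + K * l1 ^ 2 ≤ D * l1 := by
      have := mul_le_mul_of_nonneg_left h1 hK0.le
      rw [hD]; linarith
    have h3 : D * l1 ≤ D * (c1 / (4 * D)) := mul_le_mul_of_nonneg_left hl12 hD0.le
    have h4 : D * (c1 / (4 * D)) = c1 / 4 := by field_simp
    linarith
  have hκ' : 2 * κ / p ≤ c1 / 4 := by
    rw [hκ]; apply le_of_eq; field_simp; ring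
  set c : ℝ := min (p * δ ^ 2 / 64) (l1 ^ 2 / 2) with hc
  have hc0 : 0 < c := lt_min (by positivity) (by positivity)
  refine ⟨c, hc0, ?_⟩
  set c3 : ℝ := (1 - p) * p * l1 ^ 2 * δ ^ 2 / 128 with hc3
  have hc30 : 0 < c3 := by positivity
  set C3 : ℝ := 4 * (1 + 4 * K / p) + 160 / p ^ 2 with hC3
  have hC30 : 0 < C3 := by positivity
  set a : ℝ := min (p ^ 2 / 64) (min 3 (κ ^ 2 / 64)) with ha
  have ha0 : 0 < a := lt_min (by positivity) (lt_min (by norm_num) (by positivity))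
  have ha1 : a ≤ p ^ 2 / 64 := min_le_left _ _
  have ha2 : a ≤ 3 := (min_le_right _ _).trans (min_le_left _ _)
  have ha3 : a ≤ κ ^ 2 / 64 := (min_le_right _ _).trans (min_le_right _ _)
  set R2 : ℝ := 32 / p with hR2
  set R3 : ℝ := (17 * p + 4 * K ^ 2 / p) / c1 with hR3
  set R4 : ℝ := (32 * K ^ 2 / p ^ 2) / c1 with hR4
  set R5 : ℝ := 4 * K / p with hR5
  set R6 : ℝ := 8 * (K + 1) / (p * δ) with hR6
  set R7 : ℝ := (8 * K / p * K1 ^ 2) / l1 ^ 2 with hR7
  have r2 : 0 < R2 := by positivity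
  have r3 : 0 < R3 := by positivity
  have r4 : 0 < R4 := by positivity
  have r5 : 0 < R5 := by positivity
  have r6 : 0 < R6 := by positivity
  have r7 : 0 < R7 := by positivity
  set R : ℝ := 2 + R2 + R3 + R4 + R5 + R6 + R7 with hR
  set X : ℝ := C3 / c3 + (4 + 2 * c3) * 5 / c3 * (120 / a ^ 5) with hX
  have hX0 : 0 < X := by positivity
  refine ⟨R + X, by linarith, fun n hn1 => ?_⟩
  have hn1' : (1 : ℝ) ≤ n := by exact_mod_cast hn1
  have hn0 : (0 : ℝ) < n := by linarith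
  have hs0 : 0 < Real.sqrt n := Real.sqrt_pos.mpr hn0
  have hsn : Real.sqrt n * Real.sqrt n = n := Real.mul_self_sqrt hn0.le
  have hs1 : 1 ≤ Real.sqrt n := Real.one_le_sqrt.mpr hn1'
  have hsle : Real.sqrt n ≤ n := by
    have h1 := mul_le_mul_of_nonneg_left hs1 hs0.le
    rwa [mul_one, hsn] at h1
  have hpt : ∀ s : Finset (Sym2 (Fin n)), (if (∀ i, 2 ≤ dg (gr s) i) ∧
      c * n ^ 2 < ∑ u, ∑ v, nu (c / n ^ 2) s u v then (0 : ℝ) else 1) ≤ 1 := by
    intro s
    split_ifs <;> norm_num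
  by_cases hRn : R ≤ Real.sqrt n
  swap
  · rw [not_le] at hRn
    have h1 : ex p (fun s : Finset (Sym2 (Fin n)) =>
        if (∀ i, 2 ≤ dg (gr s) i) ∧ c * n ^ 2 < ∑ u, ∑ v, nu (c / n ^ 2) s u v
          then (0 : ℝ) else 1) ≤ 1 := by
      refine le_trans (ex_mono hp.le hp1.le (fun s _ => hpt s)) (ex_one (n := n) (p := p)).le
    refine h1.trans ?_
    rw [le_div_iff₀ hs0]
    linarith
  have e1 : 4 ≤ n := by
    have h1 : (2 : ℝ) ≤ Real.sqrt n := by linarith
    have h2 := mul_self_le_mul_self (by norm_num : (0 : ℝ) ≤ 2) h1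
    rw [hsn] at h2
    have h3 : (4 : ℝ) ≤ n := by linarith
    exact_mod_cast h3
  have hnp : 32 ≤ n * p := by
    have h1 : 32 / p ≤ n := by rw [← hR2]; linarith
    exact (div_le_iff₀ hp).mp h1
  have hηl : c / n ^ 2 ≤ l1 ^ 2 / (2 * n ^ 2) := by
    have h1 : c ≤ l1 ^ 2 / 2 := min_le_right _ _
    have h2 : l1 ^ 2 / (2 * n ^ 2) = l1 ^ 2 / 2 / n ^ 2 := by
      rw [div_div]
    rw [h2]
    gcongr
  have hstep := bad_step_up (n := n) hp hp1 (K := K) (κ := κ) (δ := δ) (p0 := p0) (c1 := c1)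
    (l1 := l1) (K1 := K1) (η := c / n ^ 2) hηl (by rw [hK]; norm_num) hκ0.le hδ hp00
    (min_le_left _ _) (min_le_right _ _) hc1 hc10 hl10 hK10 hK12.ge hκ' hl e1 hnp
    (by rw [mul_comm c1]; exact (div_le_iff₀ hc10).mp (by rw [← hR3]; linarith))
    (by rw [mul_comm c1]; exact (div_le_iff₀ hc10).mp (by rw [← hR4]; linarith))
    (by rw [← hR5]; linarith) (by rw [← hR6]; linarith)
    (by rw [mul_comm (l1 ^ 2)]; exact (div_le_iff₀ (by positivity)).mp (by rw [← hR7]; linarith))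
  rw [← hC3, ← hc3] at hstep
  have hf := hfail n e1
  have hf1 : Real.exp (-(n * p ^ 2 / 64)) ≤ Real.exp (-(a * n)) := by
    apply Real.exp_le_exp.mpr
    have := mul_le_mul_of_nonneg_right ha1 hn0.le
    linarith
  have hf2 : Real.exp (-(3 * (n : ℝ))) ≤ Real.exp (-(a * n)) := by
    apply Real.exp_le_exp.mpr
    have := mul_le_mul_of_nonneg_right ha2 hn0.le
    linarith
  have hf3 : Real.exp (-(κ ^ 2 * n / 64)) ≤ Real.exp (-(a * n)) := by
    apply Real.exp_le_exp.mpr
    have := mul_le_mul_of_nonneg_right ha3 hn0.le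
    linarith
  have he0 := Real.exp_pos (-(a * n))
  have hf4 : ex p (fun s : Finset (Sym2 (Fin n)) => if Typ p K κ δ (gr s) then 0 else 1) ≤
      5 * (n * Real.exp (-(a * n))) := by
    refine hf.trans ?_
    have h1 := mul_le_mul_of_nonneg_left hf1 hn0.le
    have h2 : Real.exp (-(a * n)) ≤ n * Real.exp (-(a * n)) :=
      le_mul_of_one_le_left he0.le hn1'
    linarith
  -- the bad event
  set B : ℝ := ex p (fun s : Finset (Sym2 (Fin n)) =>
    if ∑ u, ∑ v, nu (c / n ^ 2) s u v ≤ p * δ ^ 2 / 64 * n ^ 2 then (1 : ℝ) else 0) with hB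
  set F : ℝ := ex p (fun s : Finset (Sym2 (Fin n)) =>
    if Typ p K κ δ (gr s) then (0 : ℝ) else 1) with hF
  have hbad : ex p (fun s : Finset (Sym2 (Fin n)) =>
      if (∀ i, 2 ≤ dg (gr s) i) ∧ c * n ^ 2 < ∑ u, ∑ v, nu (c / n ^ 2) s u v
        then (0 : ℝ) else 1) ≤ B + F := by
    rw [hB, hF, ← ex_add]
    refine ex_mono hp.le hp1.le (fun s _ => ?_)
    by_cases hT : Typ p K κ δ (gr s)
    · rw [if_pos hT]
      by_cases hs : ∑ u, ∑ v, nu (c / n ^ 2) s u v ≤ p * δ ^ 2 / 64 * n ^ 2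
      · rw [if_pos hs]
        have := hpt s
        linarith
      · rw [if_neg hs, if_pos]
        · norm_num
        refine ⟨fun i => le_trans (by linarith) (hT.deg i), ?_⟩
        rw [not_le] at hs
        refine lt_of_le_of_lt ?_ hs
        exact mul_le_mul_of_nonneg_right (min_le_left _ _) (by positivity)
    · rw [if_neg hT]
      have := hpt s
      have h2 : (0 : ℝ) ≤ (if ∑ u, ∑ v, nu (c / n ^ 2) s u v ≤ p * δ ^ 2 / 64 * n ^ 2
        then (1 : ℝ) else 0) := by split_ifs <;> norm_num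
      linarith
  refine hbad.trans ?_
  have hpoly : (n : ℝ) ^ 2 * (2 * (n + 1)) + c3 + c3 ≤ (4 + 2 * c3) * n ^ 3 := by
    have h1 : (1 : ℝ) ≤ n ^ 3 := one_le_pow₀ hn1'
    have h2 : (n : ℝ) ^ 2 ≤ n ^ 3 := pow_le_pow_right₀ hn1' (by norm_num)
    have h3 := mul_le_mul_of_nonneg_left h1 hc30.le
    have h4 : (n : ℝ) ^ 2 * (2 * (n + 1)) = 2 * n ^ 3 + 2 * n ^ 2 := by ring
    have h5 : (4 + 2 * c3) * (n : ℝ) ^ 3 = 4 * n ^ 3 + 2 * (c3 * n ^ 3) := by ring
    rw [h4, h5]
    linarith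
  have hF0 : 0 ≤ F := by
    rw [hF]
    unfold ex
    exact Finset.sum_nonneg (fun s _ => mul_nonneg (wt_nonneg hp.le hp1.le s)
      (by dsimp only; split_ifs <;> norm_num))
  have h5 : c3 * (B + F) ≤ C3 / Real.sqrt n +
      (4 + 2 * c3) * 5 * ((n : ℝ) ^ 4 * Real.exp (-(a * n))) := by
    have h6 : ((n : ℝ) ^ 2 * (2 * (n + 1)) + c3 + c3) * F ≤
        ((4 + 2 * c3) * n ^ 3) * (5 * (n * Real.exp (-(a * n)))) :=
      (mul_le_mul_of_nonneg_right hpoly hF0).trans
        (mul_le_mul_of_nonneg_left hf4 (by positivity))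
    have h7 : ((4 + 2 * c3) * (n : ℝ) ^ 3) * (5 * (n * Real.exp (-(a * n)))) =
        (4 + 2 * c3) * 5 * ((n : ℝ) ^ 4 * Real.exp (-(a * n))) := by ring
    have h8 : c3 * (B + F) = c3 * B + c3 * F := by ring
    have h9 : ((n : ℝ) ^ 2 * (2 * (n + 1)) + c3 + c3) * F =
        ((n : ℝ) ^ 2 * (2 * (n + 1)) + c3) * F + c3 * F := by ring
    linarith
  have h10 := pow_exp_le ha0 hn1
  have h11 : c3 * (B + F) ≤ C3 / Real.sqrt n +
      (4 + 2 * c3) * 5 * (120 / a ^ 5 / Real.sqrt n) :=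
    h5.trans (by gcongr)
  have h12 : C3 / Real.sqrt n + (4 + 2 * c3) * 5 * (120 / a ^ 5 / Real.sqrt n) =
      c3 * (X / Real.sqrt n) := by
    rw [hX]; field_simp
  rw [h12] at h11
  have h13 : B + F ≤ X / Real.sqrt n := le_of_mul_le_mul_left h11 hc30
  refine h13.trans ?_
  gcongr
  have : 0 < R := by positivity
  linarith

open scoped Classical in
/-- Edges whose deletion lowers `TT` by at least `η`. -/
noncomputable def upset (η : ℝ) (s : Finset (Sym2 (Fin n))) : Finset (Sym2 (Fin n)) :=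
  s.filter (fun e => TT (gr (s.erase e)) ≤ TT (gr s) - η)

theorem sum_nu {s : Finset (Sym2 (Fin n))} (hs : s ⊆ EE n) (η : ℝ) :
    ∑ u, ∑ v, nu η s u v = 2 * ((upset η s).card : ℝ) := by
  classical
  have h1 := sum_offdiag_eq (fun e : Sym2 (Fin n) =>
    if e ∈ s ∧ TT (gr (s.erase e)) ≤ TT (gr s) - η then (1 : ℝ) else 0)
  have h2 : ∑ u, ∑ v, nu η s u v = ∑ u : Fin n, ∑ v : Fin n, (if u = v then 0 else
      (fun e : Sym2 (Fin n) => if e ∈ s ∧ TT (gr (s.erase e)) ≤ TT (gr s) - η then (1 : ℝ) else 0)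
        s(u, v)) := by
    refine Finset.sum_congr rfl (fun u _ => Finset.sum_congr rfl (fun v _ => ?_))
    unfold nu
    by_cases huv : u = v
    · simp [huv]
    · simp [huv]
  rw [h2, h1]
  congr 1
  have h3 : ∑ e ∈ EE n, (if e ∈ s ∧ TT (gr (s.erase e)) ≤ TT (gr s) - η then (1 : ℝ) else 0) =
      ∑ e ∈ s, (if TT (gr (s.erase e)) ≤ TT (gr s) - η then (1 : ℝ) else 0) := by
    rw [← Finset.sum_subset hs]
    · exact Finset.sum_congr rfl (fun e he => by simp [he])
    · intro e _ he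
      rw [if_neg (fun h => he h.1)]
  rw [h3]
  unfold upset
  rw [Finset.card_filter]
  push_cast
  rfl

theorem card_upset_ge {s : Finset (Sym2 (Fin n))} (hs : s ⊆ EE n) {c η : ℝ} (hc : 0 < c)
    (h : c * n ^ 2 < ∑ u, ∑ v, nu η s u v) : c * s.card ≤ (upset η s).card := by
  rw [sum_nu hs] at h
  have h1 : (s.card : ℝ) ≤ n ^ 2 / 2 :=
    le_trans (by exact_mod_cast Finset.card_le_card hs) (card_EE_le n)
  have h2 := mul_le_mul_of_nonneg_left h1 hc.le
  linarith

end Pool.Agent.MP_332c83_pr
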