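import Pool.Agent.MP_332c83_pr.Perturb

set_option autoImplicit false

/-!
# Deterministic analysis of typical graphs
-/

open Matrix

namespace Pool.Agent.MP_332c83_pr

variable {n : ℕ}

/-- The quadratic form of `A - p (J - I)`. -/
noncomputable def MM (p : ℝ) (H : SimpleGraph (Fin n)) (x : Fin n → ℝ) : ℝ :=
  qA H x - p * ((∑ i, x i) ^ 2 - ∑ i, x i ^ 2)

/-- The bilinear form of `A - p (J - I)`. -/
noncomputable def MB (p : ℝ) (H : SimpleGraph (Fin n)) (x z : Fin n → ℝ) : ℝ :=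
  SS H (fun i j => x i * z j) - p * ((∑ i, x i) * (∑ i, z i) - ∑ i, x i * z i)

theorem MM_comb (p : ℝ) (H : SimpleGraph (Fin n)) (t s : ℝ) (a b : Fin n → ℝ) :
    MM p H (fun i => t * a i + s * b i) =
      t ^ 2 * MM p H a + 2 * (t * s) * MB p H a b + s ^ 2 * MM p H b := by
  have h0 : SS H (fun i j => a i * b j) = SS H (fun i j => b i * a j) := by
    rw [← SS_comm H (fun i j => b i * a j)]
    simp only [mul_comm]
  have h1 : qA H (fun i => t * a i + s * b i) = t ^ 2 * qA H a +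
      (t * s) * SS H (fun i j => a i * b j) + (t * s) * SS H (fun i j => b i * a j) +
      s ^ 2 * qA H b := by
    unfold qA SS
    simp only [Finset.mul_sum, ← Finset.sum_add_distrib]
    refine Finset.sum_congr rfl (fun i _ => Finset.sum_congr rfl (fun j _ => by ring))
  have h2 : ∑ i, (t * a i + s * b i) = t * ∑ i, a i + s * ∑ i, b i := by
    simp only [Finset.mul_sum, ← Finset.sum_add_distrib]
  have h3 : ∑ i, (t * a i + s * b i) ^ 2 = t ^ 2 * ∑ i, a i ^ 2 + 2 * (t * s) * ∑ i, a i * b i +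
      s ^ 2 * ∑ i, b i ^ 2 := by
    simp only [Finset.mul_sum, ← Finset.sum_add_distrib]
    exact Finset.sum_congr rfl (fun i _ => by ring)
  unfold MM MB
  rw [h1, h2, h3, ← h0]
  ring

theorem sumsq_comb (t s : ℝ) (a b : Fin n → ℝ) :
    ∑ i, (t * a i + s * b i) ^ 2 = t ^ 2 * ∑ i, a i ^ 2 + 2 * (t * s) * ∑ i, a i * b i +
      s ^ 2 * ∑ i, b i ^ 2 := by
  simp only [Finset.mul_sum, ← Finset.sum_add_distrib]
  exact Finset.sum_congr rfl (fun i _ => by ring)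

theorem MB_zero_left (p : ℝ) (H : SimpleGraph (Fin n)) (b : Fin n → ℝ) :
    MB p H (fun _ => 0) b = 0 := by
  simp [MB, SS]

theorem MB_zero_right (p : ℝ) (H : SimpleGraph (Fin n)) (b : Fin n → ℝ) :
    MB p H b (fun _ => 0) = 0 := by
  simp [MB, SS]

theorem MB_bound {p β : ℝ} {H : SimpleGraph (Fin n)} {J : Finset (Fin n)}
    (h : ∀ c : Fin n → ℝ, (∀ i, i ∉ J → c i = 0) → |MM p H c| ≤ β * ∑ i, c i ^ 2)
    {a b : Fin n → ℝ} (ha : ∀ i, i ∉ J → a i = 0) (hb : ∀ i, i ∉ J → b i = 0) :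
    |MB p H a b| ≤ β * (Real.sqrt (∑ i, a i ^ 2) * Real.sqrt (∑ i, b i ^ 2)) := by
  by_cases hA : ∑ i, a i ^ 2 = 0
  · have : a = fun _ => 0 := by
      funext i
      have := (Finset.sum_eq_zero_iff_of_nonneg (fun i _ => sq_nonneg (a i))).mp hA i
        (Finset.mem_univ i)
      exact pow_eq_zero_iff (two_ne_zero) |>.mp this
    rw [this, MB_zero_left]
    simp
  by_cases hB : ∑ i, b i ^ 2 = 0
  · have : b = fun _ => 0 := by
      funext i
      have := (Finset.sum_eq_zero_iff_of_nonneg (fun i _ => sq_nonneg (b i))).mp hB i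
        (Finset.mem_univ i)
      exact pow_eq_zero_iff (two_ne_zero) |>.mp this
    rw [this, MB_zero_right]
    simp
  have hA0 : 0 < ∑ i, a i ^ 2 :=
    lt_of_le_of_ne (Finset.sum_nonneg (fun i _ => sq_nonneg _)) (Ne.symm hA)
  have hB0 : 0 < ∑ i, b i ^ 2 :=
    lt_of_le_of_ne (Finset.sum_nonneg (fun i _ => sq_nonneg _)) (Ne.symm hB)
  set α := Real.sqrt (∑ i, a i ^ 2) with hα
  set γ := Real.sqrt (∑ i, b i ^ 2) with hγ
  have hα0 : 0 < α := Real.sqrt_pos.mpr hA0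
  have hγ0 : 0 < γ := Real.sqrt_pos.mpr hB0
  have hα2 : α ^ 2 = ∑ i, a i ^ 2 := Real.sq_sqrt hA0.le
  have hγ2 : γ ^ 2 = ∑ i, b i ^ 2 := Real.sq_sqrt hB0.le
  -- use `γ a ± α b`
  have h1 := h (fun i => γ * a i + α * b i) (fun i hi => by simp [ha i hi, hb i hi])
  have h2 := h (fun i => γ * a i + (-α) * b i) (fun i hi => by simp [ha i hi, hb i hi])
  rw [MM_comb, sumsq_comb] at h1 h2
  rw [abs_le] at h1 h2
  rw [← hα2, ← hγ2] at h1 h2
  set P := ∑ i, a i * b i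
  have h3 : 4 * (γ * α) * MB p H a b ≤ 4 * (γ * α) * (β * (α * γ)) := by nlinarith [h1.2, h2.1]
  have h4 : -(4 * (γ * α) * (β * (α * γ))) ≤ 4 * (γ * α) * MB p H a b := by
    nlinarith [h1.1, h2.2]
  have h5 : 0 < 4 * (γ * α) := by positivity
  rw [abs_le]
  constructor
  · by_contra hc
    push Not at hc
    have := mul_lt_mul_of_pos_left hc h5
    linarith
  · exact le_of_mul_le_mul_left h3 h5

/-- Typical graphs. -/
structure Typ (p K κ δ : ℝ) (H : SimpleGraph (Fin n)) : Prop where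
  deg : ∀ i, n * p / 2 ≤ dg H i
  norm : ∀ x : Fin n → ℝ, |MM p H x| ≤ K * Real.sqrt n * ∑ i, x i ^ 2
  sparse : ∀ x : Fin n → ℝ, ((Finset.univ.filter (fun i => x i ≠ 0)).card : ℝ) ≤ δ * n →
    |MM p H x| ≤ κ * Real.sqrt n * ∑ i, x i ^ 2

section analysis

variable {p K κ δ : ℝ} {H : SimpleGraph (Fin n)}

theorem Typ.MB_le (h : Typ p K κ δ H) (a b : Fin n → ℝ) :
    |MB p H a b| ≤ K * Real.sqrt n * (Real.sqrt (∑ i, a i ^ 2) * Real.sqrt (∑ i, b i ^ 2)) :=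
  MB_bound (J := Finset.univ) (fun c _ => h.norm c) (by simp) (by simp)

theorem Typ.MB_sq_le (h : Typ p K κ δ H) (a b : Fin n → ℝ) :
    MB p H a b ^ 2 ≤ K ^ 2 * n * ((∑ i, a i ^ 2) * (∑ i, b i ^ 2)) := by
  have h1 := h.MB_le a b
  have h2 := sq_le_sq' (by linarith [neg_abs_le (MB p H a b), abs_nonneg (MB p H a b)]) (h1)
  rw [sq_abs] at h2
  refine h2.trans (le_of_eq ?_)
  rw [mul_pow, mul_pow, mul_pow, Real.sq_sqrt (Nat.cast_nonneg n),
    Real.sq_sqrt (Finset.sum_nonneg (fun i _ => sq_nonneg _)),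
    Real.sq_sqrt (Finset.sum_nonneg (fun i _ => sq_nonneg _))]

theorem MB_one (p : ℝ) (H : SimpleGraph (Fin n)) (z : Fin n → ℝ) :
    MB p H (fun _ => 1) z = lin H z - p * (n - 1) * ∑ i, z i := by
  have h0 : SS H (fun _ j => 1 * z j) = lin H z := by
    unfold lin
    rw [← SS_comm]
    simp
  unfold MB
  rw [h0]
  simp
  ring

/-- Facts about the extremal vector. -/
theorem Typ.sumsq_le (h : Typ p K κ δ H) (hp : 0 < p) (hn : 2 ≤ n) {y : Fin n → ℝ}
    (hD : qD H y = 1) : ∑ i, y i ^ 2 ≤ 2 / (n * p) := by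
  have hn0 : (0 : ℝ) < n := by positivity
  rw [le_div_iff₀ (by positivity)]
  rw [qD_eq] at hD
  have : ∑ i, (n * p / 2) * y i ^ 2 ≤ ∑ i, dg H i * y i ^ 2 :=
    Finset.sum_le_sum (fun i _ => mul_le_mul_of_nonneg_right (h.deg i) (sq_nonneg _))
  rw [← Finset.mul_sum, hD] at this
  linarith

theorem Typ.sq_le (h : Typ p K κ δ H) (hp : 0 < p) (hn : 2 ≤ n) {y : Fin n → ℝ}
    (hD : qD H y = 1) (i : Fin n) : y i ^ 2 ≤ 2 / (n * p) :=
  (Finset.single_le_sum (f := fun i => y i ^ 2) (fun i _ => sq_nonneg _)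
    (Finset.mem_univ i)).trans (h.sumsq_le hp hn hD)

theorem Typ.m2_ge (h : Typ p K κ δ H) : n ^ 2 * p / 2 ≤ m2 H := by
  rw [m2_eq]
  have : ∑ _i : Fin n, (n * p / 2) ≤ ∑ i, dg H i := Finset.sum_le_sum (fun i _ => h.deg i)
  simp at this
  linarith

theorem Typ.sum_sq_le (h : Typ p K κ δ H) (hp : 0 < p) (hn : 2 ≤ n) {y : Fin n → ℝ}
    (hlin : lin H y = 0) : (∑ i, y i) ^ 2 ≤ 4 * K ^ 2 / p ^ 2 * ∑ i, y i ^ 2 := by
  have h1 := h.MB_sq_le (fun _ => 1) y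
  rw [MB_one, hlin] at h1
  simp only [one_pow, Finset.sum_const, Finset.card_univ, Fintype.card_fin, nsmul_eq_mul,
    mul_one] at h1
  have hn2 : (2 : ℝ) ≤ n := by exact_mod_cast hn
  have h2 : (n : ℝ) / 2 ≤ n - 1 := by linarith
  have h3 : ((n : ℝ) / 2) ^ 2 ≤ (n - 1) ^ 2 := by
    apply pow_le_pow_left₀ (by positivity) h2
  have h4 : p ^ 2 * (((n : ℝ) / 2) ^ 2 * (∑ i, y i) ^ 2) ≤ K ^ 2 * n * (n * ∑ i, y i ^ 2) := by
    have := mul_le_mul_of_nonneg_right h3 (sq_nonneg (∑ i, y i))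
    have := mul_le_mul_of_nonneg_left this (sq_nonneg p)
    nlinarith
  have hn0 : (0 : ℝ) < n := by linarith
  have h5 : (∑ i, y i) ^ 2 * (p ^ 2 * ((n : ℝ) / 2) ^ 2) ≤
      (4 * K ^ 2 / p ^ 2 * ∑ i, y i ^ 2) * (p ^ 2 * ((n : ℝ) / 2) ^ 2) := by
    have : (4 * K ^ 2 / p ^ 2 * ∑ i, y i ^ 2) * (p ^ 2 * ((n : ℝ) / 2) ^ 2) =
        K ^ 2 * n * (n * ∑ i, y i ^ 2) := by
      field_simp
      ring
    rw [this]
    linarith
  exact le_of_mul_le_mul_right h5 (by positivity)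

/-- Upper bound for the second eigenvalue. -/
theorem Typ.TT_le (h : Typ p K κ δ H) (hp : 0 < p) (hn : 2 ≤ n) (hK : 0 < K)
    (hr : 4 * K / p ≤ Real.sqrt n) (hpos : ∀ i, 0 < dg H i) :
    TT H ≤ 4 * K / p / Real.sqrt n := by
  obtain ⟨y, hlin, hD, hA⟩ := exists_extremal hpos hn
  have hn0 : (0 : ℝ) < n := by positivity
  have hr0 : 0 < Real.sqrt n := Real.sqrt_pos.mpr hn0
  have hr2 : Real.sqrt n ^ 2 = n := Real.sq_sqrt hn0.le
  have h1 := (abs_le.mp (h.norm y)).2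
  have h2 := h.sum_sq_le hp hn hlin
  have h3 := h.sumsq_le hp hn hD
  set Y := ∑ i, y i ^ 2 with hY
  have hY0 : 0 ≤ Y := Finset.sum_nonneg (fun i _ => sq_nonneg _)
  unfold MM at h1
  rw [hA] at h1
  set r := Real.sqrt n with hrdef
  have h4 : TT H ≤ K * r * Y + p * (4 * K ^ 2 / p ^ 2 * Y) := by
    have := mul_le_mul_of_nonneg_left h2 hp.le
    have := mul_nonneg hp.le hY0
    nlinarith
  have h5 : p * (4 * K ^ 2 / p ^ 2 * Y) ≤ K * r * Y := by
    have : p * (4 * K ^ 2 / p ^ 2 * Y) = K * (4 * K / p) * Y := by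
      field_simp
    rw [this]
    gcongr
  have h6 : 2 * (K * r * Y) ≤ 4 * K / p / r := by
    have h7 : K * r * Y ≤ K * r * (2 / (n * p)) := by gcongr
    have h8 : 2 * (K * r * (2 / (n * p))) = 4 * K / p / r := by
      rw [← hr2]
      field_simp
      ring
    linarith
  linarith

end analysis

end Pool.Agent.MP_332c83_pr
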